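import Mathlib

/-! # Schwarz lemma of order `N`, jets, and polynomials vanishing to high order (project DER, T1b) -/

set_option autoImplicit false

namespace Pool.Agent.Lib.MP_5d4057_al.QB

open Filter Topology Metric Asymptotics

/-- Schwarz lemma of order `N`. -/
theorem schwarz_ord {R : ℝ} (hR : 0 < R) (N : ℕ) : ∀ {M : ℝ} {h : ℂ → ℂ},
    DifferentiableOn ℂ h (ball 0 R) → (∀ t ∈ ball (0 : ℂ) R, ‖h t‖ ≤ M) →
    h =O[𝓝 0] (fun t => t ^ N) → ∀ t ∈ ball (0 : ℂ) R, ‖h t‖ ≤ M * (‖t‖ / R) ^ N := by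
  induction N with
  | zero =>
    intro M h _ hM _ t ht
    rw [pow_zero, mul_one]
    exact hM t ht
  | succ N ih =>
    intro M h hd hM hO t ht
    have h0 : h 0 = 0 := by
      obtain ⟨C, hC⟩ := hO.bound
      have h1 := hC.self_of_nhds
      rw [zero_pow (Nat.succ_ne_zero N), norm_zero, mul_zero] at h1
      exact norm_le_zero_iff.1 h1
    have hg : DifferentiableOn ℂ (dslope h 0) (ball 0 R) :=
      (Complex.differentiableOn_dslope (ball_mem_nhds 0 hR)).2 hd
    have hgM : ∀ t ∈ ball (0 : ℂ) R, ‖dslope h 0 t‖ ≤ M / R := by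
      intro t ht
      refine Complex.norm_dslope_le_div_of_mapsTo_ball hd ?_ ht
      intro u hu
      rw [h0, mem_closedBall_zero_iff]
      exact hM u hu
    have hmul : ∀ t, h t = t * dslope h 0 t := by
      intro t
      have h1 := sub_smul_dslope h 0 t
      rw [h0, sub_zero, sub_zero, smul_eq_mul] at h1
      exact h1.symm
    have hgO : dslope h 0 =O[𝓝 0] fun t => t ^ N := by
      obtain ⟨C, hC⟩ := hO.bound
      have hne : ∀ᶠ t in 𝓝[≠] (0 : ℂ), ‖dslope h 0 t‖ ≤ C * ‖t ^ N‖ := by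
        filter_upwards [hC.filter_mono nhdsWithin_le_nhds, self_mem_nhdsWithin] with t h1 h2
        rw [hmul, norm_mul, pow_succ, norm_mul, ← mul_assoc, mul_comm] at h1
        exact le_of_mul_le_mul_right h1 (norm_pos_iff.2 h2)
      have hcont : ContinuousAt (dslope h 0) 0 :=
        (hg.differentiableAt (ball_mem_nhds 0 hR)).continuousAt
      have h3 : ‖dslope h 0 0‖ ≤ C * ‖(0 : ℂ) ^ N‖ := by
        refine le_of_tendsto_of_tendsto (f := fun t => ‖dslope h 0 t‖)
          (g := fun t : ℂ => C * ‖t ^ N‖) (b := 𝓝[≠] (0 : ℂ)) ?_ ?_ hne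
        · exact (hcont.norm.tendsto).mono_left nhdsWithin_le_nhds
        · have h4 : Continuous fun t : ℂ => C * ‖t ^ N‖ := by fun_prop
          exact (h4.tendsto 0).mono_left nhdsWithin_le_nhds
      refine IsBigO.of_bound C ?_
      rw [eventually_nhdsWithin_iff] at hne
      filter_upwards [hne] with t h5
      by_cases h6 : t = 0
      · rw [h6]
        exact h3
      · exact h5 h6
    have h7 := ih hg hgM hgO t ht
    rw [hmul, norm_mul]
    calc ‖t‖ * ‖dslope h 0 t‖ ≤ ‖t‖ * (M / R * (‖t‖ / R) ^ N) :=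
          mul_le_mul_of_nonneg_left h7 (norm_nonneg t)
      _ = M * (‖t‖ / R) ^ (N + 1) := by
          rw [pow_succ]
          ring

variable {n : ℕ}

/-- Homogeneous jets are polynomials. -/
theorem exists_poly_of_multilinear {k : ℕ} (f : MultilinearMap ℂ (fun _ : Fin k => Fin n → ℂ) ℂ) :
    ∃ p : MvPolynomial (Fin n) ℂ, ∀ z, MvPolynomial.eval z p = f fun _ => z := by
  classical
  refine ⟨∑ r : Fin k → Fin n, MvPolynomial.C (f fun j => Pi.single (r j) 1) *
    ∏ j, MvPolynomial.X (r j), fun z => ?_⟩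
  have h1 : (fun _ : Fin k => z) = fun _ : Fin k => ∑ i : Fin n, z i • (Pi.single i (1 : ℂ) : Fin n → ℂ) := by
    funext _
    funext l
    rw [Finset.sum_apply, Finset.sum_eq_single l]
    · simp
    · intro b _ hb
      simp [hb.symm]
    · intro h
      exact absurd (Finset.mem_univ l) h
  rw [h1, MultilinearMap.map_sum, map_sum]
  refine Finset.sum_congr rfl fun r _ => ?_
  rw [MultilinearMap.map_smul_univ, map_mul, MvPolynomial.eval_C, map_prod, smul_eq_mul, mul_comm]
  simp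

/-- Jets. -/
theorem exists_jet {φ : (Fin n → ℂ) → ℂ} (hφ : AnalyticAt ℂ φ 0) (N : ℕ) :
    ∃ p : MvPolynomial (Fin n) ℂ,
      (fun z => φ z - MvPolynomial.eval z p) =O[𝓝 0] fun z => ‖z‖ ^ N := by
  obtain ⟨ps, hps⟩ := hφ
  have h1 := hps.isBigO_sub_partialSum_pow N
  choose p hp using fun k => exists_poly_of_multilinear (ps k).toMultilinearMap
  refine ⟨∑ k ∈ Finset.range N, p k, ?_⟩
  refine h1.congr_left fun z => ?_
  rw [zero_add, FormalMultilinearSeries.partialSum, map_sum]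
  congr 1
  refine Finset.sum_congr rfl fun k _ => ?_
  rw [hp]
  rfl

/-- Replacing functions by their jets. -/
theorem eval_jet {ι : Type} {φ : ι → (Fin n → ℂ) → ℂ} {p : ι → MvPolynomial (Fin n) ℂ} {N : ℕ}
    (hφ : ∀ i, ContinuousAt (φ i) 0)
    (hp : ∀ i, (fun z => φ i z - MvPolynomial.eval z (p i)) =O[𝓝 0] fun z => ‖z‖ ^ N)
    (P : MvPolynomial ι ℂ) :
    (fun z => MvPolynomial.eval (fun i => φ i z) P -
      MvPolynomial.eval z (MvPolynomial.bind₁ p P)) =O[𝓝 0] fun z => ‖z‖ ^ N := by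
  induction P using MvPolynomial.induction_on with
  | C a =>
    have h : (fun z : Fin n → ℂ => MvPolynomial.eval (fun i => φ i z) (MvPolynomial.C a) -
      MvPolynomial.eval z (MvPolynomial.bind₁ p (MvPolynomial.C a))) = fun _ => 0 := by
      funext z
      simp
    rw [h]
    exact isBigO_zero _ _
  | add a b ha hb =>
    refine (ha.add hb).congr_left fun z => ?_
    simp only [map_add]
    ring
  | mul_X a i ha =>
    have h1 : (fun z : Fin n → ℂ => MvPolynomial.eval z (MvPolynomial.bind₁ p a)) =O[𝓝 0]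
        fun _ => (1 : ℝ) := by
      have h2 : Continuous fun z : Fin n → ℂ => MvPolynomial.eval z (MvPolynomial.bind₁ p a) :=
        MvPolynomial.continuous_eval _
      exact h2.continuousAt.isBigO_one ℝ
    have h3 : φ i =O[𝓝 0] fun _ => (1 : ℝ) := (hφ i).isBigO_one ℝ
    have h5 := ha.mul h3
    have h6 := h1.mul (hp i)
    simp only [mul_one, one_mul] at h5 h6
    refine (h5.add h6).congr_left fun z => ?_
    simp only [map_mul, MvPolynomial.eval_X, MvPolynomial.bind₁_X_right]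
    ring

/-- A polynomial without terms of degree `< N` is `O(‖z‖ ^ N)`. -/
theorem isBigO_of_coeff {Q : MvPolynomial (Fin n) ℂ} {N : ℕ}
    (hQ : ∀ β : Fin n →₀ ℕ, (∀ i, β i < N) → Q.coeff β = 0) :
    (fun z => MvPolynomial.eval z Q) =O[𝓝 0] fun z => ‖z‖ ^ N := by
  classical
  have h1 : (fun z : Fin n → ℂ => MvPolynomial.eval z Q) =
      fun z => ∑ β ∈ Q.support, Q.coeff β * ∏ i, z i ^ β i := by
    funext z
    rw [MvPolynomial.eval_eq']
  rw [h1]
  refine IsBigO.fun_sum (A := fun β (z : Fin n → ℂ) => Q.coeff β * ∏ i, z i ^ β i)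
    (s := Q.support) fun β hβ => ?_
  obtain ⟨i₀, hi₀⟩ : ∃ i, N ≤ β i := by
    by_contra hcon
    push Not at hcon
    exact (MvPolynomial.mem_support_iff.1 hβ) (hQ β hcon)
  refine IsBigO.of_bound ‖Q.coeff β‖ ?_
  filter_upwards [ball_mem_nhds (0 : Fin n → ℂ) one_pos] with z hz
  have hz1 : ‖z‖ ≤ 1 := (mem_ball_zero_iff.1 hz).le
  rw [norm_mul, norm_pow, norm_norm, norm_prod]
  refine mul_le_mul_of_nonneg_left ?_ (norm_nonneg _)
  rw [← Finset.mul_prod_erase Finset.univ _ (Finset.mem_univ i₀)]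
  have h2 : ‖z i₀ ^ β i₀‖ ≤ ‖z‖ ^ N := by
    rw [norm_pow]
    calc ‖z i₀‖ ^ β i₀ ≤ ‖z‖ ^ β i₀ :=
          pow_le_pow_left₀ (norm_nonneg _) (norm_le_pi_norm z i₀) _
      _ ≤ ‖z‖ ^ N := pow_le_pow_of_le_one (norm_nonneg _) hz1 hi₀
  have h3 : ∏ i ∈ Finset.univ.erase i₀, ‖z i ^ β i‖ ≤ 1 := by
    refine Finset.prod_le_one (fun i _ => norm_nonneg _) fun i _ => ?_
    rw [norm_pow]
    exact pow_le_one₀ (norm_nonneg _) ((norm_le_pi_norm z i).trans hz1)
  calc ‖z i₀ ^ β i₀‖ * ∏ i ∈ Finset.univ.erase i₀, ‖z i ^ β i‖ ≤ ‖z‖ ^ N * 1 :=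
        mul_le_mul h2 h3 (Finset.prod_nonneg fun i _ => norm_nonneg _) (by positivity)
    _ = ‖z‖ ^ N := mul_one _

/-- The exponent of the monomial `X 0 ^ (D - ∑ a) * ∏ X (i + 1) ^ (a i)`. -/
noncomputable def ex {m : ℕ} (D : ℕ) (a : Fin m → ℕ) : Fin (m + 1) →₀ ℕ :=
  Finsupp.equivFunOnFinite.symm (Fin.cons (D - ∑ i, a i) a)

theorem ex_succ {m : ℕ} (D : ℕ) (a : Fin m → ℕ) (i : Fin m) : ex D a i.succ = a i := by
  change (Fin.cons (D - ∑ i, a i) a : Fin (m + 1) → ℕ) i.succ = a i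
  rw [Fin.cons_succ]

theorem ex_degree {m : ℕ} {D : ℕ} {a : Fin m → ℕ} (h : ∑ i, a i ≤ D) : (ex D a).degree = D := by
  rw [Finsupp.degree_eq_sum, Fin.sum_univ_succ]
  simp only [ex_succ]
  have h1 : ex D a 0 = D - ∑ i, a i := by
    change (Fin.cons (D - ∑ i, a i) a : Fin (m + 1) → ℕ) 0 = _
    rw [Fin.cons_zero]
  rw [h1]
  omega

/-- There are many homogeneous polynomials of degree `m * d` in `m + 1` variables: more than
`(d + 1) ^ m` linear conditions are needed to kill them. -/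
theorem exists_homog {m d : ℕ} {κ : Type} [Fintype κ]
    (T : MvPolynomial (Fin (m + 1)) ℂ →ₗ[ℂ] (κ → ℂ)) (h : Fintype.card κ < (d + 1) ^ m) :
    ∃ P : MvPolynomial (Fin (m + 1)) ℂ, P ≠ 0 ∧ P.IsHomogeneous (m * d) ∧ T P = 0 := by
  classical
  let S : ((Fin m → Fin (d + 1)) → ℂ) →ₗ[ℂ] MvPolynomial (Fin (m + 1)) ℂ :=
    { toFun := fun c => ∑ a, MvPolynomial.monomial (ex (m * d) fun i => (a i : ℕ)) (c a)
      map_add' := by
        intro c c'
        simp only [Pi.add_apply, map_add, Finset.sum_add_distrib]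
      map_smul' := by
        intro r c
        simp only [Pi.smul_apply, smul_eq_mul, RingHom.id_apply, Finset.smul_sum,
          MvPolynomial.smul_monomial] }
  have hle : ∀ a : Fin m → Fin (d + 1), ∑ i, (a i : ℕ) ≤ m * d := by
    intro a
    calc ∑ i, (a i : ℕ) ≤ ∑ _i : Fin m, d := Finset.sum_le_sum fun i _ => Nat.lt_succ_iff.1 (a i).2
      _ = m * d := by simp
  have hinj : ∀ a b : Fin m → Fin (d + 1),
      (ex (m * d) fun i => (a i : ℕ)) = (ex (m * d) fun i => (b i : ℕ)) → a = b := by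
    intro a b hab
    funext i
    have h1 := congrArg (fun f : Fin (m + 1) →₀ ℕ => f i.succ) hab
    simp only [ex_succ] at h1
    exact Fin.ext h1
  have hcoeff : ∀ (c : (Fin m → Fin (d + 1)) → ℂ) (a : Fin m → Fin (d + 1)),
      (S c).coeff (ex (m * d) fun i => (a i : ℕ)) = c a := by
    intro c a
    change (∑ b, MvPolynomial.monomial (ex (m * d) fun i => (b i : ℕ)) (c b)).coeff
      (ex (m * d) fun i => (a i : ℕ)) = c a
    rw [MvPolynomial.coeff_sum, Finset.sum_eq_single a]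
    · rw [MvPolynomial.coeff_monomial, if_pos rfl]
    · intro b _ hb
      rw [MvPolynomial.coeff_monomial, if_neg]
      exact fun h2 => hb (hinj _ _ h2)
    · intro h2
      exact absurd (Finset.mem_univ a) h2
  have hker : LinearMap.ker (T ∘ₗ S) ≠ ⊥ := by
    refine LinearMap.ker_ne_bot_of_finrank_lt ?_
    rw [Module.finrank_pi, Module.finrank_pi]
    simpa using h
  obtain ⟨c, hc, hc0⟩ := (Submodule.ne_bot_iff _).1 hker
  refine ⟨S c, ?_, ?_, ?_⟩
  · intro h0
    apply hc0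
    funext a
    rw [← hcoeff c a, h0, MvPolynomial.coeff_zero]
    rfl
  · refine MvPolynomial.IsHomogeneous.sum _ _ _ fun a _ => ?_
    exact MvPolynomial.isHomogeneous_monomial _ (ex_degree (hle a))
  · exact hc

/-- `n + 2` functions of `n` variables, at `s` points: there is a homogeneous polynomial `P ≠ 0` of
some degree `D` such that `P (φ j 0, …)` vanishes to order `A * D + B` at each of the points. -/
theorem exists_van {s : ℕ} (φ : Fin s → Fin (n + 2) → (Fin n → ℂ) → ℂ)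
    (hφ : ∀ j i, AnalyticAt ℂ (φ j i) 0) (A B : ℕ) :
    ∃ D : ℕ, ∃ P : MvPolynomial (Fin (n + 2)) ℂ, P ≠ 0 ∧ P.IsHomogeneous D ∧
      ∀ j, (fun z => MvPolynomial.eval (fun i => φ j i z) P) =O[𝓝 0]
        fun z => ‖z‖ ^ (A * D + B) := by
  classical
  obtain ⟨E, hE⟩ : ∃ E, E = A * (n + 1) + B := ⟨_, rfl⟩
  obtain ⟨d, hd⟩ : ∃ d, d = s * E ^ n := ⟨_, rfl⟩
  obtain ⟨N, hN⟩ : ∃ N, N = A * ((n + 1) * d) + B := ⟨_, rfl⟩
  choose p hp using fun j i => exists_jet (hφ j i) N
  let T : MvPolynomial (Fin (n + 2)) ℂ →ₗ[ℂ] ((Fin s × (Fin n → Fin N)) → ℂ) :=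
    { toFun := fun P x => (MvPolynomial.bind₁ (p x.1) P).coeff
        (Finsupp.equivFunOnFinite.symm fun i => (x.2 i : ℕ))
      map_add' := by
        intro P Q
        funext x
        simp only [map_add, MvPolynomial.coeff_add, Pi.add_apply]
      map_smul' := by
        intro r P
        funext x
        simp only [map_smul, MvPolynomial.coeff_smul, Pi.smul_apply, RingHom.id_apply] }
  have hcard : Fintype.card (Fin s × (Fin n → Fin N)) < (d + 1) ^ (n + 1) := by
    rw [Fintype.card_prod, Fintype.card_fin, Fintype.card_fun, Fintype.card_fin, Fintype.card_fin]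
    have h1 : N ≤ E * (d + 1) := by
      rw [hN, hE]
      nlinarith [Nat.zero_le (A * (n + 1)), Nat.zero_le (B * d)]
    calc s * N ^ n ≤ s * (E * (d + 1)) ^ n := Nat.mul_le_mul_left _ (Nat.pow_le_pow_left h1 n)
      _ = (s * E ^ n) * (d + 1) ^ n := by rw [mul_pow]; ring
      _ = d * (d + 1) ^ n := by rw [← hd]
      _ < (d + 1) * (d + 1) ^ n := Nat.mul_lt_mul_of_pos_right (Nat.lt_succ_self d) (by positivity)
      _ = (d + 1) ^ (n + 1) := by rw [pow_succ]; ring
  obtain ⟨P, hP0, hPh, hPT⟩ := exists_homog (m := n + 1) (d := d) T hcard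
  refine ⟨(n + 1) * d, P, hP0, hPh, fun j => ?_⟩
  rw [← hN]
  have h1 := eval_jet (fun i => (hφ j i).continuousAt) (hp j) P
  have h2 : (fun z => MvPolynomial.eval z (MvPolynomial.bind₁ (p j) P)) =O[𝓝 0]
      fun z : Fin n → ℂ => ‖z‖ ^ N := by
    refine isBigO_of_coeff fun β hβ => ?_
    have h3 := congrFun hPT (j, fun i => ⟨β i, hβ i⟩)
    have h4 : (Finsupp.equivFunOnFinite.symm fun i => β i) = β := by
      ext i
      rfl
    change (MvPolynomial.bind₁ (p j) P).coeff (Finsupp.equivFunOnFinite.symm fun i => β i) = 0 at h3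
    rw [h4] at h3
    exact h3
  refine (h1.add h2).congr_left fun z => ?_
  ring

end Pool.Agent.Lib.MP_5d4057_al.QB
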