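import Pool.Agent.Lib.MP_5d4057_al.QB.FmDefs
import Pool.Agent.Lib.MP_5d4057_al.HM.Basic
import Mathlib

/-! Closure properties of forms (project DER, part T1c). -/

set_option autoImplicit false

namespace Pool.Agent.Lib.MP_5d4057_al.QB

open Matrix Pool.Agent.Lib.MP_5d4057_al Pool.Agent.Lib.MP_5d4057_al.Hyb
  Pool.Agent.Lib.MP_5d4057_al.HM

variable {n : ℕ} {Γ Δ : Subgroup (SUGroup n)} {χ ψ : SUGroup n → ℂ} {k l : ℕ} {f g : Vec n → ℂ}

theorem Fm.congr (hf : Fm Γ χ k f) (h : ∀ v ∈ Cone n, g v = f v) : Fm Γ χ k g where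
  diff := hf.diff.congr h
  hom c hc v hv := by rw [h _ (smul_mem_cone hc hv), h v hv, hf.hom c hc v hv]
  inv γ hγ v hv := by rw [h _ (act_mem γ hv), h v hv, hf.inv γ hγ v hv]

theorem Fm.congr_char (hf : Fm Γ χ k f) (h : ∀ γ ∈ Γ, ψ γ = χ γ) : Fm Γ ψ k f where
  diff := hf.diff
  hom := hf.hom
  inv γ hγ v hv := by rw [h γ hγ, hf.inv γ hγ v hv]

theorem Fm.congr_wt (hf : Fm Γ χ k f) (h : l = k) : Fm Γ χ l f := by
  rw [h]
  exact hf

theorem Fm.mono (hf : Fm Γ χ k f) (h : Δ ≤ Γ) : Fm Δ χ k f where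
  diff := hf.diff
  hom := hf.hom
  inv γ hγ v hv := hf.inv γ (h hγ) v hv

theorem Fm.zero : Fm Γ χ k (fun _ => 0) where
  diff := differentiableOn_const 0
  hom c hc v hv := by rw [mul_zero]
  inv γ hγ v hv := by rw [mul_zero]

theorem Fm.const (c : ℂ) : Fm Γ (fun _ => 1) 0 (fun _ => c) where
  diff := differentiableOn_const c
  hom c hc v hv := by rw [pow_zero, inv_one, one_mul]
  inv γ hγ v hv := by rw [one_mul]

theorem Fm.add (hf : Fm Γ χ k f) (hg : Fm Γ χ k g) : Fm Γ χ k (fun v => f v + g v) where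
  diff := hf.diff.add hg.diff
  hom c hc v hv := by rw [hf.hom c hc v hv, hg.hom c hc v hv, mul_add]
  inv γ hγ v hv := by rw [hf.inv γ hγ v hv, hg.inv γ hγ v hv, mul_add]

theorem Fm.smul (c : ℂ) (hf : Fm Γ χ k f) : Fm Γ χ k (fun v => c * f v) where
  diff := hf.diff.const_mul c
  hom a ha v hv := by rw [hf.hom a ha v hv]; ring
  inv γ hγ v hv := by rw [hf.inv γ hγ v hv]; ring

theorem Fm.neg (hf : Fm Γ χ k f) : Fm Γ χ k (fun v => -f v) :=
  (hf.smul (-1)).congr fun v _ => by ring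

theorem Fm.sub (hf : Fm Γ χ k f) (hg : Fm Γ χ k g) : Fm Γ χ k (fun v => f v - g v) :=
  (hf.add hg.neg).congr fun v _ => by ring

theorem Fm.sum {ι : Type*} (s : Finset ι) {F : ι → Vec n → ℂ} (h : ∀ i ∈ s, Fm Γ χ k (F i)) :
    Fm Γ χ k (fun v => ∑ i ∈ s, F i v) where
  diff := DifferentiableOn.fun_sum fun i hi => (h i hi).diff
  hom c hc v hv := by
    rw [Finset.mul_sum]
    exact Finset.sum_congr rfl fun i hi => (h i hi).hom c hc v hv
  inv γ hγ v hv := by
    rw [Finset.mul_sum]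
    exact Finset.sum_congr rfl fun i hi => (h i hi).inv γ hγ v hv

theorem Fm.mul (hf : Fm Γ χ k f) (hg : Fm Γ ψ l g) :
    Fm Γ (fun γ => χ γ * ψ γ) (k + l) (fun v => f v * g v) where
  diff := hf.diff.mul hg.diff
  hom c hc v hv := by
    rw [hf.hom c hc v hv, hg.hom c hc v hv, pow_add, mul_inv]
    ring
  inv γ hγ v hv := by
    rw [hf.inv γ hγ v hv, hg.inv γ hγ v hv]
    ring

theorem Fm.pow (hf : Fm Γ χ k f) (m : ℕ) : Fm Γ (fun γ => χ γ ^ m) (k * m) (fun v => f v ^ m) where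
  diff := hf.diff.pow m
  hom c hc v hv := by rw [hf.hom c hc v hv, mul_pow, inv_pow, ← pow_mul]
  inv γ hγ v hv := by rw [hf.inv γ hγ v hv, mul_pow]

theorem Fm.prod {ι : Type*} (s : Finset ι) {F : ι → Vec n → ℂ} {X : ι → SUGroup n → ℂ} {w : ι → ℕ}
    (h : ∀ i ∈ s, Fm Γ (X i) (w i) (F i)) :
    Fm Γ (fun γ => ∏ i ∈ s, X i γ) (∑ i ∈ s, w i) (fun v => ∏ i ∈ s, F i v) where
  diff := by
    classical
    induction s using Finset.induction_on with
    | empty => simpa only [Finset.prod_empty] using differentiableOn_const (1 : ℂ)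
    | insert a s ha ih =>
      have h1 := (h a (Finset.mem_insert_self a s)).diff.mul
        (ih fun i hi => h i (Finset.mem_insert_of_mem hi))
      exact h1.congr fun v _ => Finset.prod_insert ha
  hom c hc v hv := by
    rw [← Finset.prod_pow_eq_pow_sum, ← Finset.prod_inv_distrib, ← Finset.prod_mul_distrib]
    exact Finset.prod_congr rfl fun i hi => (h i hi).hom c hc v hv
  inv γ hγ v hv := by
    rw [← Finset.prod_mul_distrib]
    exact Finset.prod_congr rfl fun i hi => (h i hi).inv γ hγ v hv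

/-- Products of forms which are invariant under `Γ`. -/
theorem Fm.mul_one' (hf : Fm Γ (fun _ => 1) k f) (hg : Fm Γ (fun _ => 1) l g) :
    Fm Γ (fun _ => 1) (k + l) (fun v => f v * g v) :=
  (hf.mul hg).congr_char fun _ _ => (mul_one 1).symm

theorem Fm.pow_one' (hf : Fm Γ (fun _ => 1) k f) (m : ℕ) :
    Fm Γ (fun _ => 1) (k * m) (fun v => f v ^ m) :=
  (hf.pow m).congr_char fun _ _ => (one_pow m).symm

theorem Fm.prod_one' {ι : Type*} (s : Finset ι) {F : ι → Vec n → ℂ} {w : ι → ℕ}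
    (h : ∀ i ∈ s, Fm Γ (fun _ => 1) (w i) (F i)) :
    Fm Γ (fun _ => 1) (∑ i ∈ s, w i) (fun v => ∏ i ∈ s, F i v) :=
  (Fm.prod s h).congr_char fun _ _ => (Finset.prod_const_one).symm

/-- A homogeneous polynomial in forms of the same weight and character. -/
theorem Fm.eval {ι : Type*} {F : ι → Vec n → ℂ} (h : ∀ i, Fm Γ χ k (F i))
    {P : MvPolynomial ι ℂ} {D : ℕ} (hP : P.IsHomogeneous D) :
    Fm Γ (fun γ => χ γ ^ D) (k * D) (fun v => MvPolynomial.eval (fun i => F i v) P) := by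
  have h1 : ∀ v : Vec n, MvPolynomial.eval (fun i => F i v) P =
      ∑ d ∈ P.support, P.coeff d * ∏ i ∈ d.support, F i v ^ d i := fun v => by
    rw [MvPolynomial.eval_eq]
  have h2 : ∀ d ∈ P.support, Fm Γ (fun γ => χ γ ^ D) (k * D)
      (fun v => P.coeff d * ∏ i ∈ d.support, F i v ^ d i) := fun d hd => by
    have h3 : ∑ i ∈ d.support, d i = D := by
      by_contra hne
      exact MvPolynomial.mem_support_iff.mp hd (hP.coeff_eq_zero hne)
    have h5 := Fm.prod d.support (F := fun i v => F i v ^ d i) (X := fun i γ => χ γ ^ d i)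
      (w := fun i => k * d i) (Γ := Γ) fun i _ => (h i).pow (d i)
    refine ((h5.congr_char (ψ := fun γ => χ γ ^ D) fun γ _ => ?_).congr_wt ?_).smul _
    · rw [Finset.prod_pow_eq_pow_sum, h3]
    · rw [← Finset.mul_sum, h3]
  exact (Fm.sum P.support h2).congr fun v _ => h1 v

/-- A weighted homogeneous polynomial in invariant forms. -/
theorem Fm.evalW {ι : Type*} {F : ι → Vec n → ℂ} {w : ι → ℕ} (h : ∀ i, Fm Γ (fun _ => 1) (w i) (F i))
    {P : MvPolynomial ι ℂ} {D : ℕ} (hP : P.IsWeightedHomogeneous w D) :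
    Fm Γ (fun _ => 1) D (fun v => MvPolynomial.eval (fun i => F i v) P) := by
  have h1 : ∀ v : Vec n, MvPolynomial.eval (fun i => F i v) P =
      ∑ d ∈ P.support, P.coeff d * ∏ i ∈ d.support, F i v ^ d i := fun v => by
    rw [MvPolynomial.eval_eq]
  have h2 : ∀ d ∈ P.support, Fm Γ (fun _ => 1) D
      (fun v => P.coeff d * ∏ i ∈ d.support, F i v ^ d i) := fun d hd => by
    have h3 : ∑ i ∈ d.support, w i * d i = D := by
      have h4 := hP (MvPolynomial.mem_support_iff.mp hd)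
      rw [Finsupp.weight_apply, Finsupp.sum] at h4
      rw [← h4]
      refine Finset.sum_congr rfl fun i _ => ?_
      rw [smul_eq_mul, mul_comm]
    refine ((Fm.prod_one' d.support (F := fun i v => F i v ^ d i)
      (w := fun i => w i * d i) (Γ := Γ) fun i _ => (h i).pow_one' (d i)).congr_wt ?_).smul _
    rw [h3]
  exact (Fm.sum P.support h2).congr fun v _ => h1 v

theorem Fm.diffAt (hf : Fm Γ χ k f) {v : Vec n} (hv : v ∈ Cone n) : DifferentiableAt ℂ f v :=
  hf.diff.differentiableAt ((isOpen_cone n).mem_nhds hv)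

theorem Fm.contOn (hf : Fm Γ χ k f) : ContinuousOn f (Cone n) := hf.diff.continuousOn

/-- Euler's identity. -/
theorem Fm.euler (hf : Fm Γ χ k f) {v : Vec n} (hv : v ∈ Cone n) :
    fderiv ℂ f v v = -(k : ℂ) * f v := by
  have h1 : HasDerivAt (fun c : ℂ => f (c • v)) (fderiv ℂ f v v) 1 := by
    have h2 : HasDerivAt (fun c : ℂ => c • v) v 1 := by
      have h3 := (hasDerivAt_id (1 : ℂ)).smul_const v
      rwa [one_smul] at h3
    have h4 : HasFDerivAt f (fderiv ℂ f v) ((1 : ℂ) • v) := by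
      rw [one_smul]
      exact (hf.diffAt hv).hasFDerivAt
    exact h4.comp_hasDerivAt (1 : ℂ) h2
  have h5 : HasDerivAt (fun c : ℂ => (c ^ k)⁻¹ * f v) (-(k : ℂ) * f v) 1 := by
    have h6 : HasDerivAt (fun c : ℂ => c ^ k) ((k : ℂ)) 1 := by
      have h7 := hasDerivAt_pow k (1 : ℂ)
      rwa [one_pow, mul_one] at h7
    have h8 := (h6.fun_inv (by rw [one_pow]; exact one_ne_zero)).mul_const (f v)
    rwa [one_pow, one_pow, div_one] at h8
  have h9 : (fun c : ℂ => f (c • v)) =ᶠ[nhds 1] fun c : ℂ => (c ^ k)⁻¹ * f v := by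
    filter_upwards [isOpen_ne.mem_nhds (one_ne_zero (α := ℂ))] with c hc
    exact hf.hom c hc v hv
  exact h1.unique (h5.congr_of_eventuallyEq h9)

end Pool.Agent.Lib.MP_5d4057_al.QB
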