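import Pool.Agent.Lib.MP_5d4057_al.QB.FmA
import Pool.Agent.Lib.MP_5d4057_al.HM.SmoothA

/-! Forms with high order of vanishing at finitely many points are zero (project (B), T1b). -/

namespace Pool.Agent.Lib.MP_5d4057_al.QB

open Matrix MeasureTheory Filter Topology Pool.Agent.Lib.MP_5d4057_al
  Pool.Agent.Lib.MP_5d4057_al.Hyb Pool.Agent.Lib.MP_5d4057_al.HM
  Pool.Agent.Lib.MP_5d4057_al.NU Pool.Agent.Lib.MP_5d4057_al.RC

variable {n : ℕ} {Γ : Subgroup (SUGroup n)}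

/-- The Schwarz lemma at `1` for functions with a zero of high order at `0`. -/
theorem schwarz_one {φ : ℂ → ℂ} {σ B : ℝ} (hσ : 1 < σ) (T : ℕ)
    (hd : DifferentiableOn ℂ φ (Metric.closedBall 0 (σ ^ 2))) (hB : 0 ≤ B)
    (hb : ∀ z ∈ Metric.sphere (0 : ℂ) (σ ^ 2), ‖φ z‖ ≤ B)
    (hT : ∀ j < T, iteratedDeriv j φ 0 = 0) :
    ‖φ 1‖ ≤ B * (σ ^ T)⁻¹ * (1 - σ⁻¹)⁻¹ := by
  have hσ0 : 0 < σ := by linarith
  have hρ : 0 < σ ^ 2 := by positivity
  have hρ1 : 1 < σ ^ 2 := by nlinarith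
  have h1 : (1 : ℂ) ∈ Metric.ball (0 : ℂ) (σ ^ 2) := by
    rw [mem_ball_zero_iff, norm_one]
    exact hρ1
  have hs := Complex.taylorSeries_eq_on_ball (hd.mono Metric.ball_subset_closedBall) h1
  have hdc : DiffContOnCl ℂ φ (Metric.ball 0 (σ ^ 2)) :=
    DifferentiableOn.diffContOnCl (hd.mono Metric.closure_ball_subset_closedBall)
  have hinv : σ⁻¹ < 1 := inv_lt_one_of_one_lt₀ hσ
  have hgeo : HasSum (fun j : ℕ => B * (σ ^ T)⁻¹ * σ⁻¹ ^ j) (B * (σ ^ T)⁻¹ * (1 - σ⁻¹)⁻¹) :=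
    (hasSum_geometric_of_lt_one (inv_nonneg.2 hσ0.le) hinv).mul_left _
  rw [← hs]
  refine tsum_of_norm_bounded hgeo fun j => ?_
  rw [sub_zero, one_pow, one_smul, norm_smul, norm_inv, Complex.norm_natCast]
  by_cases hj : j < T
  · rw [hT j hj, norm_zero, mul_zero]
    positivity
  · rw [not_lt] at hj
    have h2 := Complex.norm_iteratedDeriv_le_of_forall_mem_sphere_norm_le j hρ hdc hb
    have h3 : (0 : ℝ) < j.factorial := by exact_mod_cast j.factorial_pos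
    have h4 : (j.factorial : ℝ)⁻¹ * ‖iteratedDeriv j φ 0‖ ≤ B / (σ ^ 2) ^ j := by
      rw [inv_mul_le_iff₀ h3, ← mul_div_assoc]
      exact h2
    refine h4.trans ?_
    have h5 : (σ ^ 2) ^ j = σ ^ j * σ ^ j := by rw [← pow_mul, two_mul, pow_add]
    have h6 : σ ^ T ≤ σ ^ j := pow_le_pow_right₀ hσ.le hj
    have h7 : 0 < σ ^ T := by positivity
    have h8 : (σ ^ j)⁻¹ ≤ (σ ^ T)⁻¹ := inv_anti₀ h7 h6
    rw [h5, div_eq_mul_inv, mul_inv, inv_pow, ← mul_assoc]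
    exact mul_le_mul_of_nonneg_right (mul_le_mul_of_nonneg_left h8 hB) (by positivity)

theorem pt_line (w : Fin n → ℂ) (z : ℂ) : base n + z • vec w = pt (z • w) := by
  ext i
  refine Fin.lastCases ?_ (fun i => ?_) i
  · simp [base, gr_vec_last]
  · simp [base, gr_vec_castSucc, Fin.castSucc_ne_last]

theorem pt_line_one (w : Fin n → ℂ) : base n + vec w = pt w := by
  have := pt_line w 1
  rwa [one_smul, one_smul] at this

/-- The height on a ball of the slice. -/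
theorem height_pt {T : ℝ} {y : Vec n → ℝ} (h : Ht Γ T y) (g : SUGroup n) {w : Fin n → ℂ} {δ : ℝ}
    (hδ : 0 < δ) (hw : ∑ i, ‖w i‖ ^ 2 ≤ 1 - δ) :
    act g (pt w) ∈ Cone n ∧ δ ≤ -q (act g (pt w)) ∧
      y (act g (pt w)) ≤ 4 / δ * y (act g (base n)) := by
  have hq : q (act g (pt w)) = ∑ i, ‖w i‖ ^ 2 - 1 := by rw [q_act, q_pt]
  have hC : pt w ∈ Cone n := by
    change q (pt w) < 0
    rw [q_pt]
    linarith
  refine ⟨act_mem g hC, by rw [hq]; linarith, ?_⟩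
  obtain ⟨x, c, hc, he⟩ := exists_act_eq hC
  have h1 : q (pt w) = -‖c‖ ^ 2 := by
    rw [he, q_smul, q_orbit]
    ring
  have h2 : ‖c‖ * ch x = 1 := by
    have h3 := congrFun he (Fin.last n)
    rw [pt_last, Pi.smul_apply, act_base_apply, smul_eq_mul] at h3
    rw [ch, ← norm_mul, ← h3, norm_one]
  have h3 : δ ≤ ‖c‖ ^ 2 := by
    rw [q_pt] at h1
    linarith
  have h4 : ch x ^ 2 ≤ 1 / δ := by
    rw [le_div_iff₀ hδ]
    have h5 : ‖c‖ ^ 2 * ch x ^ 2 = 1 := by rw [← mul_pow, h2, one_pow]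
    have h6 : 0 ≤ ch x ^ 2 := sq_nonneg _
    nlinarith
  have h5 : wt x ^ 2 ≤ 4 / δ := by
    have h6 := pow_le_pow_left₀ (by linarith [one_le_wt x]) (wt_le x) 2
    calc wt x ^ 2 ≤ (2 * ch x) ^ 2 := h6
      _ = 4 * ch x ^ 2 := by ring
      _ ≤ 4 * (1 / δ) := by linarith
      _ = 4 / δ := by ring
  have h6 := h.harn g x
  rw [act_mul] at h6
  have h7 : y (act g (pt w)) = y (act g (act x (base n))) := by
    rw [he, act_smul, h.hom c hc _ (act_mem g (orbit_mem x))]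
  rw [h7]
  exact h6.trans (mul_le_mul_of_nonneg_right h5 (by linarith [h.one_le _ (orbit_mem g)]))

theorem zc_sum (x : SUGroup n) : ∑ i, ‖zc x i‖ ^ 2 = 1 - (ch x ^ 2)⁻¹ := by
  have h1 : q (act x (base n)) = -1 := q_orbit x
  rw [act_base_eq, q_smul, q_pt] at h1
  have h2 : 0 < ch x ^ 2 := by
    have := one_le_ch x
    positivity
  change ch x ^ 2 * _ = -1 at h1
  have h3 : ∑ i, ‖zc x i‖ ^ 2 - 1 = -1 / ch x ^ 2 := by
    rw [eq_div_iff h2.ne', mul_comm]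
    exact h1
  rw [neg_div, one_div] at h3
  linarith

/-- A form which vanishes to high order at finitely many points is zero. -/
theorem form_van {T : ℝ} {y : Vec n → ℝ} (h : Ht Γ T y)
    (hn : 2 ≤ n ∨ ∀ v ∈ Cone n, y v ≤ T) : ∃ (S : Finset (SUGroup n)) (C : ℕ),
      ∀ (k : ℕ) (χ : SUGroup n → ℂ) (f : Vec n → ℂ), (∀ γ ∈ Γ, ‖χ γ‖ = 1) → Fm Γ χ k f →
        (∀ g ∈ S, ∀ w : Fin n → ℂ, ∀ j < C * (k + 1),
          iteratedDeriv j (fun z : ℂ => f (act g (base n) + z • act g (vec w))) 0 = 0) →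
        ∀ v ∈ Cone n, f v = 0 := by
  obtain ⟨F, hF, hmax⟩ := exists_max h hn
  have hU : ∀ g ∈ F, {g' : SUGroup n | ch (g⁻¹ * g') < 2} ∈ 𝓝 g := by
    intro g _
    have hc : Continuous fun g' : SUGroup n => ch (g⁻¹ * g') :=
      continuous_ch.comp (continuous_const.mul continuous_id)
    refine hc.continuousAt.eventually_lt continuousAt_const ?_
    show ch (g⁻¹ * g) < 2
    rw [inv_mul_cancel, ch_one]
    norm_num
  obtain ⟨S, -, hS⟩ := hF.elim_nhds_subcover _ hU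
  -- the height on `S`
  obtain ⟨Y, hY1, hY⟩ : ∃ Y : ℝ, 1 ≤ Y ∧ ∀ g ∈ S, y (act g (base n)) ≤ Y := by
    refine ⟨1 + ∑ g ∈ S, y (act g (base n)), ?_, fun g hg => ?_⟩
    · have : 0 ≤ ∑ g ∈ S, y (act g (base n)) :=
        Finset.sum_nonneg fun g _ => by linarith [h.one_le _ (orbit_mem g)]
      linarith
    · have := Finset.single_le_sum (f := fun g => y (act g (base n)))
        (fun g _ => by linarith [h.one_le _ (orbit_mem g)]) hg
      linarith
  obtain ⟨δ, hδ⟩ : ∃ δ : ℝ, δ = 2 / 25 := ⟨_, rfl⟩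
  have hδ0 : 0 < δ := by norm_num [hδ]
  obtain ⟨κ, hκ⟩ : ∃ κ : ℝ, κ = δ / (4 / δ * Y) := ⟨_, rfl⟩
  have hκ0 : 0 < κ := by
    rw [hκ]
    positivity
  have hκ1 : κ ≤ 1 := by
    rw [hκ, div_le_one (by positivity)]
    have h4 : (4 : ℝ) / δ = 50 := by norm_num [hδ]
    rw [h4]
    linarith
  obtain ⟨σ, hσ⟩ : ∃ σ : ℝ, σ = 21 / 20 := ⟨_, rfl⟩
  have hσ1 : 1 < σ := by norm_num [hσ]
  obtain ⟨C, hC⟩ : ∃ C : ℕ, 442 / κ ≤ (σ ^ 2) ^ C := by
    obtain ⟨C, hC⟩ := pow_unbounded_of_one_lt (442 / κ) (show 1 < σ ^ 2 by norm_num [hσ])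
    exact ⟨C, hC.le⟩
  refine ⟨S, C, fun k χ f hχ hf hvan => ?_⟩
  obtain ⟨g₀, hg₀, hle⟩ := hmax k χ f hχ hf
  set M := nf y k f (act g₀ (base n)) with hM
  have hM0 : 0 ≤ M := nf_nonneg h k f (orbit_mem g₀)
  obtain ⟨g, hgS, hgx⟩ := Set.mem_iUnion₂.1 (hS hg₀)
  set x := g⁻¹ * g₀ with hx
  have hchx : ch x < 2 := hgx
  set w := zc x with hw
  have hws : ∑ i, ‖w i‖ ^ 2 ≤ 3 / 4 := by
    rw [zc_sum]
    have h1 := one_le_ch x
    have h2 : (4 : ℝ)⁻¹ ≤ (ch x ^ 2)⁻¹ := by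
      refine inv_anti₀ (by positivity) ?_
      nlinarith
    linarith
  set φ : ℂ → ℂ := fun z => f (act g (base n) + z • act g (vec w)) with hφ
  have hline : ∀ z : ℂ, act g (base n) + z • act g (vec w) = act g (pt (z • w)) := by
    intro z
    rw [← pt_line, act_add, act_smul]
  have hzw : ∀ z : ℂ, ‖z‖ ≤ σ ^ 2 → ∑ i, ‖(z • w) i‖ ^ 2 ≤ 1 - δ := by
    intro z hz
    have h1 : ∑ i, ‖(z • w) i‖ ^ 2 = ‖z‖ ^ 2 * ∑ i, ‖w i‖ ^ 2 := by
      rw [Finset.mul_sum]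
      refine Finset.sum_congr rfl fun i _ => ?_
      rw [Pi.smul_apply, smul_eq_mul, norm_mul, mul_pow]
    have h2 : ‖z‖ ^ 2 ≤ (σ ^ 2) ^ 2 := pow_le_pow_left₀ (norm_nonneg z) hz 2
    have h3 : 0 ≤ ∑ i, ‖w i‖ ^ 2 := Finset.sum_nonneg fun i _ => sq_nonneg _
    rw [h1]
    calc ‖z‖ ^ 2 * ∑ i, ‖w i‖ ^ 2 ≤ (σ ^ 2) ^ 2 * (3 / 4) := mul_le_mul h2 hws h3 (by positivity)
      _ ≤ 1 - δ := by norm_num [hσ, hδ]
  have hmem : ∀ z : ℂ, ‖z‖ ≤ σ ^ 2 → act g (base n) + z • act g (vec w) ∈ Cone n := by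
    intro z hz
    rw [hline]
    exact (height_pt h g hδ0 (hzw z hz)).1
  have hκk : 0 < κ ^ k := pow_pos hκ0 k
  set B := Real.sqrt (M / κ ^ k) with hB
  have hB2 : B ^ 2 = M / κ ^ k := Real.sq_sqrt (div_nonneg hM0 hκk.le)
  have hB0 : 0 ≤ B := Real.sqrt_nonneg _
  have hbound : ∀ z ∈ Metric.sphere (0 : ℂ) (σ ^ 2), ‖φ z‖ ≤ B := by
    intro z hz
    rw [mem_sphere_zero_iff_norm] at hz
    have h1 := hle _ (hmem z hz.le)
    obtain ⟨h2, h3, h4⟩ := height_pt h g hδ0 (hzw z hz.le)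
    rw [← hline] at h2 h3 h4
    have h5 := h.one_le _ h2
    have h6 : κ ≤ -q (act g (base n) + z • act g (vec w)) /
        y (act g (base n) + z • act g (vec w)) := by
      rw [hκ]
      refine div_le_div₀ (by linarith) h3 (by linarith) (h4.trans ?_)
      exact mul_le_mul_of_nonneg_left (hY g hgS) (by positivity)
    have h7 : κ ^ k ≤ (-q (act g (base n) + z • act g (vec w)) /
        y (act g (base n) + z • act g (vec w))) ^ k := pow_le_pow_left₀ hκ0.le h6 k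
    have h8 : ‖φ z‖ ^ 2 * κ ^ k ≤ M :=
      (mul_le_mul_of_nonneg_left h7 (sq_nonneg _)).trans h1
    rw [← le_div_iff₀ hκk, ← hB2] at h8
    exact le_of_sq_le_sq h8 hB0
  have hS1 := schwarz_one hσ1 (C * (k + 1)) (hf.line fun z hz => hmem z (by
    rwa [mem_closedBall_zero_iff] at hz)) hB0 hbound (fun j hj => hvan g hgS w j hj)
  have hM1 : M ≤ ‖φ 1‖ ^ 2 := by
    have h1 : act g₀ (base n) = x.toMatrix (Fin.last n) (Fin.last n) • act g (pt w) := by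
      rw [← act_smul, ← act_base_eq, ← act_mul, hx, mul_inv_cancel_left]
    have h2 : pt w ∈ Cone n := by
      change q (pt w) < 0
      rw [q_pt]
      linarith
    have h3 := act_mem g h2
    rw [hM, h1, nf_smul h hf (toMatrix_last_ne_zero x) h3]
    have h4 : φ 1 = f (act g (pt w)) := by
      rw [hφ]
      simp only
      rw [hline, one_smul]
    rw [nf, h4]
    have h5 := h.one_le _ h3
    have h6 : -q (act g (pt w)) ≤ 1 := by
      rw [q_act, q_pt]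
      have : 0 ≤ ∑ i, ‖w i‖ ^ 2 := Finset.sum_nonneg fun i _ => sq_nonneg _
      linarith
    have h7 : 0 ≤ -q (act g (pt w)) := by
      have : q (act g (pt w)) < 0 := h3
      linarith
    have h8 : (-q (act g (pt w)) / y (act g (pt w))) ^ k ≤ 1 := by
      refine pow_le_one₀ (div_nonneg h7 (by linarith)) ?_
      rw [div_le_one (by linarith)]
      linarith
    exact mul_le_of_le_one_right (sq_nonneg _) h8
  have hM2 : M ≤ M * (441 / (κ ^ k * (σ ^ 2) ^ (C * (k + 1)))) := by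
    have h1 := pow_le_pow_left₀ (norm_nonneg _) hS1 2
    refine hM1.trans (h1.trans (le_of_eq ?_))
    have h2 : (1 - σ⁻¹)⁻¹ = 21 := by norm_num [hσ]
    rw [h2, mul_pow, mul_pow, hB2, inv_pow, ← pow_mul, mul_comm (C * (k + 1)) 2, pow_mul]
    field_simp
    ring
  have hlt : 441 / (κ ^ k * (σ ^ 2) ^ (C * (k + 1))) < 1 := by
    have h1 : (442 / κ) ^ (k + 1) ≤ (σ ^ 2) ^ (C * (k + 1)) := by
      rw [pow_mul]
      exact pow_le_pow_left₀ (by positivity) hC _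
    have h2 : 442 ≤ κ ^ k * (442 / κ) ^ (k + 1) := by
      have h3 : κ ^ k * (442 / κ) ^ (k + 1) = 442 * (442 ^ k / κ) := by
        rw [div_pow, pow_succ κ, pow_succ (442 : ℝ)]
        field_simp
      rw [h3]
      have h4 : (1 : ℝ) ≤ 442 ^ k := one_le_pow₀ (by norm_num)
      have h5 : (1 : ℝ) ≤ 442 ^ k / κ := by
        rw [le_div_iff₀ hκ0]
        linarith
      linarith
    rw [div_lt_one (by positivity)]
    have h3 : κ ^ k * (442 / κ) ^ (k + 1) ≤ κ ^ k * (σ ^ 2) ^ (C * (k + 1)) :=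
      mul_le_mul_of_nonneg_left h1 hκk.le
    linarith
  have hMz : M = 0 := by
    by_contra hne
    have hpos : 0 < M := lt_of_le_of_ne hM0 (Ne.symm hne)
    have := mul_lt_mul_of_pos_left hlt hpos
    linarith
  intro v hv
  have h1 := hle v hv
  rw [hMz] at h1
  have h2 : q v < 0 := hv
  have h3 := h.one_le v hv
  have h4 : 0 < (-q v / y v) ^ k := pow_pos (div_pos (by linarith) (by linarith)) k
  have h5 : ‖f v‖ ^ 2 ≤ 0 := by
    by_contra hlt'
    rw [not_le] at hlt'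
    have := mul_pos hlt' h4
    rw [nf] at h1
    linarith
  have h6 : ‖f v‖ = 0 := by
    have := sq_nonneg ‖f v‖
    exact pow_eq_zero_iff two_ne_zero |>.1 (le_antisymm h5 this)
  exact norm_eq_zero.1 h6

end Pool.Agent.Lib.MP_5d4057_al.QB
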