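import Mathlib

/-! Several complex variables: Cauchy's estimate, Weierstrass' theorem, differentiable functions are
smooth and analytic (project DER). -/

set_option autoImplicit false

namespace Pool.Agent.Lib.MP_5d4057_al.QB

open Metric Set Filter Topology

section general

variable {E F : Type*} [NormedAddCommGroup E] [NormedSpace ℂ E] [NormedAddCommGroup F]
  [NormedSpace ℂ F]

/-- Cauchy's estimate for the first derivative. -/
theorem norm_fderiv_le {f : E → F} {x : E} {R M : ℝ} (hR : 0 < R)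
    (hf : DifferentiableOn ℂ f (ball x R)) (hM : ∀ y ∈ ball x R, ‖f y‖ ≤ M) :
    ‖fderiv ℂ f x‖ ≤ M / R := by
  have hM0 : 0 ≤ M := (norm_nonneg _).trans (hM x (mem_ball_self hR))
  refine ContinuousLinearMap.opNorm_le_bound _ (by positivity) fun h => ?_
  rcases eq_or_ne h 0 with rfl | hh
  · simp
  have hh' : 0 < ‖h‖ := norm_pos_iff.mpr hh
  have hR' : 0 < R / ‖h‖ := by positivity
  have hline : ∀ z : ℂ, ‖z‖ < R / ‖h‖ → x + z • h ∈ ball x R := fun z hz => by
    rw [mem_ball_iff_norm, add_sub_cancel_left, norm_smul]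
    rwa [lt_div_iff₀ hh'] at hz
  have hd : ∀ z : ℂ, ‖z‖ < R / ‖h‖ →
      HasDerivAt (fun z : ℂ => f (x + z • h)) (fderiv ℂ f (x + z • h) h) z := fun z hz => by
    have h1 : HasDerivAt (fun z : ℂ => x + z • h) h z := by
      have h2 := ((hasDerivAt_id z).smul_const h).const_add x
      rwa [one_smul] at h2
    exact ((hf.differentiableAt (isOpen_ball.mem_nhds (hline z hz))).hasFDerivAt).comp_hasDerivAt z
      h1
  have key : ∀ r ∈ Ioo 0 (R / ‖h‖), ‖fderiv ℂ f x h‖ * r ≤ M := fun r hr => by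
    have h1 : DiffContOnCl ℂ (fun z : ℂ => f (x + z • h)) (ball 0 r) := by
      refine DifferentiableOn.diffContOnCl fun z hz => ?_
      have h2 : z ∈ closedBall (0 : ℂ) r := closure_ball_subset_closedBall hz
      rw [mem_closedBall, dist_zero_right] at h2
      exact (hd z (h2.trans_lt hr.2)).differentiableAt.differentiableWithinAt
    have h3 := Complex.norm_deriv_le_of_forall_mem_sphere_norm_le hr.1 h1 (C := M) fun z hz => by
      rw [mem_sphere, dist_zero_right] at hz
      exact hM _ (hline z (by rw [hz]; exact hr.2))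
    have h4 := hd 0 (by rw [norm_zero]; exact hR')
    rw [h4.deriv, zero_smul, add_zero, le_div_iff₀ hr.1] at h3
    exact h3
  have h5 : R / ‖h‖ ∈ closure (Ioo 0 (R / ‖h‖)) := by
    rw [closure_Ioo hR'.ne]
    exact right_mem_Icc.mpr hR'.le
  have h6 : ‖fderiv ℂ f x h‖ * (R / ‖h‖) ≤ M := by
    have h7 : IsClosed {r : ℝ | ‖fderiv ℂ f x h‖ * r ≤ M} :=
      isClosed_le (by fun_prop) continuous_const
    exact h7.closure_subset_iff.mpr (fun r hr => key r hr) h5
  rw [div_mul_eq_mul_div, le_div_iff₀ hR]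
  have h8 : ‖fderiv ℂ f x h‖ * R = ‖fderiv ℂ f x h‖ * (R / ‖h‖) * ‖h‖ := by
    field_simp
  rw [h8]
  exact mul_le_mul_of_nonneg_right h6 hh'.le

/-- Cauchy's estimate for the second order remainder. -/
theorem norm_sub_sub_le {f : E → F} {x y : E} {R M : ℝ} (hR : 0 < R)
    (hf : DifferentiableOn ℂ f (ball x R)) (hM : ∀ y ∈ ball x R, ‖f y‖ ≤ M) (hy : y ∈ ball x R) :
    ‖f y - f x - fderiv ℂ f x (y - x)‖ ≤ 3 * M * (‖y - x‖ / R) ^ 2 := by
  have hM0 : 0 ≤ M := (norm_nonneg _).trans (hM x (mem_ball_self hR))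
  have h1 := norm_fderiv_le hR hf hM
  obtain ⟨φ, hφ⟩ : ∃ φ : E → F, φ = fun z => f z - fderiv ℂ f x (z - x) := ⟨_, rfl⟩
  have hφx : φ x = f x := by rw [hφ]; simp
  have hφd : DifferentiableOn ℂ φ (ball x R) := by
    rw [hφ]
    refine hf.sub ?_
    exact ((fderiv ℂ f x).differentiable.comp (differentiable_id.sub_const x)).differentiableOn
  have hmaps : MapsTo φ (ball x R) (closedBall (φ x) (3 * M)) := fun z hz => by
    rw [mem_closedBall_iff_norm, hφx, hφ]
    have h2 : ‖fderiv ℂ f x (z - x)‖ ≤ M := by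
      refine ((fderiv ℂ f x).le_opNorm _).trans ?_
      rw [mem_ball_iff_norm] at hz
      calc ‖fderiv ℂ f x‖ * ‖z - x‖ ≤ M / R * R :=
            mul_le_mul h1 hz.le (norm_nonneg _) (by positivity)
        _ = M := by field_simp
    calc ‖f z - fderiv ℂ f x (z - x) - f x‖ ≤ ‖f z - fderiv ℂ f x (z - x)‖ + ‖f x‖ :=
          norm_sub_le _ _
      _ ≤ ‖f z‖ + ‖fderiv ℂ f x (z - x)‖ + ‖f x‖ := by gcongr; exact norm_sub_le _ _
      _ ≤ M + M + M := by gcongr <;> [exact hM z hz; exact hM x (mem_ball_self hR)]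
      _ = 3 * M := by ring
  have ho : (fun z => φ z - φ x) =o[𝓝 x] (fun w ↦ ‖w - x‖ ^ 1) := by
    have h3 := ((hf.differentiableAt (isOpen_ball.mem_nhds (mem_ball_self hR))).hasFDerivAt).isLittleO
    have h4 : (fun z => φ z - φ x) = fun z => f z - f x - fderiv ℂ f x (z - x) := by
      funext z
      rw [hφx, hφ]
      exact sub_right_comm _ _ _
    rw [h4]
    simpa only [pow_one] using h3.norm_right
  have h5 := Complex.dist_le_mul_div_pow_of_mapsTo_ball_of_isLittleO hφd hmaps ho hy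
  rw [dist_eq_norm, hφx, dist_eq_norm] at h5
  have h6 : φ y - f x = f y - f x - fderiv ℂ f x (y - x) := by
    rw [hφ]
    exact sub_right_comm _ _ _
  rwa [h6] at h5

/-- Weierstrass' theorem on a ball. -/
theorem hasFDerivAt_of_unif [CompleteSpace F] {ι : Type*} {l : Filter ι} [NeBot l]
    {f : ι → E → F} {g : E → F} {x : E} {R : ℝ}
    (hf : ∀ᶠ i in l, DifferentiableOn ℂ (f i) (ball x R))
    (h : TendstoUniformlyOn f g l (ball x R)) {r : ℝ} (hr : r < R) :
    ∃ g' : E → E →L[ℂ] F, TendstoUniformlyOn (fun i => fderiv ℂ (f i)) g' l (ball x r) ∧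
      ∀ y ∈ ball x r, HasFDerivAt g (g' y) y := by
  have hsub : ∀ y ∈ ball x r, ball y (R - r) ⊆ ball x R := fun y hy z hz => by
    rw [mem_ball] at hy hz ⊢
    calc dist z x ≤ dist z y + dist y x := dist_triangle _ _ _
      _ < R - r + r := add_lt_add hz hy
      _ = R := by ring
  have hRr : 0 < R - r := sub_pos.mpr hr
  have h1 : UniformCauchySeqOn (fun i => fderiv ℂ (f i)) l (ball x r) := by
    intro u hu
    obtain ⟨ε, hε, hεu⟩ := Metric.mem_uniformity_dist.mp hu
    have h2 := h.uniformCauchySeqOn _ (Metric.dist_mem_uniformity (ε := ε * (R - r) / 2)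
      (by positivity))
    have h3 : ∀ᶠ m : ι × ι in l ×ˢ l, DifferentiableOn ℂ (f m.1) (ball x R) ∧
        DifferentiableOn ℂ (f m.2) (ball x R) :=
      (tendsto_fst.eventually hf).and (tendsto_snd.eventually hf)
    filter_upwards [h2, h3] with m hm hd y hy
    apply hεu
    have h4 : ‖fderiv ℂ (fun z => f m.1 z - f m.2 z) y‖ ≤ ε * (R - r) / 2 / (R - r) := by
      refine norm_fderiv_le hRr ((hd.1.sub hd.2).mono (hsub y hy)) fun z hz => ?_
      have h5 : dist (f m.1 z) (f m.2 z) < ε * (R - r) / 2 := hm z (hsub y hy hz)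
      rw [dist_eq_norm] at h5
      exact h5.le
    have hyR : y ∈ ball x R := hsub y hy (mem_ball_self hRr)
    have h6 : fderiv ℂ (fun z => f m.1 z - f m.2 z) y = fderiv ℂ (f m.1) y - fderiv ℂ (f m.2) y :=
      fderiv_fun_sub (hd.1.differentiableAt (isOpen_ball.mem_nhds hyR))
        (hd.2.differentiableAt (isOpen_ball.mem_nhds hyR))
    rw [h6] at h4
    rw [dist_eq_norm]
    refine h4.trans_lt ?_
    rw [mul_div_right_comm, mul_div_assoc, div_self hRr.ne', mul_one]
    exact half_lt_self hε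
  have h7 : ∀ y : E, ∃ a : E →L[ℂ] F, y ∈ ball x r → Tendsto (fun i => fderiv ℂ (f i) y) l (𝓝 a) :=
    fun y => by
      by_cases hy : y ∈ ball x r
      · obtain ⟨a, ha⟩ := cauchy_map_iff_exists_tendsto.mp (h1.cauchy_map hy)
        exact ⟨a, fun _ => ha⟩
      · exact ⟨0, fun h => absurd h hy⟩
  choose g' hg' using h7
  have h8 : TendstoUniformlyOn (fun i => fderiv ℂ (f i)) g' l (ball x r) :=
    h1.tendstoUniformlyOn_of_tendsto fun y hy => hg' y hy
  refine ⟨g', h8, fun y hy => ?_⟩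
  have hyR : y ∈ ball x R := hsub y hy (mem_ball_self hRr)
  have h9 : ∀ᶠ n : ι × E in l ×ˢ 𝓝 y, HasFDerivAt (f n.1) (fderiv ℂ (f n.1) n.2) n.2 := by
    have ha : ∀ᶠ n : ι × E in l ×ˢ 𝓝 y, DifferentiableOn ℂ (f n.1) (ball x R) ∧ n.2 ∈ ball x R :=
      (tendsto_fst.eventually hf).and (tendsto_snd.eventually (isOpen_ball.mem_nhds hyR))
    filter_upwards [ha] with n hn
    exact (hn.1.differentiableAt (isOpen_ball.mem_nhds hn.2)).hasFDerivAt
  refine hasFDerivAt_of_tendstoUniformlyOnFilter (f := f) (f' := fun i => fderiv ℂ (f i)) (l := l)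
    ?_ h9 ?_
  · have hb := tendstoUniformlyOn_iff_tendstoUniformlyOnFilter.mp h8
    exact hb.mono_right (le_principal_iff.mpr (isOpen_ball.mem_nhds hy))
  · filter_upwards [isOpen_ball.mem_nhds hyR] with z hz
    exact h.tendsto_at hz

/-- Weierstrass' theorem. -/
theorem differentiableOn_of_tendsto [CompleteSpace F] {ι : Type*} {l : Filter ι} [NeBot l]
    {f : ι → E → F} {g : E → F} {U : Set E}
    (hf : ∀ᶠ i in l, DifferentiableOn ℂ (f i) U)
    (h : ∀ x ∈ U, ∃ R > 0, ball x R ⊆ U ∧ TendstoUniformlyOn f g l (ball x R)) :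
    DifferentiableOn ℂ g U ∧
      ∀ x ∈ U, ∃ R > 0, ball x R ⊆ U ∧
        TendstoUniformlyOn (fun i => fderiv ℂ (f i)) (fderiv ℂ g) l (ball x R) := by
  have key : ∀ x ∈ U, ∃ R > 0, ball x R ⊆ U ∧ DifferentiableAt ℂ g x ∧
      TendstoUniformlyOn (fun i => fderiv ℂ (f i)) (fderiv ℂ g) l (ball x R) := fun x hx => by
    obtain ⟨R, hR, hRU, hu⟩ := h x hx
    obtain ⟨g', h1, h2⟩ := hasFDerivAt_of_unif (hf.mono fun i hi => hi.mono hRU) hu
      (half_lt_self hR)
    refine ⟨R / 2, half_pos hR, (ball_subset_ball (half_le_self hR.le)).trans hRU,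
      (h2 x (mem_ball_self (half_pos hR))).differentiableAt, ?_⟩
    exact h1.congr_right fun y hy => (h2 y hy).fderiv.symm
  refine ⟨fun x hx => ?_, fun x hx => ?_⟩
  · obtain ⟨R, _, _, h1, _⟩ := key x hx
    exact h1.differentiableWithinAt
  · obtain ⟨R, hR, hRU, _, h1⟩ := key x hx
    exact ⟨R, hR, hRU, h1⟩

/-- The directional derivatives of a complex differentiable function are differentiable. -/
theorem diffAt_fderiv_apply [CompleteSpace F] {U : Set E} (hU : IsOpen U) {f : E → F}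
    (hf : DifferentiableOn ℂ f U) (h : E) {x : E} (hx : x ∈ U) :
    DifferentiableAt ℂ (fun y => fderiv ℂ f y h) x := by
  obtain ⟨R, hR, hRU, M, hM⟩ : ∃ R > 0, ball x (2 * R) ⊆ U ∧ ∃ M, ∀ y ∈ ball x (2 * R), ‖f y‖ ≤ M := by
    have h1 : ContinuousAt f x := (hf.differentiableAt (hU.mem_nhds hx)).continuousAt
    have h2 : ∀ᶠ y in 𝓝 x, ‖f y‖ < ‖f x‖ + 1 :=
      h1.norm.eventually_lt_const (lt_add_one _)
    obtain ⟨R, hR, hRs⟩ := Metric.mem_nhds_iff.mp (inter_mem (hU.mem_nhds hx) h2)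
    refine ⟨R / 2, half_pos hR, ?_, ‖f x‖ + 1, ?_⟩
    · rw [mul_div_cancel₀ R two_ne_zero]
      exact fun y hy => (hRs hy).1
    · rw [mul_div_cancel₀ R two_ne_zero]
      exact fun y hy => (hRs hy).2.le
  have hM0 : 0 ≤ M := (norm_nonneg _).trans (hM x (mem_ball_self (by positivity)))
  have hin : ∀ y ∈ ball x R, ball y R ⊆ ball x (2 * R) := fun y hy z hz => by
    rw [mem_ball] at hy hz ⊢
    calc dist z x ≤ dist z y + dist y x := dist_triangle _ _ _
      _ < R + R := add_lt_add hz hy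
      _ = 2 * R := by ring
  have hsmall : ∀ᶠ t : ℂ in 𝓝[≠] 0, ‖t • h‖ < R := by
    have h1 : Tendsto (fun t : ℂ => ‖t • h‖) (𝓝 0) (𝓝 0) := by
      have h2 : Continuous (fun t : ℂ => ‖t • h‖) := by fun_prop
      have h3 := h2.tendsto 0
      rwa [zero_smul, norm_zero] at h3
    exact (h1.mono_left nhdsWithin_le_nhds).eventually (gt_mem_nhds hR)
  obtain ⟨D, hD⟩ : ∃ D : ℂ → E → F, D = fun t y => t⁻¹ • (f (y + t • h) - f y) := ⟨_, rfl⟩
  have hDd : ∀ᶠ t in 𝓝[≠] (0 : ℂ), DifferentiableOn ℂ (D t) (ball x R) := by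
    filter_upwards [hsmall] with t ht
    rw [hD]
    refine DifferentiableOn.const_smul (DifferentiableOn.sub (fun y hy => ?_) ?_) _
    · have h1 : y + t • h ∈ U := hRU (hin y hy (by
        rw [mem_ball_iff_norm, add_sub_cancel_left]; exact ht))
      exact ((hf.differentiableAt (hU.mem_nhds h1)).comp y
        (differentiableAt_id.add_const _)).differentiableWithinAt
    · exact hf.mono ((ball_subset_ball (by linarith)).trans hRU)
  have hDu : TendstoUniformlyOn D (fun y => fderiv ℂ f y h) (𝓝[≠] 0) (ball x R) := by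
    rw [Metric.tendstoUniformlyOn_iff]
    intro ε hε
    have h1 : Tendsto (fun t : ℂ => 3 * M * ‖t‖ * (‖h‖ / R) ^ 2) (𝓝 0) (𝓝 0) := by
      have h2 : Continuous (fun t : ℂ => 3 * M * ‖t‖ * (‖h‖ / R) ^ 2) := by fun_prop
      have h3 := h2.tendsto 0
      rwa [norm_zero, mul_zero, zero_mul] at h3
    filter_upwards [hsmall, (h1.mono_left nhdsWithin_le_nhds).eventually (gt_mem_nhds hε),
      self_mem_nhdsWithin] with t ht htε ht0 y hy
    have ht0' : t ≠ 0 := ht0
    have htp : 0 < ‖t‖ := norm_pos_iff.mpr ht0'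
    have h4 : y + t • h ∈ ball y R := by
      rw [mem_ball_iff_norm, add_sub_cancel_left]
      exact ht
    have h5 := norm_sub_sub_le (f := f) (M := M) hR (hf.mono ((hin y hy).trans hRU))
      (fun z hz => hM z (hin y hy hz)) h4
    rw [add_sub_cancel_left] at h5
    have h6 : fderiv ℂ f y h - D t y = -(t⁻¹ • (f (y + t • h) - f y - fderiv ℂ f y (t • h))) := by
      rw [hD, map_smul, smul_sub (t⁻¹) (f (y + t • h) - f y), smul_smul, inv_mul_cancel₀ ht0',
        one_smul]
      abel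
    rw [dist_eq_norm, h6, norm_neg, norm_smul, norm_inv]
    refine lt_of_le_of_lt ?_ htε
    rw [norm_smul] at h5
    calc ‖t‖⁻¹ * ‖f (y + t • h) - f y - fderiv ℂ f y (t • h)‖
        ≤ ‖t‖⁻¹ * (3 * M * (‖t‖ * ‖h‖ / R) ^ 2) := by gcongr
      _ = 3 * M * ‖t‖ * (‖h‖ / R) ^ 2 := by
        field_simp
  obtain ⟨g', _, h2⟩ := hasFDerivAt_of_unif hDd hDu (half_lt_self hR)
  exact (h2 x (mem_ball_self (half_pos hR))).differentiableAt

end general

section finite

variable {E F : Type*} [NormedAddCommGroup E] [NormedSpace ℂ E] [FiniteDimensional ℂ E]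
  [NormedAddCommGroup F] [NormedSpace ℂ F] [CompleteSpace F] {U : Set E} {f : E → F}

theorem contDiffOn_nat (hU : IsOpen U) (hf : DifferentiableOn ℂ f U) (N : ℕ) :
    ContDiffOn ℂ N f U := by
  induction N generalizing f with
  | zero => exact contDiffOn_zero.mpr hf.continuousOn
  | succ N ih =>
    have h1 : ((N + 1 : ℕ) : WithTop ℕ∞) = (N : WithTop ℕ∞) + 1 := by push_cast; rfl
    rw [h1, contDiffOn_succ_iff_fderiv_apply hU.uniqueDiffOn]
    refine ⟨hf, fun h => absurd h (by simp), fun y => ?_⟩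
    refine (ih (f := fun x => fderiv ℂ f x y) fun x hx =>
      (diffAt_fderiv_apply hU hf y hx).differentiableWithinAt).congr fun x hx => ?_
    rw [fderivWithin_of_isOpen hU hx]

theorem contDiffOn_top (hU : IsOpen U) (hf : DifferentiableOn ℂ f U) :
    ContDiffOn ℂ (⊤ : ℕ∞) f U :=
  _root_.contDiffOn_infty.mpr fun N => contDiffOn_nat hU hf N

/-- The derivative of a complex differentiable function is differentiable. -/
theorem diff_fderiv (hU : IsOpen U) (hf : DifferentiableOn ℂ f U) :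
    DifferentiableOn ℂ (fderiv ℂ f) U := by
  have h1 := (contDiffOn_nat hU hf 2).fderiv_of_isOpen hU (m := 1) (by norm_num)
  exact h1.differentiableOn (by norm_num)

/-- Symmetry of the second derivative. -/
theorem fderiv_fderiv_symm (hU : IsOpen U) (hf : DifferentiableOn ℂ f U) {x : E} (hx : x ∈ U)
    (v w : E) : fderiv ℂ (fderiv ℂ f) x v w = fderiv ℂ (fderiv ℂ f) x w v := by
  refine second_derivative_symmetric_of_eventually (𝕜 := ℂ) (f := f) (f' := fderiv ℂ f) ?_
    ((diff_fderiv hU hf).differentiableAt (hU.mem_nhds hx)).hasFDerivAt v w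
  filter_upwards [hU.mem_nhds hx] with y hy
  exact (hf.differentiableAt (hU.mem_nhds hy)).hasFDerivAt

/-- Cauchy's estimate for the iterated derivatives. -/
theorem norm_iteratedFDeriv_le (hU : IsOpen U) (hf : DifferentiableOn ℂ f U) {M s : ℝ} (hs : 0 < s)
    (hM : ∀ y ∈ U, ‖f y‖ ≤ M) (k : ℕ) {x : E} (hx : ball x (k * s) ⊆ U) (hxU : x ∈ U) :
    ‖iteratedFDeriv ℂ k f x‖ ≤ M / s ^ k := by
  induction k generalizing x with
  | zero =>
    rw [norm_iteratedFDeriv_zero, pow_zero, div_one]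
    exact hM x hxU
  | succ k ih =>
    have h1 : ∀ y ∈ ball x s, ball y (k * s) ⊆ U ∧ y ∈ U := fun y hy => by
      rw [mem_ball] at hy
      refine ⟨fun z hz => hx ?_, hx ?_⟩
      · rw [mem_ball] at hz ⊢
        push_cast
        calc dist z x ≤ dist z y + dist y x := dist_triangle _ _ _
          _ < k * s + s := add_lt_add hz hy
          _ = (k + 1) * s := by ring
      · rw [mem_ball]
        refine hy.trans_le ?_
        push_cast
        nlinarith [Nat.cast_nonneg (α := ℝ) k]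
    have h2 : DifferentiableOn ℂ (iteratedFDeriv ℂ k f) (ball x s) := fun y hy => by
      have h3 : ContDiffAt ℂ ((k + 1 : ℕ) : WithTop ℕ∞) f y :=
        (contDiffOn_nat hU hf (k + 1)).contDiffAt (hU.mem_nhds (h1 y hy).2)
      exact (h3.differentiableAt_iteratedFDeriv (by exact_mod_cast Nat.lt_succ_self k)).differentiableWithinAt
    have h4 := norm_fderiv_le hs h2 (M := M / s ^ k) fun y hy => ih (h1 y hy).1 (h1 y hy).2
    rw [norm_fderiv_iteratedFDeriv] at h4
    refine h4.trans (le_of_eq ?_)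
    rw [pow_succ, div_div]

/-- The iterated derivatives along a complex line. -/
theorem iteratedDeriv_line (hU : IsOpen U) (hf : DifferentiableOn ℂ f U) (x y : E) (k : ℕ) {z : ℂ}
    (hz : x + z • y ∈ U) :
    iteratedDeriv k (fun z : ℂ => f (x + z • y)) z = iteratedFDeriv ℂ k f (x + z • y) fun _ => y := by
  induction k generalizing z with
  | zero => rw [iteratedDeriv_zero, iteratedFDeriv_zero_apply]
  | succ k ih =>
    have hV : IsOpen {z : ℂ | x + z • y ∈ U} := hU.preimage (by fun_prop)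
    have h1 : iteratedDeriv k (fun z : ℂ => f (x + z • y)) =ᶠ[𝓝 z]
        fun z => iteratedFDeriv ℂ k f (x + z • y) fun _ => y := by
      filter_upwards [hV.mem_nhds hz] with w hw
      exact ih hw
    rw [iteratedDeriv_succ, h1.deriv_eq]
    have h2 : ContDiffAt ℂ ((k + 1 : ℕ) : WithTop ℕ∞) f (x + z • y) :=
      (contDiffOn_nat hU hf (k + 1)).contDiffAt (hU.mem_nhds hz)
    have h3 : DifferentiableAt ℂ (iteratedFDeriv ℂ k f) (x + z • y) :=
      h2.differentiableAt_iteratedFDeriv (by exact_mod_cast Nat.lt_succ_self k)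
    have h4 : HasDerivAt (fun z : ℂ => x + z • y) y z := by
      have h5 := ((hasDerivAt_id z).smul_const y).const_add x
      rwa [one_smul] at h5
    have h6 := h3.hasFDerivAt.comp_hasDerivAt z h4
    have h7 := ((ContinuousMultilinearMap.apply ℂ (fun _ : Fin k => E) F
      (fun _ => y)).hasFDerivAt).comp_hasDerivAt z h6
    rw [iteratedFDeriv_succ_apply_left]
    exact h7.deriv

/-- Complex differentiable functions are analytic. -/
theorem analyticOnNhd (hU : IsOpen U) (hf : DifferentiableOn ℂ f U) : AnalyticOnNhd ℂ f U := by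
  intro x hx
  obtain ⟨R, hR, hRU, M, hM⟩ : ∃ R > 0, ball x R ⊆ U ∧ ∃ M, ∀ y ∈ ball x R, ‖f y‖ ≤ M := by
    have h1 : ContinuousAt f x := (hf.differentiableAt (hU.mem_nhds hx)).continuousAt
    have h2 : ∀ᶠ y in 𝓝 x, ‖f y‖ < ‖f x‖ + 1 :=
      h1.norm.eventually_lt_const (lt_add_one _)
    obtain ⟨R, hR, hRs⟩ := Metric.mem_nhds_iff.mp (inter_mem (hU.mem_nhds hx) h2)
    exact ⟨R, hR, fun y hy => (hRs hy).1, ‖f x‖ + 1, fun y hy => (hRs hy).2.le⟩
  have hM0 : 0 ≤ M := (norm_nonneg _).trans (hM x (mem_ball_self hR))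
  obtain ⟨p, hp⟩ : ∃ p : FormalMultilinearSeries ℂ E F,
      p = fun k => ((k.factorial : ℂ))⁻¹ • iteratedFDeriv ℂ k f x := ⟨_, rfl⟩
  have hbound : ∀ k : ℕ, ‖p k‖ * ((Real.toNNReal (R / 3) : NNReal) : ℝ) ^ k ≤ M := fun k => by
    rw [Real.coe_toNNReal _ (by positivity), hp]
    change ‖((k.factorial : ℂ))⁻¹ • iteratedFDeriv ℂ k f x‖ * (R / 3) ^ k ≤ M
    rcases Nat.eq_zero_or_pos k with rfl | hk
    · rw [Nat.factorial_zero, Nat.cast_one, inv_one, one_smul, norm_iteratedFDeriv_zero, pow_zero,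
        mul_one]
      exact hM x (mem_ball_self hR)
    have hk' : (0 : ℝ) < k := by exact_mod_cast hk
    have h1 := norm_iteratedFDeriv_le (isOpen_ball (x := x) (ε := R)) (hf.mono hRU)
      (s := R / k) (by positivity) hM k (x := x) (by rw [mul_div_cancel₀ R hk'.ne'])
      (mem_ball_self hR)
    rw [norm_smul, norm_inv, Complex.norm_natCast]
    have h2 : (0 : ℝ) < k.factorial := by exact_mod_cast Nat.factorial_pos k
    have h3 : (k : ℝ) ^ k / k.factorial ≤ Real.exp k := Real.pow_div_factorial_le_exp _ hk'.le k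
    have h4 : Real.exp k ≤ 3 ^ k := by
      rw [← mul_one (k : ℝ), Real.exp_nat_mul]
      exact pow_le_pow_left₀ (Real.exp_nonneg 1) Real.exp_one_lt_three.le k
    calc (k.factorial : ℝ)⁻¹ * ‖iteratedFDeriv ℂ k f x‖ * (R / 3) ^ k
        ≤ (k.factorial : ℝ)⁻¹ * (M / (R / k) ^ k) * (R / 3) ^ k := by gcongr
      _ = M * ((k : ℝ) ^ k / k.factorial) / 3 ^ k := by
        rw [div_pow, div_pow]
        field_simp
      _ ≤ M * 3 ^ k / 3 ^ k := by
        gcongr
        exact h3.trans h4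
      _ = M := by field_simp
  have hrad : ENNReal.ofReal (R / 3) ≤ p.radius := p.le_radius_of_bound M hbound
  refine ⟨p, ENNReal.ofReal (R / 3), hrad, ENNReal.ofReal_pos.mpr (by positivity), ?_⟩
  intro y hy
  have hy' : ‖y‖ < R / 3 := by
    have h1 := hy
    rw [Metric.eball_ofReal, mem_ball_zero_iff] at h1
    exact h1
  have hline : ∀ z ∈ ball (0 : ℂ) 2, x + z • y ∈ ball x R := fun z hz => by
    rw [mem_ball_zero_iff] at hz
    rw [mem_ball_iff_norm, add_sub_cancel_left, norm_smul]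
    nlinarith [norm_nonneg y, norm_nonneg z]
  have hd : DifferentiableOn ℂ (fun z : ℂ => f (x + z • y)) (ball 0 2) := fun z hz => by
    have h1 : DifferentiableAt ℂ f (x + z • y) :=
      hf.differentiableAt (hU.mem_nhds (hRU (hline z hz)))
    have h2 : DifferentiableAt ℂ (fun z : ℂ => x + z • y) z := by fun_prop
    exact (h1.comp z h2).differentiableWithinAt
  have h1 := Complex.hasSum_taylorSeries_on_ball hd (z := 1) (by
    rw [mem_ball_zero_iff, norm_one]; exact one_lt_two)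
  simp only [sub_zero, one_pow, one_smul] at h1
  have h2 : (fun k => p k fun _ => y) = fun k : ℕ => ((k.factorial : ℂ))⁻¹ •
      iteratedDeriv k (fun z : ℂ => f (x + z • y)) 0 := by
    funext k
    rw [iteratedDeriv_line hU hf x y k (by rw [zero_smul, add_zero]; exact hx), zero_smul, add_zero,
      hp]
    rfl
  rw [h2]
  exact h1

end finite

end Pool.Agent.Lib.MP_5d4057_al.QB
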