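import Pool.Agent.Lib.MP_5d4057_al.QB.FmJ
import Pool.Agent.Lib.MP_5d4057_al.QB.FmV
import Pool.Agent.Lib.MP_5d4057_al.QB.FmD
import Pool.Agent.Lib.MP_5d4057_al.QB.FmB
import Pool.Agent.Lib.MP_5d4057_al.QB.Osg

/-! Any `n + 2` forms are algebraically dependent (project DER, T1b). -/

namespace Pool.Agent.Lib.MP_5d4057_al.QB

open Matrix MeasureTheory Filter Topology Pool.Agent.Lib.MP_5d4057_al
  Pool.Agent.Lib.MP_5d4057_al.Hyb Pool.Agent.Lib.MP_5d4057_al.HM
  Pool.Agent.Lib.MP_5d4057_al.NU Pool.Agent.Lib.MP_5d4057_al.RC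

variable {n : ℕ} {Γ : Subgroup (SUGroup n)}

/-- The linear part of the slice at `g e`. -/
noncomputable def sL (g : SUGroup n) : (Fin n → ℂ) →L[ℂ] Vec n :=
  LinearMap.toContinuousLinearMap
    { toFun := fun w => act g (HM.vec w)
      map_add' := fun a b => by
        have h : HM.vec (a + b) = HM.vec a + HM.vec b := by
          funext i
          refine Fin.lastCases ?_ (fun j => ?_) i
          · rw [Pi.add_apply, gr_vec_last, gr_vec_last, gr_vec_last, add_zero]
          · rw [Pi.add_apply, gr_vec_castSucc, gr_vec_castSucc, gr_vec_castSucc, Pi.add_apply]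
        rw [h, act_add]
      map_smul' := fun c a => by
        have h : HM.vec (c • a) = c • HM.vec a := by
          funext i
          refine Fin.lastCases ?_ (fun j => ?_) i
          · rw [Pi.smul_apply, gr_vec_last, gr_vec_last, smul_zero]
          · rw [Pi.smul_apply, gr_vec_castSucc, gr_vec_castSucc, Pi.smul_apply]
        rw [h, act_smul, RingHom.id_apply] }

theorem sL_apply (g : SUGroup n) (w : Fin n → ℂ) : sL g w = act g (HM.vec w) := rfl

/-- The domain of the slice. -/
def sU (g : SUGroup n) : Set (Fin n → ℂ) := {w | act g (base n) + sL g w ∈ Cone n}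

theorem sU_open (g : SUGroup n) : IsOpen (sU g) := by
  have h : Continuous fun w : Fin n → ℂ => act g (base n) + sL g w :=
    continuous_const.add (sL g).continuous
  exact (isOpen_cone n).preimage h

theorem zero_mem_sU (g : SUGroup n) : (0 : Fin n → ℂ) ∈ sU g := by
  show act g (base n) + sL g 0 ∈ Cone n
  rw [map_zero, add_zero]
  exact orbit_mem g

theorem slice_cd {f : Vec n → ℂ} (hf : DifferentiableOn ℂ f (Cone n)) (g : SUGroup n) (m : ℕ) :
    ContDiffOn ℂ m (fun w => f (act g (base n) + sL g w)) (sU g) := by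
  have h1 : DifferentiableOn ℂ (fun w => f (act g (base n) + sL g w)) (sU g) := by
    refine hf.comp ?_ fun w hw => hw
    exact ((sL g).differentiable.const_add _).differentiableOn
  exact contDiffOn_nat (sU_open g) h1 m

theorem slice_cda {f : Vec n → ℂ} (hf : DifferentiableOn ℂ f (Cone n)) (g : SUGroup n) (m : ℕ) :
    ContDiffAt ℂ m (fun w => f (act g (base n) + sL g w)) 0 :=
  (slice_cd hf g m).contDiffAt ((sU_open g).mem_nhds (zero_mem_sU g))

theorem diff_eval {ι : Type} {F : ι → Vec n → ℂ} (hF : ∀ i, DifferentiableOn ℂ (F i) (Cone n))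
    (P : MvPolynomial ι ℂ) :
    DifferentiableOn ℂ (fun v => MvPolynomial.eval (fun i => F i v) P) (Cone n) := by
  induction P using MvPolynomial.induction_on with
  | C a => simpa only [MvPolynomial.eval_C] using differentiableOn_const a
  | add p q hp hq => exact (hp.add hq).congr fun v _ => map_add _ _ _
  | mul_X p i hp =>
    refine (hp.mul (hF i)).congr fun v _ => ?_
    rw [map_mul, MvPolynomial.eval_X, Pi.mul_apply]

/-- The coefficient map. -/
noncomputable def jT {N : ℕ} {ι : Type} (S : Finset (SUGroup n)) (F : ι → Vec n → ℂ)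
    (hF : ∀ i, DifferentiableOn ℂ (F i) (Cone n)) :
    MvPolynomial ι ℂ →ₗ[ℂ] (S × (Fin n → Fin N) → ℂ) where
  toFun P x := jet x.2 fun w => MvPolynomial.eval (fun i => F i (act x.1.1 (base n) + sL x.1.1 w)) P
  map_add' P Q := by
    funext x
    simp only [map_add, Pi.add_apply]
    exact jet_add x.2 (slice_cda (diff_eval hF P) _) (slice_cda (diff_eval hF Q) _)
  map_smul' c P := by
    funext x
    simp only [MvPolynomial.smul_eval, Pi.smul_apply, smul_eq_mul, RingHom.id_apply]
    exact jet_smul x.2 (slice_cda (diff_eval hF P) _) c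

/-- Any `n + 2` forms of the same weight and multiplier satisfy a homogeneous relation. -/
theorem dep {T : ℝ} {y : Vec n → ℝ} (h : Ht Γ T y) (hn : 2 ≤ n ∨ ∀ v ∈ Cone n, y v ≤ T) {k : ℕ}
    {χ : SUGroup n → ℂ} (hχ : ∀ γ ∈ Γ, ‖χ γ‖ = 1) (F : Fin (n + 2) → Vec n → ℂ)
    (hF : ∀ i, Fm Γ χ k (F i)) :
    ∃ D : ℕ, ∃ P : MvPolynomial (Fin (n + 2)) ℂ, P ≠ 0 ∧ P.IsHomogeneous D ∧
      ∀ v ∈ Cone n, MvPolynomial.eval (fun i => F i v) P = 0 := by
  obtain ⟨S, C, hvan⟩ := form_van h hn
  obtain ⟨E, hE⟩ : ∃ E, E = C * k * (n + 1) + C := ⟨_, rfl⟩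
  obtain ⟨d, hd⟩ : ∃ d, d = S.card * E ^ n := ⟨_, rfl⟩
  obtain ⟨N, hN⟩ : ∃ N, N = C * (k * ((n + 1) * d) + 1) := ⟨_, rfl⟩
  have hcard : Fintype.card (S × (Fin n → Fin N)) < (d + 1) ^ (n + 1) := by
    rw [Fintype.card_prod, Fintype.card_coe, Fintype.card_fun, Fintype.card_fin, Fintype.card_fin]
    have h1 : N ≤ E * (d + 1) := by
      have h2 : E * (d + 1) = N + (C * k * (n + 1) + C * d) := by
        rw [hN, hE]
        ring
      omega
    calc S.card * N ^ n ≤ S.card * (E * (d + 1)) ^ n :=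
          Nat.mul_le_mul_left _ (Nat.pow_le_pow_left h1 n)
      _ = (S.card * E ^ n) * (d + 1) ^ n := by rw [mul_pow]; ring
      _ = d * (d + 1) ^ n := by rw [← hd]
      _ < (d + 1) * (d + 1) ^ n := Nat.mul_lt_mul_of_pos_right (Nat.lt_succ_self d) (by positivity)
      _ = (d + 1) ^ (n + 1) := by rw [pow_succ]; ring
  obtain ⟨P, hP0, hPh, hPT⟩ := exists_homog (m := n + 1) (d := d)
    (jT (N := N) S F fun i => (hF i).diff) hcard
  refine ⟨(n + 1) * d, P, hP0, hPh, ?_⟩
  refine hvan (k * ((n + 1) * d)) (fun γ => χ γ ^ ((n + 1) * d)) _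
    (fun γ hγ => by rw [norm_pow, hχ γ hγ, one_pow]) (Fm.eval hF hPh) ?_
  intro g hg w j hj
  rw [← hN] at hj
  have h1 := iter_zero (sU_open g) (zero_mem_sU g)
    (slice_cd (diff_eval (fun i => (hF i).diff) P) g j) hj
    (fun α => congrFun hPT (⟨g, hg⟩, α)) w
  have h2 : (fun z : ℂ => MvPolynomial.eval (fun i => F i (act g (base n) + sL g (z • w))) P) =
      fun z : ℂ => MvPolynomial.eval (fun i => F i (act g (base n) + z • act g (HM.vec w))) P := by
    funext z
    rw [map_smul, sL_apply]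
  rw [h2] at h1
  exact h1

/-- The polynomial in the powers of the variables. -/
theorem exists_powers {m : ℕ} (e : Fin m → ℕ) (he : ∀ i, 0 < e i) {P : MvPolynomial (Fin m) ℂ}
    (hP : P ≠ 0) : MvPolynomial.bind₁ (fun i => (MvPolynomial.X i : MvPolynomial (Fin m) ℂ) ^ e i) P ≠
      0 := by
  obtain ⟨d, hd⟩ := MvPolynomial.exists_coeff_ne_zero hP
  let φ : (Fin m →₀ ℕ) → (Fin m →₀ ℕ) := fun d => Finsupp.equivFunOnFinite.symm fun i => e i * d i
  have hφ : Function.Injective φ := by
    intro a b hab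
    ext i
    have h1 := congrArg (fun f : Fin m →₀ ℕ => f i) hab
    exact Nat.eq_of_mul_eq_mul_left (he i) h1
  have h1 : MvPolynomial.bind₁ (fun i => (MvPolynomial.X i : MvPolynomial (Fin m) ℂ) ^ e i) P =
      ∑ b ∈ P.support, MvPolynomial.monomial (φ b) (P.coeff b) := by
    conv_lhs => rw [P.as_sum]
    rw [map_sum]
    refine Finset.sum_congr rfl fun b _ => ?_
    rw [MvPolynomial.bind₁_monomial, MvPolynomial.monomial_eq (s := φ b),
      Finsupp.prod_fintype _ _ (fun i => pow_zero _)]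
    congr 1
    rw [Finset.prod_subset (Finset.subset_univ b.support) (fun i _ hi => by
      rw [Finsupp.notMem_support_iff.1 hi, pow_zero])]
    refine Finset.prod_congr rfl fun i _ => ?_
    rw [← pow_mul]
    rfl
  intro h0
  apply hd
  have h2 := congrArg (MvPolynomial.coeff (φ d)) h0
  rw [h1, MvPolynomial.coeff_sum, MvPolynomial.coeff_zero] at h2
  simp only [MvPolynomial.coeff_monomial] at h2
  rw [Finset.sum_eq_single d (fun b _ hb => if_neg fun h3 => hb (hφ h3)) (fun h3 => by
    rw [if_pos rfl, MvPolynomial.notMem_support_iff.1 h3]), if_pos rfl] at h2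
  exact h2

/-- Any `n + 2` invariant forms of positive weights satisfy a weighted homogeneous relation. -/
theorem depW {T : ℝ} {y : Vec n → ℝ} (h : Ht Γ T y) (hn : 2 ≤ n ∨ ∀ v ∈ Cone n, y v ≤ T)
    {k : Fin (n + 2) → ℕ} (hk : ∀ i, 0 < k i) (F : Fin (n + 2) → Vec n → ℂ)
    (hF : ∀ i, Fm Γ (fun _ => 1) (k i) (F i)) :
    ∃ D : ℕ, ∃ P : MvPolynomial (Fin (n + 2)) ℂ, P ≠ 0 ∧ P.IsWeightedHomogeneous k D ∧
      ∀ v ∈ Cone n, MvPolynomial.eval (fun i => F i v) P = 0 := by
  set W := ∏ i, k i with hW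
  have hdvd : ∀ i, k i ∣ W := fun i => Finset.dvd_prod_of_mem k (Finset.mem_univ i)
  have hW0 : 0 < W := Finset.prod_pos fun i _ => hk i
  set e : Fin (n + 2) → ℕ := fun i => W / k i with he
  have hke : ∀ i, k i * e i = W := fun i => Nat.mul_div_cancel' (hdvd i)
  have he0 : ∀ i, 0 < e i := fun i => Nat.div_pos (Nat.le_of_dvd hW0 (hdvd i)) (hk i)
  obtain ⟨D, P, hP0, hPh, hPz⟩ := dep h hn (k := W) (χ := fun _ => 1)
    (fun γ _ => norm_one) (fun i v => F i v ^ e i) fun i =>
      ((hF i).pow_one' (e i)).congr_wt (hke i).symm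
  refine ⟨D * W, MvPolynomial.bind₁ (fun i => MvPolynomial.X i ^ e i) P,
    exists_powers e he0 hP0, ?_, fun v hv => ?_⟩
  · have h1 : MvPolynomial.bind₁ (fun i => (MvPolynomial.X i : MvPolynomial (Fin (n + 2)) ℂ) ^ e i)
        P = ∑ b ∈ P.support, MvPolynomial.C (P.coeff b) *
          ∏ i ∈ b.support, (MvPolynomial.X i ^ e i) ^ b i := by
      conv_lhs => rw [P.as_sum]
      rw [map_sum]
      exact Finset.sum_congr rfl fun b _ => MvPolynomial.bind₁_monomial _ _ _
    rw [h1]
    refine MvPolynomial.IsWeightedHomogeneous.sum _ _ _ fun b hb => ?_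
    have h2 : ∑ i ∈ b.support, b i = D := by
      by_contra hne
      exact MvPolynomial.mem_support_iff.mp hb (hPh.coeff_eq_zero hne)
    have h3 : ∀ i ∈ b.support, (((MvPolynomial.X i : MvPolynomial (Fin (n + 2)) ℂ) ^ e i) ^
        b i).IsWeightedHomogeneous k (b i * W) := by
      intro i _
      have h4 := ((MvPolynomial.isWeightedHomogeneous_X ℂ k i).pow (e i)).pow (b i)
      have h5 : b i • e i • k i = b i * W := by
        rw [smul_eq_mul, smul_eq_mul, mul_comm (e i), hke]
      rw [h5] at h4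
      exact h4
    have h6 := MvPolynomial.IsWeightedHomogeneous.prod b.support _ _ h3
    have h7 := (MvPolynomial.isWeightedHomogeneous_C k (P.coeff b)).mul h6
    rw [← Finset.sum_mul, h2, zero_add] at h7
    exact h7
  · have h1 := hPz v hv
    rw [MvPolynomial.eval, MvPolynomial.eval₂Hom_bind₁]
    have h2 : (fun i => (MvPolynomial.eval₂Hom (RingHom.id ℂ) fun i => F i v)
        (MvPolynomial.X i ^ e i)) = fun i => F i v ^ e i := by
      funext i
      rw [map_pow]
      congr 1
      exact MvPolynomial.eval₂Hom_X' _ _ _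
    rw [h2]
    exact h1

end Pool.Agent.Lib.MP_5d4057_al.QB
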