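import Pool.Agent.Lib.MP_5d4057_al.QB.PsA
import Pool.Agent.Lib.MP_5d4057_al.HM.Kak

/-! Frames of automorphic forms (project DER, part T1a): at every point there are `n+1` forms of
one weight with independent differentials. -/

set_option autoImplicit false

namespace Pool.Agent.Lib.MP_5d4057_al.QB

open Matrix MeasureTheory Filter Topology Pool.Agent.Lib.MP_5d4057_al
  Pool.Agent.Lib.MP_5d4057_al.Hyb Pool.Agent.Lib.MP_5d4057_al.HM
  Pool.Agent.Lib.MP_5d4057_al.NU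

variable {n : ℕ} {Γ : Subgroup (SUGroup n)}

/-- a uniform gap -/
theorem exists_gap (h : DiscreteTopology Γ) (hT : TF Γ) (g : SUGroup n) :
    ∃ r : ℝ, 0 ≤ r ∧ r < 1 ∧ ∀ γ : Γ, γ ≠ 1 → (ch (g * (γ : SUGroup n) * g⁻¹))⁻¹ ≤ r := by
  obtain ⟨M, hM⟩ := card_le h (wt g * 2)
  have hfin : {γ : Γ | ch (g * (γ : SUGroup n) * g⁻¹) ≤ 2}.Finite := by
    refine (hM g⁻¹).1.subset fun γ (hγ : ch (g * (γ : SUGroup n) * g⁻¹) ≤ 2) => ?_
    have h3 := ch_mul_le_wt g⁻¹ (g * (γ : SUGroup n) * g⁻¹)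
    rw [wt_inv] at h3
    have e : g⁻¹ * (g * (γ : SUGroup n) * g⁻¹) = (γ : SUGroup n) * g⁻¹ := by group
    rw [e] at h3
    have p3 : 0 < wt g := lt_of_lt_of_le one_pos (one_le_wt g)
    exact h3.trans (mul_le_mul_of_nonneg_left hγ p3.le)
  have hlt : ∀ γ : Γ, γ ≠ 1 → (ch (g * (γ : SUGroup n) * g⁻¹))⁻¹ < 1 := by
    intro γ hγ
    refine inv_lt_one_of_one_lt₀ (lt_of_le_of_ne (one_le_ch _) fun h1 => hγ ?_)
    obtain ⟨c, -, hc⟩ := (ch_eq_one_iff _).1 h1.symm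
    have h2 : act (γ : SUGroup n) (act g⁻¹ (base n)) = c • act g⁻¹ (base n) := by
      rw [← act_smul, ← hc, ← act_mul, ← act_mul]
      congr 1
      group
    exact Subtype.ext (hT γ γ.2 _ (act_mem g⁻¹ (base_mem n)) c h2)
  have h1 : ∀ᶠ r : ℝ in 𝓝[<] 1, ∀ γ ∈ {γ : Γ | ch (g * (γ : SUGroup n) * g⁻¹) ≤ 2} \ {1},
      (ch (g * (γ : SUGroup n) * g⁻¹))⁻¹ ≤ r := by
    refine (Filter.eventually_all_finite (hfin.subset Set.sdiff_subset)).2 fun γ hγ => ?_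
    exact eventually_nhdsWithin_of_eventually_nhds
      ((lt_mem_nhds (hlt γ fun h => hγ.2 h)).mono fun r hr => le_of_lt hr)
  have h2 : ∀ᶠ r : ℝ in 𝓝[<] 1, 1 / 2 < r :=
    eventually_nhdsWithin_of_eventually_nhds (lt_mem_nhds (by norm_num))
  have h3 : ∀ᶠ r : ℝ in 𝓝[<] 1, r < 1 := self_mem_nhdsWithin
  obtain ⟨r, hr1, hr2, hr3⟩ := (h1.and (h2.and h3)).exists
  refine ⟨r, by linarith, hr3, fun γ hγ => ?_⟩
  by_cases h4 : ch (g * (γ : SUGroup n) * g⁻¹) ≤ 2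
  · exact hr1 γ ⟨h4, hγ⟩
  · push Not at h4
    have p1 := ch_pos (g * (γ : SUGroup n) * g⁻¹)
    have : (ch (g * (γ : SUGroup n) * g⁻¹))⁻¹ ≤ 1 / 2 := by
      rw [one_div]
      exact inv_anti₀ (by norm_num) h4.le
    linarith

theorem tendsto_aux {r : ℝ} (h0 : 0 ≤ r) (h1 : r < 1) (a C : ℝ) :
    Tendsto (fun m : ℕ => C * (((m : ℝ) + a) * r ^ m)) atTop (𝓝 0) := by
  have t1 : Tendsto (fun m : ℕ => (m : ℝ) * r ^ m) atTop (𝓝 0) :=
    tendsto_self_mul_const_pow_of_lt_one h0 h1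
  have t2 : Tendsto (fun m : ℕ => a * r ^ m) atTop (𝓝 0) := by
    have := (tendsto_pow_atTop_nhds_zero_of_lt_one h0 h1).const_mul a
    rwa [mul_zero] at this
  have t3 := (t1.add t2).const_mul C
  rw [add_zero, mul_zero] at t3
  refine t3.congr fun m => ?_
  ring

/-- the main term -/
theorem dphi_base (k : ℕ) (j : Fin (n + 1)) {c : ℂ} (hc : c ≠ 0) (η : Vec n) :
    c ^ (k + 1) * dphi k j (c • base n) η =
      if j = Fin.last n then -(k : ℂ) * η j else η j := by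
  rw [dphi_apply]
  split_ifs with hj
  · subst hj
    simp only [Pi.smul_apply, base, Pi.single_eq_same, smul_eq_mul, mul_one]
    field_simp
    ring
  · simp only [Pi.smul_apply, base, Pi.single_eq_same, smul_eq_mul, mul_one,
      Pi.single_eq_of_ne hj, mul_zero, zero_mul, sub_zero]
    field_simp

theorem norm_le_dphi_base {k : ℕ} (hk : 1 ≤ k) (j : Fin (n + 1)) {c : ℂ} (hc : c ≠ 0)
    (η : Vec n) : ‖η j‖ ≤ ‖c ^ (k + 1) * dphi k j (c • base n) η‖ := by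
  rw [dphi_base k j hc]
  split_ifs
  · rw [norm_mul, norm_neg, Complex.norm_natCast]
    have : (1 : ℝ) ≤ k := by exact_mod_cast hk
    nlinarith [norm_nonneg (η j)]
  · exact le_rfl

/-- The derivative of the Poincaré series is close to its main term. -/
theorem dps_close (h : DiscreteTopology Γ) (hT : TF Γ) {v₀ : Vec n} {g : SUGroup n} {c : ℂ}
    (hc : c ≠ 0) (hg : act g v₀ = c • base n) :
    ∃ k₀ : ℕ, 2 * (n + 1) ≤ k₀ ∧ ∀ k ≥ k₀, ∃ e : ℝ, e < 1 ∧ ∀ (j : Fin (n + 1)) (ξ : Vec n),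
      ‖c ^ (k + 1) * (∑' γ : Γ, dpsT k j (g * (γ : SUGroup n)) v₀) ξ -
        c ^ (k + 1) * dphi k j (c • base n) (act g ξ)‖ ≤ e * ‖act g ξ‖ := by
  obtain ⟨r, hr0, hr1, hr⟩ := exists_gap h hT g
  obtain ⟨K, hK⟩ : ∃ K : ℕ, K = 2 * (n + 1) := ⟨_, rfl⟩
  have hS := summable_k h g g⁻¹ hK.symm.le
  obtain ⟨S, hSd⟩ : ∃ S : ℝ, S = ∑' γ : Γ, (ch (g * (γ : SUGroup n) * g⁻¹))⁻¹ ^ K := ⟨_, rfl⟩
  have h1 := (tendsto_aux hr0 hr1 (K + 2) (2 * (n + 1) * S)).eventually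
    (gt_mem_nhds (show (0 : ℝ) < 1 by norm_num))
  obtain ⟨m₀, hm₀⟩ := Filter.eventually_atTop.1 h1
  have hv₀ : v₀ ∈ Cone n := by
    have e : v₀ = act g⁻¹ (c • base n) := by rw [← hg, ← act_mul, inv_mul_cancel, act_one]
    rw [e]
    exact act_mem _ (smul_mem_cone hc (base_mem n))
  refine ⟨K + m₀, by omega, fun k hk => ?_⟩
  obtain ⟨m, rfl⟩ : ∃ m, k = K + m := ⟨k - K, by omega⟩
  have hm := hm₀ m (by omega)
  refine ⟨_, hm, fun j ξ => ?_⟩
  obtain ⟨η, hη⟩ : ∃ η, η = act g ξ := ⟨_, rfl⟩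
  rw [← hη]
  -- the terms
  obtain ⟨t, ht⟩ : ∃ t : Γ → ℂ, t = fun γ : Γ => c ^ (K + m + 1) *
      dphi (K + m) j (c • act (g * (γ : SUGroup n) * g⁻¹) (base n))
        (act (g * (γ : SUGroup n) * g⁻¹) η) := ⟨_, rfl⟩
  have e1 : ∀ γ : Γ, c ^ (K + m + 1) * dpsT (K + m) j (g * (γ : SUGroup n)) v₀ ξ = t γ := by
    intro γ
    rw [ht]
    show c ^ (K + m + 1) * dphi (K + m) j (act (g * (γ : SUGroup n)) v₀)
      (act (g * (γ : SUGroup n)) ξ) = _
    have e2 : act (g * (γ : SUGroup n)) v₀ = c • act (g * (γ : SUGroup n) * g⁻¹) (base n) := by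
      rw [← act_smul, ← hg, ← act_mul]
      congr 1
      group
    have e3 : act (g * (γ : SUGroup n)) ξ = act (g * (γ : SUGroup n) * g⁻¹) η := by
      rw [hη, ← act_mul]
      congr 1
      group
    rw [e2, e3]
  have hs := summable_dpsT h g (k := K + m) (by omega) j hv₀
  have hs1 : Summable fun γ : Γ => dpsT (K + m) j (g * (γ : SUGroup n)) v₀ ξ :=
    (hs.hasSum.mapL (ContinuousLinearMap.apply ℂ ℂ ξ)).summable
  have e4 : (∑' γ : Γ, dpsT (K + m) j (g * (γ : SUGroup n)) v₀) ξ =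
      ∑' γ : Γ, dpsT (K + m) j (g * (γ : SUGroup n)) v₀ ξ :=
    (hs.hasSum.mapL (ContinuousLinearMap.apply ℂ ℂ ξ)).tsum_eq.symm
  have hst : Summable t := (hs1.mul_left (c ^ (K + m + 1))).congr e1
  have e5 : c ^ (K + m + 1) * (∑' γ : Γ, dpsT (K + m) j (g * (γ : SUGroup n)) v₀) ξ =
      ∑' γ : Γ, t γ := by
    rw [e4, ← tsum_mul_left]
    exact tsum_congr e1
  have e6 : t 1 = c ^ (K + m + 1) * dphi (K + m) j (c • base n) η := by
    rw [ht]
    simp only [Subgroup.coe_one, mul_one, mul_inv_cancel, act_one]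
  classical
  rw [e5, hst.tsum_eq_add_tsum_ite 1, e6, add_sub_cancel_left]
  refine tsum_of_norm_bounded (g := fun γ : Γ => 2 * ((n : ℝ) + 1) * (((m : ℝ) + (K + 2)) * r ^ m) *
    ‖η‖ * (ch (g * (γ : SUGroup n) * g⁻¹))⁻¹ ^ K) ?_ fun γ => ?_
  · have h5 := hS.hasSum.mul_left (2 * ((n : ℝ) + 1) * (((m : ℝ) + (K + 2)) * r ^ m) * ‖η‖)
    rw [← hSd] at h5
    have e8 : 2 * (↑n + 1) * S * ((↑m + (↑K + 2)) * r ^ m) * ‖η‖ =
        2 * ((n : ℝ) + 1) * (((m : ℝ) + (K + 2)) * r ^ m) * ‖η‖ * S := by ring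
    rw [e8]
    exact h5
  · have p1 := ch_pos (g * (γ : SUGroup n) * g⁻¹)
    split_ifs with hγ
    · rw [norm_zero]
      positivity
    · rw [ht, norm_mul, norm_pow]
      have h6 := norm_dphi_le (K + m) j
        (smul_mem_cone hc (orbit_mem (g * (γ : SUGroup n) * g⁻¹)))
        (act (g * (γ : SUGroup n) * g⁻¹) η)
      have e7 : ‖(c • act (g * (γ : SUGroup n) * g⁻¹) (base n)) (Fin.last n)‖ =
          ‖c‖ * ch (g * (γ : SUGroup n) * g⁻¹) := by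
        rw [Pi.smul_apply, smul_eq_mul, norm_mul, ch, act, base, mulVec_single_one]
        rfl
      rw [e7] at h6
      have h7 := Gr.norm_act_le (g * (γ : SUGroup n) * g⁻¹) η
      have p2 : 0 < ‖c‖ := norm_pos_iff.2 hc
      have h8 : (ch (g * (γ : SUGroup n) * g⁻¹))⁻¹ ^ m ≤ r ^ m :=
        pow_le_pow_left₀ (by positivity) (hr γ hγ) _
      calc ‖c‖ ^ (K + m + 1) * ‖dphi (K + m) j (c • act (g * (γ : SUGroup n) * g⁻¹) (base n))
              (act (g * (γ : SUGroup n) * g⁻¹) η)‖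
          ≤ ‖c‖ ^ (K + m + 1) * ((((K + m : ℕ) : ℝ) + 2) *
              ((‖c‖ * ch (g * (γ : SUGroup n) * g⁻¹)) ^ (K + m + 1))⁻¹ *
              (2 * (n + 1) * ch (g * (γ : SUGroup n) * g⁻¹) * ‖η‖)) :=
            mul_le_mul_of_nonneg_left (h6.trans (mul_le_mul_of_nonneg_left h7 (by positivity)))
              (by positivity)
        _ = 2 * ((n : ℝ) + 1) * ((m : ℝ) + (K + 2)) * ‖η‖ *
              ((ch (g * (γ : SUGroup n) * g⁻¹))⁻¹ ^ m *
                (ch (g * (γ : SUGroup n) * g⁻¹))⁻¹ ^ K) := by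
            rw [mul_pow, ← pow_add, inv_pow, add_comm m K, pow_succ (ch _)]
            push_cast
            field_simp
            ring
        _ ≤ 2 * ((n : ℝ) + 1) * ((m : ℝ) + (K + 2)) * ‖η‖ *
              (r ^ m * (ch (g * (γ : SUGroup n) * g⁻¹))⁻¹ ^ K) :=
            mul_le_mul_of_nonneg_left (mul_le_mul_of_nonneg_right h8 (by positivity))
              (by positivity)
        _ = _ := by ring

/-- (T1a) Frames: at every point there are `n + 1` forms of one weight (every large weight) with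
linearly independent differentials. -/
theorem frame (h : DiscreteTopology Γ) (hT : TF Γ) {v₀ : Vec n} (h0 : v₀ ∈ Cone n) :
    ∃ k₀ : ℕ, ∀ k ≥ k₀, ∃ F : Fin (n + 1) → Vec n → ℂ, (∀ i, Fm Γ 1 k (F i)) ∧
      (Matrix.of fun i j => fderiv ℂ (F i) v₀ (Pi.single j 1)).det ≠ 0 := by
  obtain ⟨g₁, c, hc, hv⟩ := exists_act_eq h0
  have hg : act g₁⁻¹ v₀ = c • base n := by
    rw [hv, act_smul, ← act_mul, inv_mul_cancel, act_one]
  obtain ⟨k₀, hk₀, hk⟩ := dps_close h hT hc hg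
  refine ⟨k₀, fun k hkk => ⟨ps Γ k g₁⁻¹, fun i => fm_ps h g₁⁻¹ (by omega) i, fun hdet => ?_⟩⟩
  obtain ⟨e, he1, he⟩ := hk k hkk
  obtain ⟨ξ, hξ0, hξ⟩ := Matrix.exists_mulVec_eq_zero_iff.2 hdet
  have hfd : ∀ i, fderiv ℂ (ps Γ k g₁⁻¹ i) v₀ =
      ∑' γ : Γ, dpsT k i (g₁⁻¹ * (γ : SUGroup n)) v₀ := fun i =>
    (hasFDerivAt_ps h g₁⁻¹ (by omega) i h0).fderiv
  have h1 : ∀ i, (∑' γ : Γ, dpsT k i (g₁⁻¹ * (γ : SUGroup n)) v₀) ξ = 0 := by
    intro i
    have h2 := congrFun hξ i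
    rw [mulVec, dotProduct, Pi.zero_apply] at h2
    simp only [Matrix.of_apply] at h2
    rw [← hfd i, ← h2]
    conv_lhs => rw [← Finset.univ_sum_single ξ, map_sum]
    refine Finset.sum_congr rfl fun j _ => ?_
    have e3 : (Pi.single j (ξ j) : Vec n) = ξ j • Pi.single j (1 : ℂ) := by
      rw [← Pi.single_smul, smul_eq_mul, mul_one]
    rw [e3, map_smul, smul_eq_mul, mul_comm]
  have h2 : ∀ i, ‖act g₁⁻¹ ξ i‖ ≤ e * ‖act g₁⁻¹ ξ‖ := by
    intro i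
    have h3 := he i ξ
    rw [h1 i, mul_zero, zero_sub, norm_neg] at h3
    exact (norm_le_dphi_base (by omega) i hc _).trans h3
  have h3 : 0 ≤ e * ‖act g₁⁻¹ ξ‖ := (norm_nonneg _).trans (h2 (Fin.last n))
  have h4 : ‖act g₁⁻¹ ξ‖ ≤ e * ‖act g₁⁻¹ ξ‖ := (pi_norm_le_iff_of_nonneg h3).2 h2
  have h5 : act g₁⁻¹ ξ = 0 := by
    by_contra h6
    have h7 : 0 < ‖act g₁⁻¹ ξ‖ := norm_pos_iff.2 h6
    nlinarith
  apply hξ0
  have h6 : act g₁ (act g₁⁻¹ ξ) = ξ := by rw [← act_mul, mul_inv_cancel, act_one]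
  rw [← h6, h5, act, mulVec_zero]

/-- Euler: a homogeneous function of nonzero degree with vanishing value has the point in the
kernel of its derivative. -/
private theorem ps_euler {χ : SUGroup n → ℂ} {k : ℕ} {f : Vec n → ℂ} (hf : Fm Γ χ k f) {v : Vec n}
    (hv : v ∈ Cone n) : fderiv ℂ f v v = -(k : ℂ) * f v := by
  have hd : DifferentiableAt ℂ f v := (hf.diff v hv).differentiableAt ((isOpen_cone n).mem_nhds hv)
  have h1 : HasDerivAt (fun c : ℂ => f (c • v)) (fderiv ℂ f v v) 1 := by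
    have h2 : HasDerivAt (fun c : ℂ => c • v) ((1 : ℂ) • v) 1 := (hasDerivAt_id (1 : ℂ)).smul_const v
    have h3 : HasFDerivAt f (fderiv ℂ f v) ((1 : ℂ) • v) := by
      rw [one_smul]
      exact hd.hasFDerivAt
    have h4 := h3.comp_hasDerivAt (1 : ℂ) h2
    rwa [one_smul] at h4
  have h2 : HasDerivAt (fun c : ℂ => (c ^ k)⁻¹ * f v) (-(k : ℂ) * f v) 1 := by
    have h3 := (((hasDerivAt_pow k (1 : ℂ)).inv (by simp)).mul_const (f v))
    simpa using h3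
  have h3 : (fun c : ℂ => f (c • v)) =ᶠ[𝓝 1] fun c : ℂ => (c ^ k)⁻¹ * f v := by
    filter_upwards [isOpen_ne.mem_nhds (one_ne_zero (α := ℂ))] with c hc
    exact hf.hom c hc v hv
  exact (h1.congr_of_eventuallyEq h3.symm).unique h2

/-- (T1a) Nonvanishing. -/
theorem exists_fm_ne (h : DiscreteTopology Γ) (hT : TF Γ) {v₀ : Vec n} (h0 : v₀ ∈ Cone n) :
    ∃ k₀ : ℕ, ∀ k ≥ k₀, ∃ f : Vec n → ℂ, Fm Γ 1 k f ∧ f v₀ ≠ 0 := by
  obtain ⟨k₀, hk₀⟩ := frame h hT h0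
  refine ⟨k₀, fun k hk => ?_⟩
  obtain ⟨F, hF, hdet⟩ := hk₀ k hk
  by_contra hcon
  push Not at hcon
  apply hdet
  refine Matrix.exists_mulVec_eq_zero_iff.1 ⟨v₀, ?_, ?_⟩
  · rintro rfl
    exact last_ne_zero h0 rfl
  · funext i
    rw [mulVec, dotProduct, Pi.zero_apply]
    simp only [Matrix.of_apply]
    have h1 := ps_euler (hF i) h0
    rw [hcon (F i) (hF i), mul_zero] at h1
    rw [← h1]
    conv_rhs => rw [← Finset.univ_sum_single v₀, map_sum]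
    refine Finset.sum_congr rfl fun j _ => ?_
    have e3 : (Pi.single j (v₀ j) : Vec n) = v₀ j • Pi.single j (1 : ℂ) := by
      rw [← Pi.single_smul, smul_eq_mul, mul_one]
    rw [Finset.univ_sum_single v₀, e3, map_smul, smul_eq_mul, mul_comm]

end Pool.Agent.Lib.MP_5d4057_al.QB
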