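import Pool.Agent.Lib.MP_5d4057_al.QB.PsB

/-! Restriction of forms to a complex line (project DER, part T1). -/

set_option autoImplicit false

namespace Pool.Agent.Lib.MP_5d4057_al.QB

open Matrix Filter Topology Pool.Agent.Lib.MP_5d4057_al
  Pool.Agent.Lib.MP_5d4057_al.Hyb Pool.Agent.Lib.MP_5d4057_al.HM
  Pool.Agent.Lib.MP_5d4057_al.NU

variable {n : ℕ} {Γ : Subgroup (SUGroup n)}

/-- the restriction of `f` to the affine line `q + x p` -/
def rst (p q : Vec n) (f : Vec n → ℂ) (x : ℂ) : ℂ := f (x • p + q)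

/-- the disc of the line -/
def dsc (p q : Vec n) : Set ℂ := {x | x • p + q ∈ Cone n}

theorem isOpen_dsc (p q : Vec n) : IsOpen (dsc p q) := by
  have h : Continuous fun x : ℂ => x • p + q := by fun_prop
  exact (isOpen_cone n).preimage h

theorem hasDerivAt_line (p q : Vec n) (x : ℂ) : HasDerivAt (fun x : ℂ => x • p + q) p x := by
  have h := ((hasDerivAt_id x).smul_const p).add_const q
  rwa [one_smul] at h

theorem hasDerivAt_rst {χ : SUGroup n → ℂ} {k : ℕ} {f : Vec n → ℂ} (hf : Fm Γ χ k f)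
    {p q : Vec n} {x : ℂ} (hx : x ∈ dsc p q) :
    HasDerivAt (rst p q f) (fderiv ℂ f (x • p + q) p) x := by
  have hd : DifferentiableAt ℂ f (x • p + q) :=
    (hf.diff _ hx).differentiableAt ((isOpen_cone n).mem_nhds hx)
  exact hd.hasFDerivAt.comp_hasDerivAt x (hasDerivAt_line p q x)

theorem deriv_rst {χ : SUGroup n → ℂ} {k : ℕ} {f : Vec n → ℂ} (hf : Fm Γ χ k f)
    {p q : Vec n} {x : ℂ} (hx : x ∈ dsc p q) :
    deriv (rst p q f) x = fderiv ℂ f (x • p + q) p :=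
  (hasDerivAt_rst hf hx).deriv

theorem diffOn_rst {χ : SUGroup n → ℂ} {k : ℕ} {f : Vec n → ℂ} (hf : Fm Γ χ k f) (p q : Vec n) :
    DifferentiableOn ℂ (rst p q f) (dsc p q) := fun _ hx =>
  (hasDerivAt_rst hf hx).differentiableAt.differentiableWithinAt

/-- the restriction of a form is a form in one variable -/
theorem rst_mo {χ : SUGroup n → ℂ} {k : ℕ} {f : Vec n → ℂ} (hf : Fm Γ χ k f) {p q : Vec n}
    {γ : SUGroup n} (hγ : γ ∈ Γ) {r : Matrix (Fin 2) (Fin 2) ℂ}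
    (hp : act γ p = r 0 0 • p + r 1 0 • q) (hq : act γ q = r 0 1 • p + r 1 1 • q) {x : ℂ}
    (hx : x ∈ dsc p q) (hj : r 1 0 * x + r 1 1 ≠ 0) :
    (r 0 0 * x + r 0 1) / (r 1 0 * x + r 1 1) ∈ dsc p q ∧
      rst p q f ((r 0 0 * x + r 0 1) / (r 1 0 * x + r 1 1)) =
        χ γ * (r 1 0 * x + r 1 1) ^ k * rst p q f x := by
  obtain ⟨j, hjd⟩ : ∃ j, j = r 1 0 * x + r 1 1 := ⟨_, rfl⟩
  rw [← hjd] at hj ⊢
  obtain ⟨z, hz⟩ : ∃ z, z = (r 0 0 * x + r 0 1) / j := ⟨_, rfl⟩
  rw [← hz]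
  have hzj : j * z = r 0 0 * x + r 0 1 := by rw [hz]; field_simp
  have e1 : act γ (x • p + q) = j • (z • p + q) := by
    have e2 : j • (z • p + q) = (j * z) • p + j • q := by module
    rw [act_add, act_smul, hp, hq, e2, hzj, hjd]
    module
  have h1 : act γ (x • p + q) ∈ Cone n := act_mem γ hx
  have h2 : z • p + q ∈ Cone n := by
    have h3 : z • p + q = j⁻¹ • act γ (x • p + q) := by
      rw [e1, smul_smul, inv_mul_cancel₀ hj, one_smul]
    rw [h3]
    exact smul_mem_cone (inv_ne_zero hj) h1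
  refine ⟨h2, ?_⟩
  have h4 := hf.inv γ hγ _ hx
  rw [e1, hf.hom j hj _ h2] at h4
  have h5 : f (z • p + q) = j ^ k * (χ γ * f (x • p + q)) := by
    rw [← h4, ← mul_assoc, mul_inv_cancel₀ (pow_ne_zero k hj), one_mul]
  rw [rst, rst, h5]
  ring

theorem mulVec_fderiv {F : Fin (n + 1) → Vec n → ℂ} {v ξ : Vec n} (i : Fin (n + 1)) :
    ((Matrix.of fun i j => fderiv ℂ (F i) v (Pi.single j 1)) *ᵥ ξ) i = fderiv ℂ (F i) v ξ := by
  rw [mulVec, dotProduct]
  simp only [Matrix.of_apply]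
  conv_rhs => rw [← Finset.univ_sum_single ξ, map_sum]
  refine Finset.sum_congr rfl fun j _ => ?_
  have e3 : (Pi.single j (ξ j) : Vec n) = ξ j • Pi.single j (1 : ℂ) := by
    rw [← Pi.single_smul, smul_eq_mul, mul_one]
  rw [e3, map_smul, smul_eq_mul, mul_comm]

/-- a pair of linear functionals in a family separating vectors -/
theorem exists_minor {ι : Type*} {a b : ι → ℂ}
    (h : ∀ s t : ℂ, (∀ i, s * a i + t * b i = 0) → s = 0 ∧ t = 0) :
    ∃ i j, a i * b j - a j * b i ≠ 0 := by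
  by_contra hcon
  push Not at hcon
  by_cases ha : ∀ i, a i = 0
  · have := (h 1 0 fun i => by rw [ha i]; ring).1
    exact one_ne_zero this
  · push Not at ha
    obtain ⟨i, hi⟩ := ha
    have := (h (b i) (-a i) fun j => by linear_combination -hcon i j).2
    exact hi (neg_eq_zero.1 this)

/-- Two forms with nonvanishing Wronskian on a line. -/
theorem exists_wron (h : DiscreteTopology Γ) (hT : TF Γ) {p q : Vec n} (hq : q ∈ Cone n)
    (hpq : ∀ s t : ℂ, s • p + t • q = 0 → s = 0 ∧ t = 0) :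
    ∃ k₀ : ℕ, ∀ k ≥ k₀, ∃ f g : Vec n → ℂ, Fm Γ 1 k f ∧ Fm Γ 1 k g ∧
      rst p q f 0 * deriv (rst p q g) 0 - deriv (rst p q f) 0 * rst p q g 0 ≠ 0 := by
  obtain ⟨k₀, hk₀⟩ := frame h hT hq
  refine ⟨k₀ + 1, fun k hk => ?_⟩
  obtain ⟨F, hF, hdet⟩ := hk₀ k (by omega)
  have hk0 : (k : ℂ) ≠ 0 := by
    rw [Nat.cast_ne_zero]
    omega
  have hx : (0 : ℂ) ∈ dsc p q := by
    show (0 : ℂ) • p + q ∈ Cone n
    rw [zero_smul, zero_add]
    exact hq
  have e0 : (0 : ℂ) • p + q = q := by rw [zero_smul, zero_add]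
  obtain ⟨i, j, hij⟩ := exists_minor (a := fun i => fderiv ℂ (F i) q p)
    (b := fun i => fderiv ℂ (F i) q q) (fun s t hst => hpq s t (by
      by_contra h0
      apply hdet
      refine Matrix.exists_mulVec_eq_zero_iff.1 ⟨s • p + t • q, h0, ?_⟩
      funext i
      rw [mulVec_fderiv, map_add, map_smul, map_smul]
      exact hst i))
  refine ⟨F i, F j, hF i, hF j, fun h0 => hij ?_⟩
  have e1 : ∀ l, fderiv ℂ (F l) q q = -(k : ℂ) * rst p q (F l) 0 := by
    intro l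
    rw [rst, e0]
    have hd : DifferentiableAt ℂ (F l) q :=
      ((hF l).diff q hq).differentiableAt ((isOpen_cone n).mem_nhds hq)
    have h1 : HasDerivAt (fun c : ℂ => F l (c • q)) (fderiv ℂ (F l) q q) 1 := by
      have h2 : HasDerivAt (fun c : ℂ => c • q) ((1 : ℂ) • q) 1 :=
        (hasDerivAt_id (1 : ℂ)).smul_const q
      have h3 : HasFDerivAt (F l) (fderiv ℂ (F l) q) ((1 : ℂ) • q) := by
        rw [one_smul]
        exact hd.hasFDerivAt
      have h4 := h3.comp_hasDerivAt (1 : ℂ) h2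
      rwa [one_smul] at h4
    have h2 : HasDerivAt (fun c : ℂ => (c ^ k)⁻¹ * F l q) (-(k : ℂ) * F l q) 1 := by
      have h3 := (((hasDerivAt_pow k (1 : ℂ)).inv (by simp)).mul_const (F l q))
      simpa using h3
    have h3 : (fun c : ℂ => F l (c • q)) =ᶠ[𝓝 1] fun c : ℂ => (c ^ k)⁻¹ * F l q := by
      filter_upwards [isOpen_ne.mem_nhds (one_ne_zero (α := ℂ))] with c hc
      exact (hF l).hom c hc q hq
    exact (h1.congr_of_eventuallyEq h3.symm).unique h2
  have e2 : ∀ l, deriv (rst p q (F l)) 0 = fderiv ℂ (F l) q p := by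
    intro l
    rw [deriv_rst (hF l) hx, e0]
  rw [e2, e2] at h0
  simp only [e1]
  linear_combination (k : ℂ) * h0

end Pool.Agent.Lib.MP_5d4057_al.QB
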