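import Mathlib

/-! Relations between functions of different positive weights (project DER, part T1): algebra. -/

set_option autoImplicit false

namespace Pool.Agent.Lib.MP_5d4057_al.QB

open MvPolynomial

/-- substitution of powers of the variables -/
noncomputable def pw {σ : Type*} (a : σ → ℕ) (P : MvPolynomial σ ℂ) : MvPolynomial σ ℂ :=
  aeval (fun i => (X i : MvPolynomial σ ℂ) ^ a i) P

theorem eval_pw {σ : Type*} (a : σ → ℕ) (P : MvPolynomial σ ℂ) (y : σ → ℂ) :
    eval y (pw a P) = eval (fun i => y i ^ a i) P := by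
  induction P using MvPolynomial.induction_on with
  | C c => simp [pw]
  | add p q hp hq => rw [pw, map_add, map_add, ← pw, ← pw, hp, hq, map_add]
  | mul_X p i hp =>
    rw [pw, map_mul, map_mul, ← pw, hp, map_mul, aeval_X, map_pow, eval_X, eval_X]

theorem pw_ne_zero {σ : Type*} {a : σ → ℕ} (ha : ∀ i, 0 < a i) {P : MvPolynomial σ ℂ}
    (hP : P ≠ 0) : pw a P ≠ 0 := by
  intro h0
  apply hP
  refine MvPolynomial.funext fun x => ?_
  have hy : ∀ i, ∃ z : ℂ, z ^ a i = x i := fun i => IsAlgClosed.exists_pow_nat_eq (x i) (ha i)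
  choose y hy using hy
  have h1 := eval_pw a P y
  rw [h0, map_zero] at h1
  rw [map_zero]
  have h2 : (fun i => y i ^ a i) = x := funext hy
  rw [← h2, ← h1]

theorem pw_homog {σ : Type*} {a w : σ → ℕ} {K D : ℕ} (hK : ∀ i, a i * w i = K)
    {P : MvPolynomial σ ℂ} (hP : P.IsHomogeneous D) : (pw a P).IsWeightedHomogeneous w (D * K) := by
  rw [pw, aeval_def, eval₂_eq]
  refine IsWeightedHomogeneous.sum _ _ _ fun m hm => ?_
  have h1 : ∑ i ∈ m.support, m i = D := by
    have := hP (mem_support_iff.1 hm)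
    simpa [Finsupp.weight_apply, Finsupp.sum] using this
  have h2 : IsWeightedHomogeneous w (∏ i ∈ m.support, ((X i : MvPolynomial σ ℂ) ^ a i) ^ m i)
      (∑ i ∈ m.support, m i • (a i • w i)) :=
    IsWeightedHomogeneous.prod _ _ _ fun i _ =>
      ((isWeightedHomogeneous_X ℂ w i).pow (a i)).pow (m i)
  have h3 : ∑ i ∈ m.support, m i • (a i • w i) = D * K := by
    rw [← h1, Finset.sum_mul]
    refine Finset.sum_congr rfl fun i _ => ?_
    rw [smul_eq_mul, smul_eq_mul, hK]
  rw [h3] at h2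
  exact h2.C_mul _

/-- A homogeneous relation between powers is a weighted homogeneous relation. -/
theorem rel_of_pow {σ X : Type*} {a w : σ → ℕ} {K D : ℕ} (ha : ∀ i, 0 < a i)
    (hK : ∀ i, a i * w i = K) {P : MvPolynomial σ ℂ} (hP : P ≠ 0) (hD : P.IsHomogeneous D)
    {s : Set X} {f : σ → X → ℂ} (h : ∀ x ∈ s, eval (fun i => f i x ^ a i) P = 0) :
    ∃ R : MvPolynomial σ ℂ, R ≠ 0 ∧ R.IsWeightedHomogeneous w (D * K) ∧
      ∀ x ∈ s, eval (fun i => f i x) R = 0 :=
  ⟨pw a P, pw_ne_zero ha hP, pw_homog hK hD, fun x hx => by rw [eval_pw]; exact h x hx⟩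

/-- exponents which make the weights equal -/
theorem exists_exp {σ : Type*} [Finite σ] {w : σ → ℕ} (hw : ∀ i, 0 < w i) :
    ∃ (a : σ → ℕ) (K : ℕ), 0 < K ∧ (∀ i, 0 < a i) ∧ ∀ i, a i * w i = K := by
  classical
  have := Fintype.ofFinite σ
  refine ⟨fun i => ∏ j ∈ Finset.univ.erase i, w j, ∏ j, w j, Finset.prod_pos fun j _ => hw j,
    fun i => Finset.prod_pos fun j _ => hw j, fun i => ?_⟩
  exact Finset.prod_erase_mul _ _ (Finset.mem_univ i)

/-- the same with all weights divisible by a given one in the exponent -/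
theorem exists_exp' {σ : Type*} [Finite σ] {w : σ → ℕ} (hw : ∀ i, 0 < w i) {M : ℕ} (hM : 0 < M) :
    ∃ (a : σ → ℕ) (K : ℕ), 0 < K ∧ M ∣ K ∧ (∀ i, 0 < a i) ∧ ∀ i, a i * w i = K := by
  obtain ⟨a, K, hK, ha, h⟩ := exists_exp hw
  exact ⟨fun i => M * a i, M * K, Nat.mul_pos hM hK, Dvd.intro _ rfl,
    fun i => Nat.mul_pos hM (ha i), fun i => by rw [mul_assoc, h i]⟩

end Pool.Agent.Lib.MP_5d4057_al.QB
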