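import Mathlib

/-! # Osgood's lemma

A continuous function on an open subset of `Fin m → ℂ` with values in a complex Banach space which
is holomorphic along every coordinate line is analytic (power series in `m` variables). Hence a
complex differentiable function on an open subset of a finite-dimensional complex space is
analytic. -/

set_option autoImplicit false

namespace Pool.Agent.Lib.MP_5d4057_al.QB.OsgB

open Metric Set Complex Topology MeasureTheory

universe u

section circle

variable {F : Type u} [NormedAddCommGroup F] [NormedSpace ℂ F]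

/-- Integration over a circle, as a functional on the continuous functions on the circle. -/
noncomputable def cI (F : Type u) [NormedAddCommGroup F] [NormedSpace ℂ F] (c : ℂ) {R : ℝ}
    (hR : 0 ≤ R) : C(sphere c R, F) →L[ℂ] F :=
  LinearMap.mkContinuous
    { toFun := fun φ => ∫ θ in (0:ℝ)..2 * Real.pi,
        deriv (circleMap c R) θ • φ ⟨circleMap c R θ, circleMap_mem_sphere c hR θ⟩
      map_add' := by
        intro φ ψ
        rw [← intervalIntegral.integral_add]
        · simp only [ContinuousMap.add_apply, smul_add]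
        all_goals
          apply Continuous.intervalIntegrable
          simp only [deriv_circleMap]
          fun_prop
      map_smul' := by
        intro a φ
        rw [RingHom.id_apply, ← intervalIntegral.integral_smul]
        congr 1
        funext θ
        rw [ContinuousMap.smul_apply, smul_comm] } (R * (2 * Real.pi)) (by
    intro φ
    have h := intervalIntegral.norm_integral_le_of_norm_le_const (a := 0) (b := 2 * Real.pi)
      (C := R * ‖φ‖) (f := fun θ => deriv (circleMap c R) θ •
        φ ⟨circleMap c R θ, circleMap_mem_sphere c hR θ⟩) (by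
        intro θ _
        rw [norm_smul]
        refine mul_le_mul (le_of_eq ?_) (φ.norm_coe_le_norm _) (norm_nonneg _) hR
        simp [deriv_circleMap, abs_of_nonneg hR])
    rw [sub_zero, abs_of_nonneg (by positivity)] at h
    calc _ ≤ R * ‖φ‖ * (2 * Real.pi) := h
      _ = _ := by ring)

theorem cI_apply (c : ℂ) {R : ℝ} (hR : 0 ≤ R) (φ : C(sphere c R, F)) (f : ℂ → F)
    (h : ∀ ζ : sphere c R, φ ζ = f ζ) : cI F c hR φ = ∮ z in C(c, R), f z := by
  change (∫ θ in (0:ℝ)..2 * Real.pi,
    deriv (circleMap c R) θ • φ ⟨circleMap c R θ, circleMap_mem_sphere c hR θ⟩) = _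
  rw [circleIntegral]
  congr 1
  funext θ
  rw [h]

/-- Multiplication of continuous functions. -/
noncomputable def mulB (K : Type) [TopologicalSpace K] [CompactSpace K] (F : Type u)
    [NormedAddCommGroup F] [NormedSpace ℂ F] : C(K, ℂ) →L[ℂ] C(K, F) →L[ℂ] C(K, F) :=
  LinearMap.mkContinuous₂
    (LinearMap.mk₂ ℂ (fun (k : C(K, ℂ)) (φ : C(K, F)) => (⟨fun ζ => k ζ • φ ζ, by fun_prop⟩ : C(K, F)))
      (by
        intro a b φ
        ext ζ
        exact add_smul (a ζ) (b ζ) (φ ζ))
      (by
        intro a b φ
        ext ζ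
        exact smul_assoc a (b ζ) (φ ζ))
      (by
        intro a φ ψ
        ext ζ
        exact smul_add (a ζ) (φ ζ) (ψ ζ))
      (by
        intro a b φ
        ext ζ
        exact smul_comm (b ζ) a (φ ζ))) 1 (by
    intro k φ
    rw [one_mul]
    change ‖(⟨fun ζ => k ζ • φ ζ, _⟩ : C(K, F))‖ ≤ _
    rw [ContinuousMap.norm_le _ (by positivity)]
    intro ζ
    change ‖k ζ • φ ζ‖ ≤ _
    rw [norm_smul]
    exact mul_le_mul (k.norm_coe_le_norm _) (φ.norm_coe_le_norm _) (norm_nonneg _) (norm_nonneg _))

theorem mulB_apply (K : Type) [TopologicalSpace K] [CompactSpace K] (k : C(K, ℂ)) (φ : C(K, F))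
    (ζ : K) : mulB K F k φ ζ = k ζ • φ ζ := rfl

/-- The Cauchy kernel `ζ ↦ (ζ - z)⁻¹` as a continuous function on the circle. -/
noncomputable def ker (c : ℂ) (R : ℝ) (z : ℂ) : C(sphere c R, ℂ) :=
  Ring.inverse ((⟨fun ζ => (ζ : ℂ), by fun_prop⟩ : C(sphere c R, ℂ)) - z • 1)

theorem ker_isUnit {c : ℂ} {R : ℝ} {z : ℂ} (hz : z ∈ ball c R) :
    IsUnit ((⟨fun ζ => (ζ : ℂ), by fun_prop⟩ : C(sphere c R, ℂ)) - z • 1) := by
  rw [ContinuousMap.isUnit_iff_forall_ne_zero]
  intro ζ h
  have h1 : (ζ : ℂ) - z • 1 = 0 := h
  rw [smul_eq_mul, mul_one, sub_eq_zero] at h1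
  have h2 := ζ.2
  rw [mem_sphere, h1] at h2
  rw [mem_ball] at hz
  exact hz.ne h2

theorem ker_apply {c : ℂ} {R : ℝ} {z : ℂ} (hz : z ∈ ball c R) (ζ : sphere c R) :
    ker c R z ζ = ((ζ : ℂ) - z)⁻¹ := by
  have h := Ring.inverse_mul_cancel _ (ker_isUnit hz)
  have h1 := DFunLike.congr_fun h ζ
  have h2 : ker c R z ζ * ((ζ : ℂ) - z • 1) = 1 := h1
  rw [smul_eq_mul, mul_one] at h2
  exact eq_inv_of_mul_eq_one_left h2

theorem ker_analyticAt {c : ℂ} {R : ℝ} {z : ℂ} (hz : z ∈ ball c R) :
    AnalyticAt ℂ (ker c R) z := by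
  have h1 : DifferentiableOn ℂ (ker c R) (ball c R) := by
    intro w hw
    apply DifferentiableAt.differentiableWithinAt
    have h2 : DifferentiableAt ℂ (fun z : ℂ =>
        (⟨fun ζ => (ζ : ℂ), by fun_prop⟩ : C(sphere c R, ℂ)) - z • (1 : C(sphere c R, ℂ))) w :=
      (differentiableAt_const _).sub (differentiableAt_id.smul_const _)
    exact DifferentiableAt.comp (g := Ring.inverse) w
      (differentiableAt_inverse (ker_isUnit hw)) h2
  exact h1.analyticAt (isOpen_ball.mem_nhds hz)

end circle

/-- **Osgood's lemma.** -/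
theorem osgood_analytic (m : ℕ) : ∀ (F : Type u) [NormedAddCommGroup F] [NormedSpace ℂ F]
    [CompleteSpace F] (U : Set (Fin m → ℂ)) (f : (Fin m → ℂ) → F), IsOpen U → ContinuousOn f U →
    (∀ w ∈ U, ∀ i, DifferentiableAt ℂ (fun t => f (Function.update w i t)) (w i)) →
    AnalyticOnNhd ℂ f U := by
  induction m with
  | zero =>
    intro F _ _ _ U f _ _ _ x _
    have h : f = fun _ => f x := by
      funext y
      rw [Subsingleton.elim y x]
    rw [h]
    exact analyticAt_const
  | succ m ih =>
    intro F _ _ _ U f hU hf hd x hx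
    obtain ⟨r, hr, hrU⟩ := nhds_basis_closedBall.mem_iff.1 (hU.mem_nhds hx)
    set c : ℂ := x 0 with hc
    set x' : Fin m → ℂ := Fin.tail x with hx'
    have hxc : x = Fin.cons c x' := (Fin.cons_self_tail x).symm
    have hmem : ∀ z ∈ closedBall c r, ∀ w ∈ closedBall x' r, (Fin.cons z w : Fin (m + 1) → ℂ) ∈ U := by
      intro z hz w hw
      apply hrU
      rw [mem_closedBall, dist_pi_le_iff hr.le]
      intro i
      refine Fin.cases ?_ (fun j => ?_) i
      · rw [Fin.cons_zero]
        exact hz
      · rw [Fin.cons_succ]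
        have h1 := (dist_pi_le_iff hr.le).1 (mem_closedBall.1 hw) j
        exact h1
    have hcons : Continuous fun p : ℂ × (Fin m → ℂ) => (Fin.cons p.1 p.2 : Fin (m + 1) → ℂ) :=
      Continuous.finCons continuous_fst continuous_snd
    let V : Set (Fin m → ℂ) := ball x' r
    let K := sphere c r
    have hKV : ∀ p : V × K, (Fin.cons (p.2 : ℂ) (p.1 : Fin m → ℂ) : Fin (m + 1) → ℂ) ∈ U := fun p =>
      hmem _ (sphere_subset_closedBall p.2.2) _ (ball_subset_closedBall p.1.2)
    let h : C(V × K, F) := ⟨fun p => f (Fin.cons (p.2 : ℂ) (p.1 : Fin m → ℂ)), by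
      refine hf.comp_continuous ?_ hKV
      exact hcons.comp ((continuous_subtype_val.comp continuous_snd).prodMk
        (continuous_subtype_val.comp continuous_fst))⟩
    classical
    let g : (Fin m → ℂ) → C(K, F) := fun w => if hw : w ∈ V then h.curry ⟨w, hw⟩ else 0
    have hg : ∀ w ∈ V, ∀ ζ : K, g w ζ = f (Fin.cons (ζ : ℂ) w) := by
      intro w hw ζ
      have h1 : g w = h.curry ⟨w, hw⟩ := dif_pos hw
      rw [h1]
      rfl
    have hgc : ContinuousOn g V := by
      rw [continuousOn_iff_continuous_domRestrict]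
      have h1 : V.domRestrict g = fun w => h.curry w := by
        funext w
        have : g w = h.curry ⟨w, w.2⟩ := dif_pos w.2
        exact this
      rw [h1]
      exact h.curry.continuous
    have hgd : ∀ w ∈ V, ∀ i, DifferentiableAt ℂ (fun t => g (Function.update w i t)) (w i) := by
      intro w hw i
      have hup : Continuous fun t : ℂ => Function.update w i t := continuous_const.update i continuous_id
      have h1 : (fun t : ℂ => Function.update w i t) ⁻¹' V ∈ 𝓝 (w i) := by
        apply hup.continuousAt.preimage_mem_nhds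
        rw [Function.update_eq_self]
        exact isOpen_ball.mem_nhds hw
      obtain ⟨ρ, hρ, hρV⟩ := nhds_basis_closedBall.mem_iff.1 h1
      set G : ℂ → C(K, F) := fun t => g (Function.update w i t) with hG
      have hGc : ContinuousOn G (closedBall (w i) ρ) :=
        hgc.comp hup.continuousOn hρV
      lift ρ to NNReal using hρ.le
      have hGi : CircleIntegrable G (w i) ρ :=
        (hGc.mono sphere_subset_closedBall).circleIntegrable ρ.2
      have h2 : ∀ t ∈ ball (w i) ρ, (2 * Real.pi * I : ℂ)⁻¹ • (∮ s in C(w i, ρ), (s - t)⁻¹ • G s)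
          = G t := by
        intro t ht
        ext ζ
        have hci : CircleIntegrable (fun s => (s - t)⁻¹ • G s) (w i) ρ := by
          apply ContinuousOn.circleIntegrable ρ.2
          have h10 : ContinuousOn (fun s : ℂ => (s - t)⁻¹) (sphere (w i) ρ) := by
            refine ContinuousOn.inv₀ (by fun_prop) ?_
            intro s hs h0
            rw [sub_eq_zero] at h0
            rw [h0] at hs
            exact (mem_ball.1 ht).ne (mem_sphere.1 hs)
          exact h10.smul (hGc.mono sphere_subset_closedBall)
        have h3 : (∮ s in C(w i, ρ), (s - t)⁻¹ • G s) ζ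
            = ∮ s in C(w i, ρ), (s - t)⁻¹ • f (Fin.cons (ζ : ℂ) (Function.update w i s)) := by
          have h4 := (ContinuousMap.evalCLM ℂ ζ : C(K, F) →L[ℂ] F).intervalIntegral_comp_comm
            (hci.out)
          rw [circleIntegral, circleIntegral]
          have h5 : (ContinuousMap.evalCLM ℂ ζ : C(K, F) →L[ℂ] F)
              (∫ θ in (0:ℝ)..2 * Real.pi, deriv (circleMap (w i) ρ) θ •
                (circleMap (w i) ρ θ - t)⁻¹ • G (circleMap (w i) ρ θ)) =
              (∫ θ in (0:ℝ)..2 * Real.pi, deriv (circleMap (w i) ρ) θ •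
                (circleMap (w i) ρ θ - t)⁻¹ • G (circleMap (w i) ρ θ)) ζ := rfl
          rw [← h5, ← h4]
          congr 1
          funext θ
          change deriv (circleMap (w i) ρ) θ •
                (circleMap (w i) ρ θ - t)⁻¹ • (G (circleMap (w i) ρ θ) ζ) = _
          have h11 := hg (Function.update w i (circleMap (w i) ρ θ))
            (hρV (sphere_subset_closedBall (circleMap_mem_sphere (w i) ρ.2 θ))) ζ
          rw [← h11]
        change (2 * Real.pi * I : ℂ)⁻¹ • ((∮ s in C(w i, ρ), (s - t)⁻¹ • G s) ζ) = _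
        rw [h3]
        have hc1 : ContinuousOn (fun s => f (Fin.cons (ζ : ℂ) (Function.update w i s)))
            (closedBall (w i) ρ) := by
          refine hf.comp ?_ ?_
          · exact (hcons.comp (continuous_const.prodMk hup)).continuousOn
          · intro s hs
            exact hKV (⟨Function.update w i s, hρV hs⟩, ζ)
        have hd1 : ∀ s ∈ ball (w i) ρ \ ∅, DifferentiableAt ℂ
            (fun s => f (Fin.cons (ζ : ℂ) (Function.update w i s))) s := by
          rintro s ⟨hs, -⟩
          have h6 := hd (Fin.cons (ζ : ℂ) (Function.update w i s))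
            (hKV (⟨Function.update w i s, hρV (ball_subset_closedBall hs)⟩, ζ)) i.succ
          rw [Fin.cons_succ, Function.update_self] at h6
          refine h6.congr_of_eventuallyEq ?_
          filter_upwards with t
          rw [← Fin.cons_update, Function.update_idem]
        have h7 := two_pi_I_inv_smul_circleIntegral_sub_inv_smul_of_differentiable_on_off_countable
          countable_empty ht hc1 hd1
        rw [h7]
        exact (hg (Function.update w i t) (hρV (ball_subset_closedBall ht)) ζ).symm
      have h8 := hasFPowerSeriesOn_cauchy_integral hGi hρ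
      have h9 : AnalyticAt ℂ G (w i) := by
        refine h8.analyticAt.congr ?_
        filter_upwards [isOpen_ball.mem_nhds (mem_ball_self (x := w i) (by exact_mod_cast hρ :
          (0:ℝ) < (ρ : ℝ)))] with t ht
        exact h2 t ht
      exact h9.differentiableAt
    have hga := ih C(K, F) V g isOpen_ball hgc hgd
    have hgx : AnalyticAt ℂ g x' := hga x' (mem_ball_self hr)
    have hkx : AnalyticAt ℂ (ker c r) c := ker_analyticAt (mem_ball_self hr)
    -- the function as a composition
    have h0 : AnalyticAt ℂ (fun y : Fin (m + 1) → ℂ => y 0) x :=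
      (ContinuousLinearMap.proj (R := ℂ) (φ := fun _ : Fin (m + 1) => ℂ) 0).analyticAt x
    have ht : AnalyticAt ℂ (fun y : Fin (m + 1) → ℂ => (Fin.tail y : Fin m → ℂ)) x := by
      have : (fun y : Fin (m + 1) → ℂ => (Fin.tail y : Fin m → ℂ)) =
          ⇑(ContinuousLinearMap.pi (fun j : Fin m =>
            (ContinuousLinearMap.proj (R := ℂ) (φ := fun _ : Fin (m + 1) => ℂ) j.succ))) := by
        funext y j
        rfl
      rw [this]
      exact ContinuousLinearMap.analyticAt _ x
    have h1 : AnalyticAt ℂ (fun y : Fin (m + 1) → ℂ => ker c r (y 0)) x :=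
      AnalyticAt.fun_comp hkx h0
    have h2 : AnalyticAt ℂ (fun y : Fin (m + 1) → ℂ => g (Fin.tail y)) x :=
      AnalyticAt.fun_comp hgx ht
    have h3 : AnalyticAt ℂ (fun y : Fin (m + 1) → ℂ => mulB K F (ker c r (y 0)) (g (Fin.tail y))) x := by
      have h5 : AnalyticAt ℂ (fun p : C(K, ℂ) × C(K, F) => mulB K F p.1 p.2)
          (ker c r (x 0), g (Fin.tail x)) :=
        (mulB K F).analyticAt_bilinear (ker c r (x 0), g (Fin.tail x))
      have h6 : AnalyticAt ℂ (fun y : Fin (m + 1) → ℂ => (ker c r (y 0), g (Fin.tail y))) x :=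
        h1.prod h2
      exact AnalyticAt.comp (g := fun p : C(K, ℂ) × C(K, F) => mulB K F p.1 p.2)
        (f := fun y : Fin (m + 1) → ℂ => (ker c r (y 0), g (Fin.tail y))) h5 h6
    have h4 : AnalyticAt ℂ (fun y : Fin (m + 1) → ℂ => (2 * Real.pi * I : ℂ)⁻¹ •
        cI F c hr.le (mulB K F (ker c r (y 0)) (g (Fin.tail y)))) x := by
      have h5 : AnalyticAt ℂ (fun y : Fin (m + 1) → ℂ =>
        cI F c hr.le (mulB K F (ker c r (y 0)) (g (Fin.tail y)))) x :=
        ((cI F c hr.le).analyticAt _).fun_comp h3
      exact analyticAt_const.smul h5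
    refine h4.congr ?_
    filter_upwards [isOpen_ball.mem_nhds (mem_ball_self (x := x) hr)] with y hy
    have hy' : ∀ i, dist (y i) (x i) < r := (dist_pi_lt_iff hr).1 hy
    have hy0 : y 0 ∈ ball c r := hy' 0
    have hyt : Fin.tail y ∈ V := by
      change dist (Fin.tail y) x' < r
      rw [dist_pi_lt_iff hr]
      intro j
      exact hy' j.succ
    have hI : cI F c hr.le (mulB K F (ker c r (y 0)) (g (Fin.tail y)))
        = ∮ z in C(c, r), (z - y 0)⁻¹ • f (Fin.cons z (Fin.tail y)) := by
      apply cI_apply
      intro ζ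
      rw [mulB_apply, ker_apply hy0, hg _ hyt]
    rw [hI]
    have hc1 : ContinuousOn (fun z => f (Fin.cons z (Fin.tail y))) (closedBall c r) := by
      refine hf.comp ?_ ?_
      · exact (hcons.comp (continuous_id.prodMk continuous_const)).continuousOn
      · intro z hz
        exact hmem z hz _ (ball_subset_closedBall hyt)
    have hd1 : ∀ z ∈ ball c r \ ∅, DifferentiableAt ℂ (fun z => f (Fin.cons z (Fin.tail y))) z := by
      rintro z ⟨hz, -⟩
      have h6 := hd (Fin.cons z (Fin.tail y)) (hmem z (ball_subset_closedBall hz) _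
        (ball_subset_closedBall hyt)) 0
      rw [Fin.cons_zero] at h6
      refine h6.congr_of_eventuallyEq ?_
      filter_upwards with t
      rw [Fin.update_cons_zero]
    rw [two_pi_I_inv_smul_circleIntegral_sub_inv_smul_of_differentiable_on_off_countable
      countable_empty hy0 hc1 hd1, Fin.cons_self_tail]

section consequences

variable {F : Type u} [NormedAddCommGroup F] [NormedSpace ℂ F] [CompleteSpace F]

/-- **Osgood's lemma**, differentiability. -/
theorem osgood {m : ℕ} {U : Set (Fin m → ℂ)} (hU : IsOpen U) {f : (Fin m → ℂ) → F}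
    (hf : ContinuousOn f U)
    (hd : ∀ w ∈ U, ∀ i, DifferentiableAt ℂ (fun t => f (Function.update w i t)) (w i)) :
    DifferentiableOn ℂ f U :=
  (osgood_analytic m F U f hU hf hd).differentiableOn

theorem analyticOnNhd_pi' {m : ℕ} {U : Set (Fin m → ℂ)} (hU : IsOpen U) {f : (Fin m → ℂ) → F}
    (hf : DifferentiableOn ℂ f U) : AnalyticOnNhd ℂ f U := by
  refine osgood_analytic m F U f hU hf.continuousOn ?_
  intro w hw i
  have h1 : DifferentiableAt ℂ f (Function.update w i (w i)) := by
    rw [Function.update_eq_self]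
    exact hf.differentiableAt (hU.mem_nhds hw)
  exact DifferentiableAt.comp (w i) h1 (by
    rw [differentiableAt_pi]
    intro j
    by_cases hj : j = i
    · subst hj
      simp only [Function.update_self]
      exact differentiableAt_id
    · simp only [Function.update_of_ne hj]
      exact differentiableAt_const _)

/-- A complex differentiable function on an open subset of a finite-dimensional complex space is
analytic. -/
theorem analyticOnNhd {E : Type*} [NormedAddCommGroup E] [NormedSpace ℂ E] [FiniteDimensional ℂ E]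
    {U : Set E} (hU : IsOpen U) {f : E → F} (hf : DifferentiableOn ℂ f U) :
    AnalyticOnNhd ℂ f U := by
  let e : E ≃L[ℂ] (Fin (Module.finrank ℂ E) → ℂ) :=
    ContinuousLinearEquiv.ofFinrankEq (by simp)
  have h1 : AnalyticOnNhd ℂ (fun y => f (e.symm y)) (e.symm ⁻¹' U) := by
    apply analyticOnNhd_pi' (hU.preimage e.symm.continuous)
    exact hf.comp e.symm.differentiable.differentiableOn (fun y hy => hy)
  intro x hx
  have h2 : AnalyticAt ℂ (fun y => f (e.symm y)) (e x) := h1 (e x) (by simpa using hx)
  have h3 : AnalyticAt ℂ (fun y => e y) x :=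
    (e : E →L[ℂ] (Fin (Module.finrank ℂ E) → ℂ)).analyticAt x
  have h4 : AnalyticAt ℂ (fun y => f (e.symm (e y))) x :=
    AnalyticAt.comp (g := fun y => f (e.symm y)) (f := fun y => e y) h2 h3
  simpa using h4

end consequences

end Pool.Agent.Lib.MP_5d4057_al.QB.OsgB
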