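import Pool.Agent.Lib.MP_5d4057_al.NU.Defs

/-! Automorphic forms on the cone of negative vectors (project DER, part T1). -/

set_option autoImplicit false

namespace Pool.Agent.Lib.MP_5d4057_al.QB

open Matrix Pool.Agent.Lib.MP_5d4057_al Pool.Agent.Lib.MP_5d4057_al.Hyb
  Pool.Agent.Lib.MP_5d4057_al.HM

variable {n : ℕ}

/-- Holomorphic functions on the cone, homogeneous of degree `-k`, which transform under `Γ` with
the character `χ` (no growth condition). -/
structure Fm (Γ : Subgroup (SUGroup n)) (χ : SUGroup n → ℂ) (k : ℕ) (f : Vec n → ℂ) : Prop where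
  diff : DifferentiableOn ℂ f (Cone n)
  hom : ∀ c : ℂ, c ≠ 0 → ∀ v ∈ Cone n, f (c • v) = (c ^ k)⁻¹ * f v
  inv : ∀ γ ∈ Γ, ∀ v ∈ Cone n, f (act γ v) = χ γ * f v

end Pool.Agent.Lib.MP_5d4057_al.QB
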