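import Pool.Agent.Lib.MP_5d4057_al.RC.Liou
import Pool.Agent.Lib.MP_5d4057_al.QB.FmDefs

/-! Automorphic forms on the cone for groups with a height function: the maximum principle
(project (B), T1b). -/

namespace Pool.Agent.Lib.MP_5d4057_al.QB

open Matrix MeasureTheory Filter Topology Pool.Agent.Lib.MP_5d4057_al
  Pool.Agent.Lib.MP_5d4057_al.Hyb Pool.Agent.Lib.MP_5d4057_al.HM
  Pool.Agent.Lib.MP_5d4057_al.NU Pool.Agent.Lib.MP_5d4057_al.RC

variable {n : ℕ} {Γ : Subgroup (SUGroup n)}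

/-- The square of the norm of a form with respect to the height function `y`. -/
noncomputable def nf (y : Vec n → ℝ) (k : ℕ) (f : Vec n → ℂ) (v : Vec n) : ℝ :=
  ‖f v‖ ^ 2 * (-q v / y v) ^ k

theorem nf_nonneg {T : ℝ} {y : Vec n → ℝ} (h : Ht Γ T y) (k : ℕ) (f : Vec n → ℂ) {v : Vec n}
    (hv : v ∈ Cone n) : 0 ≤ nf y k f v := by
  have h1 : q v < 0 := hv
  have h2 := h.one_le v hv
  exact mul_nonneg (sq_nonneg _) (pow_nonneg (div_nonneg (by linarith) (by linarith)) _)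

theorem nf_smul {T : ℝ} {y : Vec n → ℝ} (h : Ht Γ T y) {k : ℕ} {χ : SUGroup n → ℂ}
    {f : Vec n → ℂ} (hf : Fm Γ χ k f) {c : ℂ} (hc : c ≠ 0) {v : Vec n} (hv : v ∈ Cone n) :
    nf y k f (c • v) = nf y k f v := by
  have hc' : ‖c‖ ≠ 0 := norm_ne_zero_iff.2 hc
  have hy : y v ≠ 0 := by have := h.one_le v hv; linarith
  rw [nf, nf, hf.hom c hc v hv, h.hom c hc v hv, q_smul, norm_mul, norm_inv, norm_pow, mul_pow,
    inv_pow, ← pow_mul, mul_comm k 2, pow_mul]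
  have e : -(‖c‖ ^ 2 * q v) / y v = ‖c‖ ^ 2 * (-q v / y v) := by ring
  rw [e, mul_pow]
  field_simp

theorem nf_act {T : ℝ} {y : Vec n → ℝ} (h : Ht Γ T y) {k : ℕ} {χ : SUGroup n → ℂ}
    (hχ : ∀ γ ∈ Γ, ‖χ γ‖ = 1) {f : Vec n → ℂ} (hf : Fm Γ χ k f) {γ : SUGroup n} (hγ : γ ∈ Γ)
    {v : Vec n} (hv : v ∈ Cone n) : nf y k f (act γ v) = nf y k f v := by
  rw [nf, nf, hf.inv γ hγ v hv, h.inv γ hγ v hv, q_act, norm_mul, hχ γ hγ, one_mul]

theorem nf_cont {T : ℝ} {y : Vec n → ℝ} (h : Ht Γ T y) {k : ℕ} {χ : SUGroup n → ℂ}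
    {f : Vec n → ℂ} (hf : Fm Γ χ k f) : Continuous fun g : SUGroup n => nf y k f (act g (base n)) := by
  have h1 : Continuous fun g : SUGroup n => f (act g (base n)) :=
    hf.diff.continuousOn.comp_continuous continuous_orbit orbit_mem
  have h2 := ht_cont h
  have h3 : ∀ g : SUGroup n, y (act g (base n)) ≠ 0 := fun g => by
    have := h.one_le _ (orbit_mem g); linarith
  have h4 : (fun g : SUGroup n => nf y k f (act g (base n))) = fun g =>
      ‖f (act g (base n))‖ ^ 2 * (1 / y (act g (base n))) ^ k := by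
    funext g
    rw [nf, q_orbit, neg_neg]
  rw [h4]
  exact (h1.norm.pow 2).mul ((continuous_const.div h2 h3).pow k)

/-- Two linear equations and positivity. -/
theorem exists_orth_two (hn : 2 ≤ n) {v : Vec n} (hv : v ∈ Cone n) (p : Vec n) :
    ∃ ξ : Vec n, herm ξ p = 0 ∧ herm v ξ = 0 ∧ 0 < q ξ := by
  let f : Vec n →ₗ[ℂ] (ℂ × ℂ) :=
    { toFun := fun ξ => (herm p ξ, herm v ξ)
      map_add' := fun a b => by simp [herm_add_right]
      map_smul' := fun c a => by simp [herm_smul_right] }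
  have h1 : LinearMap.ker f ≠ ⊥ := LinearMap.ker_ne_bot_of_finrank_lt (by simp; omega)
  obtain ⟨ξ, hξ, hξ0⟩ := Submodule.exists_mem_ne_zero_of_ne_bot h1
  have h2 : (herm p ξ, herm v ξ) = 0 := hξ
  obtain ⟨h3, h4⟩ := Prod.mk_eq_zero.1 h2
  exact ⟨ξ, by rw [herm_comm, h3, star_zero], h4, q_pos_of_orth hv h4 hξ0⟩

/-- The disc tangent to a horosphere: on it the form `-q / y` is constant. -/
theorem exists_disc {T : ℝ} {y : Vec n → ℝ} (h : Ht Γ T y) (hn : 2 ≤ n) {T₁ : ℝ} (hT : T ≤ T₁)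
    (hT1 : 1 ≤ T₁) {g : SUGroup n} (hg : T₁ < y (act g (base n))) :
    ∃ (ξ : Vec n) (r κ : ℝ), 0 < r ∧ 0 < κ ∧ ∀ z : ℂ, ‖z‖ ≤ r →
      act g (base n) + z • ξ ∈ Cone n ∧
      -q (act g (base n) + z • ξ) / y (act g (base n) + z • ξ) = κ ∧
      (‖z‖ = r → y (act g (base n) + z • ξ) = T₁) := by
  set v := act g (base n) with hv
  have hvC : v ∈ Cone n := orbit_mem g
  have hqv : q v = -1 := q_orbit g
  obtain ⟨p, hp, hqp, hy1, -, hy2⟩ := h.nul g (hT.trans hg.le)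
  obtain ⟨ξ, hξ1, hξ2, hξ3⟩ := exists_orth_two hn hvC p
  have hN : 0 < ‖herm v p‖ ^ 2 := by
    have := herm_isot_ne hvC hp hqp
    positivity
  set Y := y v with hY
  have hY1 : Y = yp p v := hy1
  have hYN : Y * ‖herm v p‖ ^ 2 = 1 := by
    rw [hY1, yp, hqv, neg_neg, div_mul_cancel₀ _ hN.ne']
  have hY0 : 0 < Y := by linarith
  set a := q ξ * Y with ha
  have ha0 : 0 < a := mul_pos hξ3 hY0
  set r := Real.sqrt ((Y - T₁) / a) with hr
  have hr2 : r ^ 2 = (Y - T₁) / a := Real.sq_sqrt (div_nonneg (by linarith) ha0.le)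
  have hr0 : 0 < r := Real.sqrt_pos.2 (div_pos (by linarith) ha0)
  refine ⟨ξ, r, ‖herm v p‖ ^ 2, hr0, hN, fun z hz => ?_⟩
  have hz2 : ‖z‖ ^ 2 * a ≤ Y - T₁ := by
    have h1 : ‖z‖ ^ 2 ≤ r ^ 2 := pow_le_pow_left₀ (norm_nonneg z) hz 2
    rw [hr2, le_div_iff₀ ha0] at h1
    exact h1
  have hq : q (v + z • ξ) = -1 + ‖z‖ ^ 2 * q ξ := by
    rw [q_add_smul, hξ2, mul_zero, Complex.zero_re, mul_zero, add_zero, hqv]
  have hyp : yp p (v + z • ξ) = Y - ‖z‖ ^ 2 * a := by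
    rw [yp_cline hξ1, hξ2, mul_zero, zero_div, zero_mul, Complex.zero_re, sub_zero, ← hY1, ha]
    have e : q ξ / ‖herm v p‖ ^ 2 = q ξ * Y := by
      rw [div_eq_iff hN.ne', mul_assoc, hYN, mul_one]
    rw [e]
    ring
  have hC : v + z • ξ ∈ Cone n := by
    change q (v + z • ξ) < 0
    rw [hq]
    have h1 : ‖z‖ ^ 2 * q ξ * Y ≤ Y - T₁ := by
      rw [mul_assoc]
      exact hz2
    have h2 : ‖z‖ ^ 2 * q ξ * Y < 1 * Y := by linarith
    have h3 : ‖z‖ ^ 2 * q ξ < 1 := lt_of_mul_lt_mul_right h2 hY0.le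
    linarith
  have hyeq : y (v + z • ξ) = yp p (v + z • ξ) := by
    obtain ⟨h', c, hc, he⟩ := exists_act_eq hC
    have e1 : yp p (act h' (base n)) = yp p (v + z • ξ) := by
      rw [he, yp_homog p c hc _ (orbit_mem h')]
    rw [he, h.hom c hc _ (orbit_mem h'), yp_homog p c hc _ (orbit_mem h')]
    refine hy2 h' ?_
    rw [e1, hyp]
    linarith
  have hh : herm (v + z • ξ) p = herm v p := by
    rw [herm_add_left, herm_smul_left, hξ1, mul_zero, add_zero]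
  refine ⟨hC, ?_, fun hzr => ?_⟩
  · have hq0 : q (v + z • ξ) < 0 := hC
    rw [hyeq, yp, hh, div_div_eq_mul_div, mul_comm, mul_div_assoc, div_self (by linarith), mul_one]
  · rw [hyeq, hyp, hzr, hr2, div_mul_cancel₀ _ ha0.ne']
    ring

/-- Restriction of a form to a complex line. -/
theorem Fm.line {χ : SUGroup n → ℂ} {k : ℕ} {f : Vec n → ℂ} (hf : Fm Γ χ k f) {v ξ : Vec n}
    {s : Set ℂ} (hs : ∀ z ∈ s, v + z • ξ ∈ Cone n) :
    DifferentiableOn ℂ (fun z : ℂ => f (v + z • ξ)) s := by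
  have h1 : DifferentiableOn ℂ (fun z : ℂ => v + z • ξ) s :=
    ((differentiable_id.smul_const ξ).const_add v).differentiableOn
  exact hf.diff.comp h1 hs

/-- The maximum principle: the norm of a form is attained on a compact set which does not depend
on the form. -/
theorem exists_max {T : ℝ} {y : Vec n → ℝ} (h : Ht Γ T y)
    (hn : 2 ≤ n ∨ ∀ v ∈ Cone n, y v ≤ T) : ∃ F : Set (SUGroup n), IsCompact F ∧
      ∀ (k : ℕ) (χ : SUGroup n → ℂ) (f : Vec n → ℂ), (∀ γ ∈ Γ, ‖χ γ‖ = 1) → Fm Γ χ k f →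
        ∃ g₀ ∈ F, ∀ v ∈ Cone n, nf y k f v ≤ nf y k f (act g₀ (base n)) := by
  set T₁ := max T 1 with hT₁
  have hTT : T ≤ T₁ := le_max_left _ _
  have hT1 : 1 ≤ T₁ := le_max_right _ _
  obtain ⟨F, hF, hcov⟩ := h.cpt T₁
  refine ⟨F, hF, fun k χ f hχ hf => ?_⟩
  have hne : F.Nonempty := by
    by_cases h1 : y (act (1 : SUGroup n) (base n)) ≤ T₁
    · obtain ⟨γ, -, hγ⟩ := hcov 1 h1
      exact ⟨_, hγ⟩
    · rw [not_le] at h1
      rcases hn with hn | hn
      · obtain ⟨ξ, r, κ, hr, -, hd⟩ := exists_disc h hn hTT hT1 h1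
        have hzr : ‖(r : ℂ)‖ = r := by rw [Complex.norm_real, Real.norm_of_nonneg hr.le]
        obtain ⟨hC, -, hT'⟩ := hd (r : ℂ) hzr.le
        obtain ⟨g, c, hc, he⟩ := exists_act_eq hC
        have h2 := hT' hzr
        rw [he, h.hom c hc _ (orbit_mem g)] at h2
        obtain ⟨γ, -, hγ⟩ := hcov g h2.le
        exact ⟨_, hγ⟩
      · exact absurd h1 (not_lt.2 ((hn _ (orbit_mem _)).trans hTT))
  obtain ⟨g₀, hg₀, hmax⟩ := hF.exists_isMaxOn hne (nf_cont h hf (k := k)).continuousOn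
  refine ⟨g₀, hg₀, ?_⟩
  set M := nf y k f (act g₀ (base n)) with hM
  have hM0 : 0 ≤ M := nf_nonneg h k f (orbit_mem g₀)
  have hlow : ∀ v ∈ Cone n, y v ≤ T₁ → nf y k f v ≤ M := by
    intro v hv hy
    obtain ⟨g, c, hc, he⟩ := exists_act_eq hv
    rw [he, h.hom c hc _ (orbit_mem g)] at hy
    obtain ⟨γ, hγ, hγF⟩ := hcov g hy
    rw [he, nf_smul h hf hc (orbit_mem g), ← nf_act h hχ hf hγ (orbit_mem g), ← act_mul]
    exact hmax hγF
  have horb : ∀ g : SUGroup n, nf y k f (act g (base n)) ≤ M := by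
    intro g
    by_cases h1 : y (act g (base n)) ≤ T₁
    · exact hlow _ (orbit_mem g) h1
    rw [not_le] at h1
    rcases hn with hn | hn
    swap
    · exact absurd h1 (not_lt.2 ((hn _ (orbit_mem _)).trans hTT))
    obtain ⟨ξ, r, κ, hr, hκ, hd⟩ := exists_disc h hn hTT hT1 h1
    set v := act g (base n) with hv
    have hnf : ∀ z : ℂ, ‖z‖ ≤ r → nf y k f (v + z • ξ) = ‖f (v + z • ξ)‖ ^ 2 * κ ^ k := by
      intro z hz
      rw [nf, (hd z hz).2.1]
    have hκk : 0 < κ ^ k := pow_pos hκ k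
    set B := Real.sqrt (M / κ ^ k) with hB
    have hB2 : B ^ 2 = M / κ ^ k := Real.sq_sqrt (div_nonneg hM0 hκk.le)
    have hB0 : 0 ≤ B := Real.sqrt_nonneg _
    have hdiff : DiffContOnCl ℂ (fun z : ℂ => f (v + z • ξ)) (Metric.ball 0 r) := by
      refine DifferentiableOn.diffContOnCl (hf.line fun z hz => ?_)
      have hz' := Metric.closure_ball_subset_closedBall hz
      rw [mem_closedBall_zero_iff] at hz'
      exact (hd z hz').1
    have hfr : ∀ z ∈ frontier (Metric.ball (0 : ℂ) r), ‖f (v + z • ξ)‖ ≤ B := by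
      intro z hz
      rw [frontier_ball (0 : ℂ) hr.ne', mem_sphere_zero_iff_norm] at hz
      have h2 := hlow _ (hd z hz.le).1 ((hd z hz.le).2.2 hz).le
      rw [hnf z hz.le, ← le_div_iff₀ hκk, ← hB2] at h2
      exact le_of_sq_le_sq h2 hB0
    have h0 := Complex.norm_le_of_forall_mem_frontier_norm_le Metric.isBounded_ball hdiff hfr
      (subset_closure (Metric.mem_ball_self hr))
    have h3 := hnf 0 (by rw [norm_zero]; exact hr.le)
    rw [zero_smul, add_zero] at h0 h3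
    rw [h3, ← le_div_iff₀ hκk, ← hB2]
    exact pow_le_pow_left₀ (norm_nonneg _) h0 2
  intro v hv
  obtain ⟨g, c, hc, he⟩ := exists_act_eq hv
  rw [he, nf_smul h hf hc (orbit_mem g)]
  exact horb g

/-- Cocompact groups have the constant height function. -/
theorem ht_of_coc (h : Coc Γ) : Ht Γ 2 (fun _ => 1) where
  hom := fun _ _ _ _ => rfl
  inv := fun _ _ _ _ => rfl
  one_le := fun _ _ => le_rfl
  harn := fun g x => by
    have := one_le_wt x
    nlinarith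
  nul := fun g hg => absurd hg (by norm_num)
  cpt := fun R => by
    obtain ⟨F, hF, hc⟩ := h.cpt
    exact ⟨F, hF, fun g _ => hc g⟩

end Pool.Agent.Lib.MP_5d4057_al.QB
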