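import Mathlib

/-! Jets: `N ^ n` linear functionals which control the derivatives of order `< N` along all lines
(project DER, T1b). -/

set_option autoImplicit false

namespace Pool.Agent.Lib.MP_5d4057_al.QB

open Finset

variable {n j N : ℕ}

/-- The number of occurrences of `l`. -/
def cnt (s : Fin j → Fin n) (l : Fin n) : ℕ := (univ.filter fun i => s i = l).card

theorem sum_cnt (s : Fin j → Fin n) : ∑ l, cnt s l = j := by
  have h := Finset.card_eq_sum_card_fiberwise (f := s) (s := univ) (t := univ)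
    (fun _ _ => by simp)
  rw [card_univ, Fintype.card_fin] at h
  exact h.symm

theorem cnt_le (s : Fin j → Fin n) (l : Fin n) : cnt s l ≤ j := by
  have h := sum_cnt s
  have h1 := Finset.single_le_sum (f := fun l => cnt s l) (fun _ _ => Nat.zero_le _) (mem_univ l)
  rw [h] at h1
  exact h1

theorem prod_cnt (w : Fin n → ℂ) (s : Fin j → Fin n) :
    ∏ i, w (s i) = ∏ l, w l ^ cnt s l := by
  rw [← Finset.prod_fiberwise (s := univ) (g := s)]
  refine Finset.prod_congr rfl fun l _ => ?_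
  rw [cnt, ← Finset.prod_const]
  refine Finset.prod_congr rfl fun i hi => ?_
  rw [(Finset.mem_filter.1 hi).2]

/-- The functional which belongs to a multi-index. -/
noncomputable def jet (α : Fin n → Fin N) (u : (Fin n → ℂ) → ℂ) : ℂ :=
  ∑ s : Fin (∑ l, (α l : ℕ)) → Fin n, if (∀ l, cnt s l = α l) then
    iteratedFDeriv ℂ (∑ l, (α l : ℕ)) u 0 (fun i => Pi.single (s i) 1) else 0

theorem iter_eq {u : (Fin n → ℂ) → ℂ} {U : Set (Fin n → ℂ)} (hU : IsOpen U) (h0 : (0 : Fin n → ℂ) ∈ U)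
    (hu : ContDiffOn ℂ j u U) (w : Fin n → ℂ) :
    iteratedDeriv j (fun z : ℂ => u (z • w)) 0 = ∑ s : Fin j → Fin n,
      (∏ i, w (s i)) * iteratedFDeriv ℂ j u 0 (fun i => Pi.single (s i) 1) := by
  set L : ℂ →L[ℂ] (Fin n → ℂ) := ContinuousLinearMap.toSpanSingleton ℂ w with hL
  have hLz : ∀ z : ℂ, L z = z • w := fun z => by
    rw [hL, ContinuousLinearMap.toSpanSingleton_apply]
  have hf : (fun z : ℂ => u (z • w)) = u ∘ L := by
    funext z
    rw [Function.comp_apply, hLz]
  have hL0 : L 0 = 0 := map_zero L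
  have hV : IsOpen (L ⁻¹' U) := hU.preimage L.continuous
  have h1 := L.iteratedFDerivWithin_comp_right hu hU.uniqueDiffOn hV.uniqueDiffOn
    (x := 0) (by rw [hL0]; exact h0) (i := j) le_rfl
  rw [iteratedFDerivWithin_of_isOpen j hV (show (0 : ℂ) ∈ L ⁻¹' U by
    rw [Set.mem_preimage, hL0]; exact h0), hL0, iteratedFDerivWithin_of_isOpen j hU h0] at h1
  rw [iteratedDeriv_eq_iteratedFDeriv, hf, h1,
    ContinuousMultilinearMap.compContinuousLinearMap_apply]
  have h2 : (fun _ : Fin j => L 1) = fun _ => ∑ l, w l • (Pi.single l 1 : Fin n → ℂ) := by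
    funext i
    rw [hLz, one_smul]
    ext l
    simp [Finset.sum_apply, Pi.single_apply]
  rw [h2, ContinuousMultilinearMap.map_sum]
  refine Finset.sum_congr rfl fun s _ => ?_
  rw [ContinuousMultilinearMap.map_smul_univ, smul_eq_mul]

/-- If all functionals vanish then all derivatives of order `< N` along lines vanish. -/
theorem iter_zero {u : (Fin n → ℂ) → ℂ} {U : Set (Fin n → ℂ)} (hU : IsOpen U)
    (h0 : (0 : Fin n → ℂ) ∈ U) (hu : ContDiffOn ℂ j u U) (hj : j < N)
    (h : ∀ α : Fin n → Fin N, jet α u = 0) (w : Fin n → ℂ) :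
    iteratedDeriv j (fun z : ℂ => u (z • w)) 0 = 0 := by
  rw [iter_eq hU h0 hu w]
  set g : (Fin j → Fin n) → (Fin n → Fin N) := fun s l => ⟨cnt s l, (cnt_le s l).trans_lt hj⟩ with hg
  rw [← Finset.sum_fiberwise (s := univ) (g := g)]
  refine Finset.sum_eq_zero fun α _ => ?_
  have hgα : ∀ s : Fin j → Fin n, g s = α ↔ ∀ l, cnt s l = α l := by
    intro s
    constructor
    · rintro rfl l
      rfl
    · intro hs
      funext l
      exact Fin.ext (hs l)
  by_cases hα : j = ∑ l, (α l : ℕ)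
  · subst hα
    have h1 : ∑ s ∈ univ.filter (fun s => g s = α), (∏ i, w (s i)) *
        iteratedFDeriv ℂ (∑ l, (α l : ℕ)) u 0 (fun i => Pi.single (s i) 1) =
        (∏ l, w l ^ (α l : ℕ)) * jet α u := by
      rw [jet, Finset.sum_filter, Finset.mul_sum]
      refine Finset.sum_congr rfl fun s _ => ?_
      by_cases hs : g s = α
      · rw [if_pos hs, if_pos ((hgα s).1 hs), prod_cnt]
        congr 1
        exact Finset.prod_congr rfl fun l _ => by rw [(hgα s).1 hs l]
      · rw [if_neg hs, if_neg (fun h' => hs ((hgα s).2 h')), mul_zero]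
    rw [h1, h α, mul_zero]
  · refine Finset.sum_eq_zero fun s hs => ?_
    exfalso
    have h1 := (hgα s).1 (Finset.mem_filter.1 hs).2
    apply hα
    rw [← sum_cnt s]
    exact Finset.sum_congr rfl fun l _ => h1 l

/-- Linearity of the functionals. -/
theorem jet_sum {ι : Type} [Fintype ι] (α : Fin n → Fin N) (a : ι → ℂ)
    (u : ι → (Fin n → ℂ) → ℂ) (hu : ∀ e, ∀ m : ℕ, ContDiffAt ℂ m (u e) 0) :
    jet α (fun w => ∑ e, a e * u e w) = ∑ e, a e * jet α (u e) := by
  have h1 : (fun w => ∑ e, a e * u e w) = ∑ e, (a e • u e) := by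
    funext w
    simp [Finset.sum_apply]
  have h2 : iteratedFDeriv ℂ (∑ l, (α l : ℕ)) (∑ e, (a e • u e)) 0 =
      ∑ e, a e • iteratedFDeriv ℂ (∑ l, (α l : ℕ)) (u e) 0 := by
    have h3 := iteratedFDeriv_sum_apply (𝕜 := ℂ) (f := fun e => a e • u e) (u := Finset.univ)
      (n := ∑ l, (α l : ℕ)) (x := (0 : Fin n → ℂ)) fun e _ => (hu e _).const_smul (a e)
    rw [h3]
    exact Finset.sum_congr rfl fun e _ => iteratedFDeriv_const_smul_apply (hu e _)
  rw [jet, h1, h2]
  simp only [jet, Finset.mul_sum]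
  rw [Finset.sum_comm]
  refine Finset.sum_congr rfl fun s _ => ?_
  by_cases hs : ∀ l, cnt s l = α l
  · simp only [if_pos hs]
    rw [_root_.sum_apply]
    exact Finset.sum_congr rfl fun e _ => by
      rw [_root_.smul_apply, smul_eq_mul]
  · simp only [if_neg hs, mul_zero, Finset.sum_const_zero]

theorem jet_add (α : Fin n → Fin N) {u v : (Fin n → ℂ) → ℂ} (hu : ∀ m : ℕ, ContDiffAt ℂ m u 0)
    (hv : ∀ m : ℕ, ContDiffAt ℂ m v 0) : jet α (fun w => u w + v w) = jet α u + jet α v := by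
  have h1 := iteratedFDeriv_add_apply (𝕜 := ℂ) (hu (∑ l, (α l : ℕ))) (hv (∑ l, (α l : ℕ)))
  have h2 : (fun w => u w + v w) = u + v := rfl
  rw [jet, h2, h1, jet, jet, ← Finset.sum_add_distrib]
  refine Finset.sum_congr rfl fun s _ => ?_
  by_cases hs : ∀ l, cnt s l = α l
  · rw [if_pos hs, if_pos hs, if_pos hs]
    rfl
  · rw [if_neg hs, if_neg hs, if_neg hs, add_zero]

theorem jet_smul (α : Fin n → Fin N) {u : (Fin n → ℂ) → ℂ} (hu : ∀ m : ℕ, ContDiffAt ℂ m u 0)
    (c : ℂ) : jet α (fun w => c * u w) = c * jet α u := by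
  have h := jet_sum α (fun _ : Unit => c) (fun _ => u) (fun _ => hu)
  simpa using h

end Pool.Agent.Lib.MP_5d4057_al.QB
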