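import Pool.Agent.Lib.MP_5d4057_al.QB.FmDefs
import Pool.Agent.Lib.MP_5d4057_al.NU.SumCh
import Pool.Agent.Lib.MP_5d4057_al.HM.Trans

/-! Poincaré series for discrete subgroups of `SU(n,1)` (project DER, part T1a). -/

set_option autoImplicit false

namespace Pool.Agent.Lib.MP_5d4057_al.QB

open Matrix MeasureTheory Filter Topology Pool.Agent.Lib.MP_5d4057_al
  Pool.Agent.Lib.MP_5d4057_al.Hyb Pool.Agent.Lib.MP_5d4057_al.HM
  Pool.Agent.Lib.MP_5d4057_al.NU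

variable {n : ℕ} {Γ : Subgroup (SUGroup n)}

/-- the linear map of `g` -/
noncomputable def actL (g : SUGroup n) : Vec n →L[ℂ] Vec n :=
  LinearMap.toContinuousLinearMap (Matrix.mulVecLin g.toMatrix)

theorem actL_apply (g : SUGroup n) (v : Vec n) : actL g v = act g v := rfl

/-- the function `u_j / u_n^(k+1)` -/
noncomputable def phi (k : ℕ) (j : Fin (n + 1)) (u : Vec n) : ℂ :=
  u j * (u (Fin.last n) ^ (k + 1))⁻¹

/-- its derivative -/
noncomputable def dphi (k : ℕ) (j : Fin (n + 1)) (u : Vec n) : Vec n →L[ℂ] ℂ :=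
  (u (Fin.last n) ^ (k + 1))⁻¹ • ContinuousLinearMap.proj j -
    (((k : ℂ) + 1) * u j * (u (Fin.last n) ^ (k + 2))⁻¹) • ContinuousLinearMap.proj (Fin.last n)

theorem dphi_apply (k : ℕ) (j : Fin (n + 1)) (u ξ : Vec n) :
    dphi k j u ξ = (u (Fin.last n) ^ (k + 1))⁻¹ * ξ j -
      (((k : ℂ) + 1) * u j * (u (Fin.last n) ^ (k + 2))⁻¹) * ξ (Fin.last n) := rfl

/-- in the cone the last coordinate dominates -/
theorem sum_lt_last {v : Vec n} (hv : v ∈ Cone n) :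
    ∑ i : Fin n, ‖v i.castSucc‖ ^ 2 < ‖v (Fin.last n)‖ ^ 2 := by
  have h : q v < 0 := hv
  rw [q_eq] at h
  linarith

theorem norm_le_last {v : Vec n} (hv : v ∈ Cone n) (j : Fin (n + 1)) :
    ‖v j‖ ≤ ‖v (Fin.last n)‖ := by
  refine Fin.lastCases le_rfl (fun i => ?_) j
  have h := sum_lt_last hv
  have h1 : ‖v i.castSucc‖ ^ 2 ≤ ∑ i : Fin n, ‖v i.castSucc‖ ^ 2 :=
    Finset.single_le_sum (f := fun i : Fin n => ‖v i.castSucc‖ ^ 2)
      (fun i _ => sq_nonneg _) (Finset.mem_univ i)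
  exact le_of_sq_le_sq (h1.trans h.le) (norm_nonneg _)

theorem last_ne_zero {v : Vec n} (hv : v ∈ Cone n) : v (Fin.last n) ≠ 0 := by
  intro h0
  have h := sum_lt_last hv
  rw [h0, norm_zero] at h
  have h1 : 0 ≤ ∑ i : Fin n, ‖v i.castSucc‖ ^ 2 := Finset.sum_nonneg fun i _ => sq_nonneg _
  norm_num at h
  linarith

theorem hasFDerivAt_phi (k : ℕ) (j : Fin (n + 1)) {u : Vec n} (hu : u (Fin.last n) ≠ 0) :
    HasFDerivAt (phi k j) (dphi k j u) u := by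
  have h1 : HasFDerivAt (fun v : Vec n => v j) (ContinuousLinearMap.proj (R := ℂ) (φ := fun _ => ℂ) j) u :=
    (ContinuousLinearMap.proj (R := ℂ) (φ := fun _ : Fin (n + 1) => ℂ) j).hasFDerivAt
  have h2 : HasFDerivAt (fun v : Vec n => v (Fin.last n))
      (ContinuousLinearMap.proj (R := ℂ) (φ := fun _ => ℂ) (Fin.last n)) u :=
    (ContinuousLinearMap.proj (R := ℂ) (φ := fun _ : Fin (n + 1) => ℂ) (Fin.last n)).hasFDerivAt
  have h3 : HasDerivAt (fun z : ℂ => (z ^ (k + 1))⁻¹)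
      (-(((k + 1 : ℕ) : ℂ) * u (Fin.last n) ^ k) / (u (Fin.last n) ^ (k + 1)) ^ 2)
      (u (Fin.last n)) := by
    have h := (hasDerivAt_pow (k + 1) (u (Fin.last n))).inv (pow_ne_zero _ hu)
    rw [Nat.add_sub_cancel] at h
    exact h
  have h4 := h3.comp_hasFDerivAt u h2
  have h5 := h1.mul h4
  refine h5.congr_fderiv ?_
  ext ξ
  simp only [dphi_apply, _root_.add_apply, _root_.smul_apply,
    ContinuousLinearMap.proj_apply, smul_eq_mul, Function.comp]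
  push_cast
  field_simp
  ring

theorem norm_dphi_le (k : ℕ) (j : Fin (n + 1)) {u : Vec n} (hu : u ∈ Cone n) (ξ : Vec n) :
    ‖dphi k j u ξ‖ ≤ ((k : ℝ) + 2) * (‖u (Fin.last n)‖ ^ (k + 1))⁻¹ * ‖ξ‖ := by
  have h0 := last_ne_zero hu
  have h1 : 0 < ‖u (Fin.last n)‖ := norm_pos_iff.2 h0
  have h2 := norm_le_last hu j
  rw [dphi_apply]
  refine (norm_sub_le _ _).trans ?_
  rw [norm_mul, norm_mul, norm_mul, norm_mul, norm_inv, norm_inv, norm_pow, norm_pow]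
  have h3 : ‖(k : ℂ) + 1‖ = (k : ℝ) + 1 := by
    have : ((k : ℂ) + 1) = (((k : ℝ) + 1 : ℝ) : ℂ) := by push_cast; ring
    rw [this, Complex.norm_real, Real.norm_of_nonneg (by positivity)]
  rw [h3]
  have h4 : ‖u j‖ * (‖u (Fin.last n)‖ ^ (k + 2))⁻¹ ≤ (‖u (Fin.last n)‖ ^ (k + 1))⁻¹ := by
    rw [← div_eq_mul_inv, div_le_iff₀ (by positivity), pow_succ _ (k + 1), ← mul_assoc,
      inv_mul_cancel₀ (by positivity), one_mul]
    exact h2
  have h5 := norm_le_pi_norm ξ j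
  have h6 := norm_le_pi_norm ξ (Fin.last n)
  have h7 : 0 ≤ (‖u (Fin.last n)‖ ^ (k + 1))⁻¹ := by positivity
  calc (‖u (Fin.last n)‖ ^ (k + 1))⁻¹ * ‖ξ j‖ +
        (↑k + 1) * ‖u j‖ * (‖u (Fin.last n)‖ ^ (k + 2))⁻¹ * ‖ξ (Fin.last n)‖
      ≤ (‖u (Fin.last n)‖ ^ (k + 1))⁻¹ * ‖ξ‖ +
        (↑k + 1) * (‖u (Fin.last n)‖ ^ (k + 1))⁻¹ * ‖ξ‖ := by
        refine add_le_add (mul_le_mul_of_nonneg_left h5 h7) ?_
        rw [mul_assoc ((k : ℝ) + 1)]
        exact mul_le_mul (mul_le_mul_of_nonneg_left h4 (by positivity)) h6 (norm_nonneg _)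
          (by positivity)
    _ = _ := by ring

/-- how far `v` is inside the cone -/
noncomputable def dpt (v : Vec n) : ℝ :=
  ‖v (Fin.last n)‖ - Real.sqrt (∑ i : Fin n, ‖v i.castSucc‖ ^ 2)

theorem dpt_pos {v : Vec n} (hv : v ∈ Cone n) : 0 < dpt v := by
  rw [dpt, sub_pos, Real.sqrt_lt' (norm_pos_iff.2 (last_ne_zero hv))]
  exact sum_lt_last hv

theorem continuous_dpt : Continuous (dpt (n := n)) := by
  unfold dpt
  fun_prop

theorem dpt_le (g : SUGroup n) (v : Vec n) : ch g * dpt v ≤ ‖act g v (Fin.last n)‖ := by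
  have h1 : act g v (Fin.last n) = ∑ i : Fin n, g.toMatrix (Fin.last n) i.castSucc * v i.castSucc +
      g.toMatrix (Fin.last n) (Fin.last n) * v (Fin.last n) := by
    rw [act, mulVec, dotProduct, Fin.sum_univ_castSucc]
  have h2 : ‖∑ i : Fin n, g.toMatrix (Fin.last n) i.castSucc * v i.castSucc‖ ≤
      Real.sqrt (∑ i : Fin n, ‖g.toMatrix (Fin.last n) i.castSucc‖ ^ 2) *
        Real.sqrt (∑ i : Fin n, ‖v i.castSucc‖ ^ 2) := by
    refine (norm_sum_le _ _).trans ?_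
    simp only [norm_mul]
    exact Real.sum_mul_le_sqrt_mul_sqrt _ _ _
  have h3 : Real.sqrt (∑ i : Fin n, ‖g.toMatrix (Fin.last n) i.castSucc‖ ^ 2) ≤ ch g := by
    rw [sum_row]
    exact Real.sqrt_le_iff.2 ⟨(ch_pos g).le, by linarith⟩
  have h4 : ‖g.toMatrix (Fin.last n) (Fin.last n) * v (Fin.last n)‖ =
      ch g * ‖v (Fin.last n)‖ := norm_mul _ _
  have h5 : ‖g.toMatrix (Fin.last n) (Fin.last n) * v (Fin.last n)‖ ≤ ‖act g v (Fin.last n)‖ +
      ‖∑ i : Fin n, g.toMatrix (Fin.last n) i.castSucc * v i.castSucc‖ := by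
    have h6 := norm_sub_le (act g v (Fin.last n))
      (∑ i : Fin n, g.toMatrix (Fin.last n) i.castSucc * v i.castSucc)
    rwa [h1, add_sub_cancel_left, ← h1] at h6
  have h7 := mul_le_mul_of_nonneg_right h3 (Real.sqrt_nonneg (∑ i : Fin n, ‖v i.castSucc‖ ^ 2))
  rw [dpt, mul_sub]
  linarith

/-- the general convergence statement -/
theorem summable_k (h : DiscreteTopology Γ) (g x : SUGroup n) {k : ℕ} (hk : 2 * (n + 1) ≤ k) :
    Summable fun γ : Γ => (ch (g * (γ : SUGroup n) * x))⁻¹ ^ k := by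
  have h1 := (summable_ch h (Nat.lt_succ_self n) x).mul_left (wt g ^ (2 * (n + 1)))
  refine Summable.of_nonneg_of_le (fun γ => pow_nonneg (inv_nonneg.2 (ch_pos _).le) _)
    (fun γ => ?_) h1
  have h2 : ch ((γ : SUGroup n) * x) ≤ wt g * ch (g * (γ : SUGroup n) * x) := by
    have h3 := ch_mul_le_wt g⁻¹ (g * (γ : SUGroup n) * x)
    rw [wt_inv] at h3
    have e : g⁻¹ * (g * (γ : SUGroup n) * x) = (γ : SUGroup n) * x := by group
    rwa [e] at h3
  have p1 := ch_pos (g * (γ : SUGroup n) * x)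
  have p2 := ch_pos ((γ : SUGroup n) * x)
  have p3 : 0 < wt g := lt_of_lt_of_le one_pos (one_le_wt g)
  have h4 : (ch (g * (γ : SUGroup n) * x))⁻¹ ^ k ≤
      (ch (g * (γ : SUGroup n) * x))⁻¹ ^ (2 * (n + 1)) :=
    pow_le_pow_of_le_one (inv_nonneg.2 p1.le) (inv_le_one_of_one_le₀ (one_le_ch _)) hk
  refine h4.trans ?_
  rw [inv_pow, ← div_eq_mul_inv, inv_eq_one_div, div_le_div_iff₀ (pow_pos p1 _) (pow_pos p2 _),
    one_mul, ← mul_pow]
  exact pow_le_pow_left₀ p2.le h2 _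

/-- the summand of the Poincaré series -/
noncomputable def psT (k : ℕ) (j : Fin (n + 1)) (g : SUGroup n) (v : Vec n) : ℂ :=
  phi k j (act g v)

/-- its derivative -/
noncomputable def dpsT (k : ℕ) (j : Fin (n + 1)) (g : SUGroup n) (v : Vec n) : Vec n →L[ℂ] ℂ :=
  (dphi k j (act g v)).comp (actL g)

theorem hasFDerivAt_psT (k : ℕ) (j : Fin (n + 1)) (g : SUGroup n) {v : Vec n} (hv : v ∈ Cone n) :
    HasFDerivAt (psT k j g) (dpsT k j g v) v :=
  (hasFDerivAt_phi k j (u := act g v) (last_ne_zero (act_mem g hv))).comp v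
    (actL g).hasFDerivAt

theorem norm_dpsT_apply (k : ℕ) (j : Fin (n + 1)) (g : SUGroup n) {v : Vec n} (hv : v ∈ Cone n)
    (ξ : Vec n) : ‖dpsT k j g v ξ‖ ≤
      2 * (n + 1) * ((k : ℝ) + 2) * (dpt v ^ (k + 1))⁻¹ * (ch g)⁻¹ ^ k * ‖ξ‖ := by
  have h1 := norm_dphi_le k j (act_mem g hv) (act g ξ)
  have h2 := Gr.norm_act_le g ξ
  have h3 := dpt_le g v
  have p1 := ch_pos g
  have p2 := dpt_pos hv
  have h4 : (‖act g v (Fin.last n)‖ ^ (k + 1))⁻¹ ≤ ((ch g * dpt v) ^ (k + 1))⁻¹ :=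
    inv_anti₀ (by positivity) (pow_le_pow_left₀ (by positivity) h3 _)
  show ‖dphi k j (act g v) (act g ξ)‖ ≤ _
  calc ‖dphi k j (act g v) (act g ξ)‖
      ≤ ((k : ℝ) + 2) * (‖act g v (Fin.last n)‖ ^ (k + 1))⁻¹ * ‖act g ξ‖ := h1
    _ ≤ ((k : ℝ) + 2) * ((ch g * dpt v) ^ (k + 1))⁻¹ * (2 * (n + 1) * ch g * ‖ξ‖) :=
        mul_le_mul (mul_le_mul_of_nonneg_left h4 (by positivity)) h2 (norm_nonneg _)
          (by positivity)
    _ = _ := by
        rw [inv_pow, mul_pow, pow_succ (ch g)]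
        field_simp

theorem norm_dpsT_le (k : ℕ) (j : Fin (n + 1)) (g : SUGroup n) {v : Vec n} (hv : v ∈ Cone n) :
    ‖dpsT k j g v‖ ≤ 2 * (n + 1) * ((k : ℝ) + 2) * (dpt v ^ (k + 1))⁻¹ * (ch g)⁻¹ ^ k := by
  have p1 := ch_pos g
  have p2 := dpt_pos hv
  exact ContinuousLinearMap.opNorm_le_bound _ (by positivity) (norm_dpsT_apply k j g hv)

theorem norm_psT_le (k : ℕ) (j : Fin (n + 1)) (g : SUGroup n) {v : Vec n} (hv : v ∈ Cone n) :
    ‖psT k j g v‖ ≤ (dpt v ^ k)⁻¹ * (ch g)⁻¹ ^ k := by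
  have h3 := dpt_le g v
  have p1 := ch_pos g
  have p2 := dpt_pos hv
  have h0 := norm_le_last (act_mem g hv) j
  have h5 := last_ne_zero (act_mem g hv)
  have h6 : 0 < ‖act g v (Fin.last n)‖ := norm_pos_iff.2 h5
  have h4 : (‖act g v (Fin.last n)‖ ^ k)⁻¹ ≤ ((ch g * dpt v) ^ k)⁻¹ :=
    inv_anti₀ (by positivity) (pow_le_pow_left₀ (by positivity) h3 _)
  rw [psT, phi, norm_mul, norm_inv, norm_pow]
  calc ‖act g v j‖ * (‖act g v (Fin.last n)‖ ^ (k + 1))⁻¹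
      ≤ ‖act g v (Fin.last n)‖ * (‖act g v (Fin.last n)‖ ^ (k + 1))⁻¹ :=
        mul_le_mul_of_nonneg_right h0 (by positivity)
    _ = (‖act g v (Fin.last n)‖ ^ k)⁻¹ := by
        rw [pow_succ]
        field_simp
    _ ≤ ((ch g * dpt v) ^ k)⁻¹ := h4
    _ = _ := by
        rw [mul_pow, mul_inv, mul_comm, inv_pow]

/-- the Poincaré series -/
noncomputable def ps (Γ : Subgroup (SUGroup n)) (k : ℕ) (g : SUGroup n) (j : Fin (n + 1))
    (v : Vec n) : ℂ := ∑' γ : Γ, psT k j (g * (γ : SUGroup n)) v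

theorem summable_psT (h : DiscreteTopology Γ) (g : SUGroup n) {k : ℕ} (hk : 2 * (n + 1) ≤ k)
    (j : Fin (n + 1)) {v : Vec n} (hv : v ∈ Cone n) :
    Summable fun γ : Γ => psT k j (g * (γ : SUGroup n)) v := by
  refine Summable.of_norm_bounded ((summable_k h g 1 hk).mul_left ((dpt v ^ k)⁻¹)) fun γ => ?_
  rw [mul_one]
  exact norm_psT_le k j _ hv

theorem hasFDerivAt_ps (h : DiscreteTopology Γ) (g : SUGroup n) {k : ℕ} (hk : 2 * (n + 1) ≤ k)
    (j : Fin (n + 1)) {v : Vec n} (hv : v ∈ Cone n) :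
    HasFDerivAt (ps Γ k g j) (∑' γ : Γ, dpsT k j (g * (γ : SUGroup n)) v) v := by
  have hm : dpt v / 2 < dpt v := by linarith [dpt_pos hv]
  have ho : IsOpen (Cone n ∩ {w : Vec n | dpt v / 2 < dpt w}) :=
    (isOpen_cone n).inter (isOpen_lt continuous_const continuous_dpt)
  obtain ⟨δ, hδ, hb⟩ := Metric.isOpen_iff.1 ho v ⟨hv, hm⟩
  have p2 : 0 < dpt v / 2 := by linarith [dpt_pos hv]
  refine hasFDerivAt_tsum_of_isPreconnected (𝕜 := ℂ)
    (u := fun γ : Γ => 2 * ((n : ℝ) + 1) * ((k : ℝ) + 2) * ((dpt v / 2) ^ (k + 1))⁻¹ *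
      (ch (g * (γ : SUGroup n) * 1))⁻¹ ^ k)
    ((summable_k h g 1 hk).mul_left _) Metric.isOpen_ball
    (convex_ball v δ).isPreconnected
    (fun γ x hx => hasFDerivAt_psT k j _ (hb hx).1) (fun γ x hx => ?_)
    (Metric.mem_ball_self hδ) (summable_psT h g hk j hv) (Metric.mem_ball_self hδ)
  rw [mul_one]
  refine (norm_dpsT_le k j _ (hb hx).1).trans ?_
  have h1 : dpt v / 2 ≤ dpt x := (hb hx).2.le
  have h2 : (dpt x ^ (k + 1))⁻¹ ≤ ((dpt v / 2) ^ (k + 1))⁻¹ :=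
    inv_anti₀ (by positivity) (pow_le_pow_left₀ p2.le h1 _)
  have p1 := ch_pos (g * (γ : SUGroup n))
  exact mul_le_mul_of_nonneg_right (mul_le_mul_of_nonneg_left h2 (by positivity)) (by positivity)

theorem summable_dpsT (h : DiscreteTopology Γ) (g : SUGroup n) {k : ℕ} (hk : 2 * (n + 1) ≤ k)
    (j : Fin (n + 1)) {v : Vec n} (hv : v ∈ Cone n) :
    Summable fun γ : Γ => dpsT k j (g * (γ : SUGroup n)) v := by
  refine Summable.of_norm_bounded ((summable_k h g 1 hk).mul_left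
    (2 * ((n : ℝ) + 1) * ((k : ℝ) + 2) * (dpt v ^ (k + 1))⁻¹)) fun γ => ?_
  rw [mul_one]
  exact norm_dpsT_le k j _ hv

/-- Poincaré series are automorphic forms. -/
theorem fm_ps (h : DiscreteTopology Γ) (g : SUGroup n) {k : ℕ} (hk : 2 * (n + 1) ≤ k)
    (j : Fin (n + 1)) : Fm Γ 1 k (ps Γ k g j) where
  diff := fun v hv => (hasFDerivAt_ps h g hk j hv).differentiableAt.differentiableWithinAt
  hom := by
    intro c hc v hv
    rw [ps, ps, ← tsum_mul_left]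
    refine tsum_congr fun γ => ?_
    rw [psT, psT, phi, phi, act_smul, Pi.smul_apply, Pi.smul_apply, smul_eq_mul, smul_eq_mul,
      mul_pow, pow_succ c, mul_inv, mul_inv]
    field_simp
  inv := by
    intro γ hγ v hv
    rw [Pi.one_apply, one_mul, ps, ps]
    rw [← (Equiv.mulRight (⟨γ, hγ⟩ : Γ)).tsum_eq fun γ' : Γ => psT k j (g * (γ' : SUGroup n)) v]
    refine tsum_congr fun γ' => ?_
    rw [psT, psT, Equiv.coe_mulRight, Subgroup.coe_mul, ← act_mul, mul_assoc]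

end Pool.Agent.Lib.MP_5d4057_al.QB
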